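import Mathlib

/-!
# Sets of natural numbers of density zero

`dn D n` is the number of elements of `D` in `[1, n]`. A countable union of small sets of density zero has density
zero (`union`), a set of density zero becomes small after the removal of a finite part (`cut`), and countably many
sequences with Cesàro limit zero tend to zero outside one common set of density zero (`common`).
-/

set_option autoImplicit false

open Filter Topology

namespace Pool.Agent.Orj

open Classical in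
/-- the number of elements of `D` in `[1, n]` -/
noncomputable def dn (D : Set ℕ) (n : ℕ) : ℕ := ((Finset.Icc 1 n).filter fun t => t ∈ D).card

/-- density zero -/
def Dz (D : Set ℕ) : Prop := Tendsto (fun n : ℕ => (dn D n : ℝ) / n) atTop (𝓝 0)

theorem dn_mono {D E : Set ℕ} (h : D ⊆ E) (n : ℕ) : dn D n ≤ dn E n := by
  classical
  unfold dn
  exact Finset.card_le_card fun t ht => by
    rw [Finset.mem_filter] at ht ⊢
    exact ⟨ht.1, h ht.2⟩

theorem Dz.mono {D E : Set ℕ} (h : D ⊆ E) (hE : Dz E) : Dz D := by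
  unfold Dz at *
  refine squeeze_zero (fun n => by positivity) (fun n => ?_) hE
  have := dn_mono h n
  gcongr

/-- a union of sets whose numbers of elements in `[1, n]` have bounded sum -/
theorem dn_iUnion {ι : Type} (E : ι → Set ℕ) (n : ℕ) (u : ι → ℝ) (B : ℝ) (hu : ∀ i, (dn (E i) n : ℝ) ≤ u i)
    (hB : ∀ s : Finset ι, ∑ i ∈ s, u i ≤ B) : (dn (⋃ i, E i) n : ℝ) ≤ B := by
  classical
  have hex : ∀ t : ℕ, ∃ i : Option ι, t ∈ (⋃ i, E i) → ∃ j, i = some j ∧ t ∈ E j := by
    intro t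
    by_cases ht : t ∈ ⋃ i, E i
    · obtain ⟨j, hj⟩ := Set.mem_iUnion.1 ht
      exact ⟨some j, fun _ => ⟨j, rfl, hj⟩⟩
    · exact ⟨none, fun h => absurd h ht⟩
  choose c hc using hex
  let A : Finset ℕ := (Finset.Icc 1 n).filter fun t => t ∈ ⋃ i, E i
  let s : Finset ι := (A.image c).biUnion fun o => o.toFinset
  have hsub : A ⊆ s.biUnion fun i => (Finset.Icc 1 n).filter fun t => t ∈ E i := by
    intro t ht
    have ht' := Finset.mem_filter.1 ht
    obtain ⟨j, hj, hm⟩ := hc t ht'.2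
    rw [Finset.mem_biUnion]
    refine ⟨j, ?_, Finset.mem_filter.2 ⟨ht'.1, hm⟩⟩
    rw [Finset.mem_biUnion]
    exact ⟨c t, Finset.mem_image_of_mem c ht, by rw [hj]; simp⟩
  have h1 : (dn (⋃ i, E i) n : ℝ) ≤ ∑ i ∈ s, (dn (E i) n : ℝ) := by
    have h2 := (Finset.card_le_card hsub).trans Finset.card_biUnion_le
    unfold dn
    exact_mod_cast h2
  exact h1.trans ((Finset.sum_le_sum fun i _ => hu i).trans (hB s))

theorem sum_geo (ε : ℝ) (hε : 0 ≤ ε) (s : Finset ℕ) : ∑ i ∈ s, ε / 2 ^ (i + 1) ≤ ε := by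
  have h1 : Summable fun i : ℕ => ε * (1 / 2 : ℝ) ^ (i + 1) :=
    ((summable_geometric_two).mul_left (ε * (1 / 2))).congr fun i => by rw [pow_succ]; ring
  have h2 : ∑' i : ℕ, ε * (1 / 2 : ℝ) ^ (i + 1) = ε := by
    rw [tsum_mul_left]
    have h3 : ∑' i : ℕ, (1 / 2 : ℝ) ^ (i + 1) = 1 := by
      have h4 := tsum_geometric_two
      have h5 : (fun i : ℕ => (1 / 2 : ℝ) ^ (i + 1)) = fun i => (1 / 2 : ℝ) ^ i * (1 / 2) := by
        funext i; rw [pow_succ]
      rw [h5, tsum_mul_right, h4]; norm_num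
    rw [h3, mul_one]
  have h3 : ∑ i ∈ s, ε / 2 ^ (i + 1) = ∑ i ∈ s, ε * (1 / 2 : ℝ) ^ (i + 1) :=
    Finset.sum_congr rfl fun i _ => by rw [one_div, inv_pow]; rfl
  rw [h3]
  calc _ ≤ ∑' i : ℕ, ε * (1 / 2 : ℝ) ^ (i + 1) := h1.sum_le_tsum s fun i _ => by positivity
    _ = ε := h2

theorem Dz.finUnion (E : ℕ → Set ℕ) (h : ∀ i, Dz (E i)) (m : ℕ) :
    Tendsto (fun n : ℕ => (∑ i ∈ Finset.range m, (dn (E i) n : ℝ)) / n) atTop (𝓝 0) := by
  have h1 : Tendsto (fun n : ℕ => ∑ i ∈ Finset.range m, (dn (E i) n : ℝ) / n) atTop (𝓝 0) := by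
    have := tendsto_finsetSum (Finset.range m) fun i _ => h i
    simpa using this
  refine h1.congr fun n => ?_
  rw [Finset.sum_div]

/-- a countable union of small sets of density zero -/
theorem union {ε : ℝ} (hε : 0 < ε) (E : ℕ → Set ℕ) (h1 : ∀ i, Dz (E i))
    (h2 : ∀ i n, (dn (E i) n : ℝ) ≤ ε / 2 ^ (i + 1) * n) :
    (∀ n, (dn (⋃ i, E i) n : ℝ) ≤ ε * n) ∧ Dz (⋃ i, E i) := by
  refine ⟨fun n => ?_, ?_⟩
  · refine dn_iUnion E n (fun i => ε / 2 ^ (i + 1) * n) (ε * n) (fun i => h2 i n) fun s => ?_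
    rw [← Finset.sum_mul]
    exact mul_le_mul_of_nonneg_right (sum_geo ε hε.le s) (Nat.cast_nonneg n)
  · unfold Dz
    rw [Metric.tendsto_atTop]
    intro d hd
    obtain ⟨m, hm⟩ : ∃ m : ℕ, ε * (1 / 2 : ℝ) ^ m < d / 2 := by
      have h3 : Tendsto (fun m : ℕ => ε * (1 / 2 : ℝ) ^ m) atTop (𝓝 0) := by
        have := (tendsto_pow_atTop_nhds_zero_of_lt_one (r := (1 / 2 : ℝ)) (by norm_num)
          (by norm_num)).const_mul ε
        rwa [mul_zero] at this
      exact (h3.eventually (gt_mem_nhds (by linarith : (0 : ℝ) < d / 2))).exists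
    have h4 := Dz.finUnion E h1 m
    rw [Metric.tendsto_atTop] at h4
    obtain ⟨N, hN⟩ := h4 (d / 2) (by linarith)
    refine ⟨max N 1, fun n hn => ?_⟩
    have hn1 : 1 ≤ n := (le_max_right _ _).trans hn
    have hn0 : (0 : ℝ) < n := by exact_mod_cast hn1
    have h5 := hN n ((le_max_left _ _).trans hn)
    rw [Real.dist_eq, sub_zero, abs_of_nonneg (by positivity)] at h5 ⊢
    have h6 : (dn (⋃ i, E i) n : ℝ) ≤
        (∑ i ∈ Finset.range m, (dn (E i) n : ℝ)) + ε * (1 / 2 : ℝ) ^ m * n := by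
      refine dn_iUnion E n (fun i => if i < m then (dn (E i) n : ℝ) else ε / 2 ^ (i + 1) * n) _
        (fun i => ?_) fun s => ?_
      · split_ifs
        · exact le_rfl
        · exact h2 i n
      · rw [← Finset.sum_filter_add_sum_filter_not s (fun i => i < m)]
        refine add_le_add ?_ ?_
        · rw [Finset.sum_congr rfl (g := fun i => (dn (E i) n : ℝ))
            (fun i hi => if_pos (Finset.mem_filter.1 hi).2)]
          refine Finset.sum_le_sum_of_subset_of_nonneg (fun i hi => ?_) fun i _ _ => by positivity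
          rw [Finset.mem_range]
          exact (Finset.mem_filter.1 hi).2
        · rw [Finset.sum_congr rfl (g := fun i => ε / 2 ^ (i + 1) * n)
            (fun i hi => if_neg (Finset.mem_filter.1 hi).2), ← Finset.sum_mul]
          refine mul_le_mul_of_nonneg_right ?_ hn0.le
          have h7 : ∀ i ∈ s.filter (fun i => ¬ i < m),
              ε / 2 ^ (i + 1) = ε * (1 / 2 : ℝ) ^ m / 2 ^ (i - m + 1) := by
            intro i hi
            have hi' : m ≤ i := not_lt.1 (Finset.mem_filter.1 hi).2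
            obtain ⟨k, rfl⟩ := Nat.exists_eq_add_of_le hi'
            rw [Nat.add_sub_cancel_left, one_div, inv_pow, add_assoc, pow_add]
            field_simp
          rw [Finset.sum_congr rfl h7]
          have h8 : ∑ i ∈ s.filter (fun i => ¬ i < m), ε * (1 / 2 : ℝ) ^ m / 2 ^ (i - m + 1) =
              ∑ k ∈ (s.filter (fun i => ¬ i < m)).image (fun i => i - m),
                ε * (1 / 2 : ℝ) ^ m / 2 ^ (k + 1) := by
            rw [Finset.sum_image]
            intro i hi j hj hij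
            have hi' : m ≤ i := not_lt.1 (Finset.mem_filter.1 (Finset.mem_coe.1 hi)).2
            have hj' : m ≤ j := not_lt.1 (Finset.mem_filter.1 (Finset.mem_coe.1 hj)).2
            simp only at hij
            omega
          rw [h8]
          exact sum_geo _ (by positivity) _
    rw [div_lt_iff₀ hn0]
    rw [div_lt_iff₀ hn0] at h5
    nlinarith

theorem dn_zero {D : Set ℕ} {n : ℕ} (h : ∀ t, 1 ≤ t → t ≤ n → t ∉ D) : dn D n = 0 := by
  classical
  unfold dn
  rw [Finset.card_eq_zero, Finset.filter_eq_empty_iff]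
  intro t ht hc
  exact h t (Finset.mem_Icc.1 ht).1 (Finset.mem_Icc.1 ht).2 hc

/-- the removal of a finite part makes a set of density zero small -/
theorem cut {G : Set ℕ} (hG : Dz G) {δ : ℝ} (hδ : 0 < δ) :
    ∃ M : ℕ, ∀ n, (dn (G ∩ Set.Ioi M) n : ℝ) ≤ δ * n := by
  unfold Dz at hG
  rw [Metric.tendsto_atTop] at hG
  obtain ⟨M, hM⟩ := hG δ hδ
  refine ⟨M, fun n => ?_⟩
  rcases le_or_gt n M with h | h
  · have h0 : dn (G ∩ Set.Ioi M) n = 0 := by
      refine dn_zero fun t _ ht hc => ?_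
      have h2 : M < t := hc.2
      omega
    rw [h0, Nat.cast_zero]
    positivity
  · have hn0 : (0 : ℝ) < n := by exact_mod_cast (by omega : 0 < n)
    have h1 := hM n h.le
    rw [Real.dist_eq, sub_zero, abs_of_nonneg (by positivity), div_lt_iff₀ hn0] at h1
    have h2 : (dn (G ∩ Set.Ioi M) n : ℝ) ≤ dn G n := by
      exact_mod_cast dn_mono Set.inter_subset_left n
    linarith

/-- Markov's inequality for Cesàro means -/
theorem markov {a : ℕ → ℝ} (h0 : ∀ n, 0 ≤ a n)
    (h : Tendsto (fun N : ℕ => (∑ n ∈ Finset.Icc 1 N, a n) / N) atTop (𝓝 0)) {d : ℝ} (hd : 0 < d)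
    {B : Set ℕ} (hB : ∀ n ∈ B, d < a n) : Dz B := by
  classical
  unfold Dz
  have h1 := h.div_const d
  rw [zero_div] at h1
  refine squeeze_zero (fun n => by positivity) (fun N => ?_) h1
  rw [div_div, mul_comm (N : ℝ) d, ← div_div]
  refine div_le_div_of_nonneg_right ?_ (Nat.cast_nonneg N)
  rw [le_div_iff₀ hd]
  unfold dn
  have h2 : (((Finset.Icc 1 N).filter fun t => t ∈ B).card : ℝ) * d =
      ∑ n ∈ (Finset.Icc 1 N).filter fun t => t ∈ B, d := by
    rw [Finset.sum_const, nsmul_eq_mul]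
  rw [h2]
  calc _ ≤ ∑ n ∈ (Finset.Icc 1 N).filter fun t => t ∈ B, a n :=
        Finset.sum_le_sum fun n hn => (hB n (Finset.mem_filter.1 hn).2).le
    _ ≤ _ := Finset.sum_le_sum_of_subset_of_nonneg (Finset.filter_subset _ _) fun n _ _ => h0 n

/-- one set of density zero for countably many sequences -/
theorem common (a : ℕ → ℕ → ℝ) (h0 : ∀ j n, 0 ≤ a j n)
    (h : ∀ j, Tendsto (fun N : ℕ => (∑ n ∈ Finset.Icc 1 N, a j n) / N) atTop (𝓝 0)) :
    ∃ G : Set ℕ, Dz G ∧ ∀ j, ∀ d > (0 : ℝ), ∀ᶠ n in atTop, n ∉ G → a j n ≤ d := by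
  obtain ⟨e, he⟩ : ∃ e : ℕ → ℕ × ℕ, Function.Surjective e := ⟨_, Nat.surjective_unpair⟩
  obtain ⟨B, hB⟩ : ∃ B : ℕ → Set ℕ, ∀ t n, n ∈ B t ↔ (1 : ℝ) / ((e t).2 + 1) < a (e t).1 n :=
    ⟨fun t => {n | (1 : ℝ) / ((e t).2 + 1) < a (e t).1 n}, fun t n => Iff.rfl⟩
  have hBz : ∀ t : ℕ, Dz (B t) := fun t =>
    markov (h0 (e t).1) (h (e t).1) (d := 1 / ((e t).2 + 1)) (by positivity) fun n hn => (hB t n).1 hn
  have hM : ∀ t : ℕ, ∃ M : ℕ, ∀ n, (dn (B t ∩ Set.Ioi M) n : ℝ) ≤ 1 / 2 ^ (t + 1) * n :=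
    fun t => cut (hBz t) (by positivity)
  choose M hM using hM
  refine ⟨⋃ t, B t ∩ Set.Ioi (M t),
    (union one_pos _ (fun t => (hBz t).mono Set.inter_subset_left) hM).2, fun j d hd => ?_⟩
  obtain ⟨k, hk⟩ := exists_nat_one_div_lt hd
  obtain ⟨t, ht⟩ := he (j, k)
  filter_upwards [eventually_gt_atTop (M t)] with n hn hnG
  by_contra hc
  rw [not_le] at hc
  apply hnG
  rw [Set.mem_iUnion]
  refine ⟨t, ?_, hn⟩
  rw [hB, ht]
  exact hk.trans hc

end Pool.Agent.Orj
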