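import Mathlib

/-!
# Definitions: weak mixing, and the hypothesis on the limit points of the powers
-/

set_option autoImplicit false

open MeasureTheory Filter Topology

namespace Pool.Agent.Orj

variable {X : Type} [MeasurableSpace X]

/-- `f` is measurable and bounded -/
def BM (f : X → ℝ) : Prop := Measurable f ∧ ∃ C : ℝ, ∀ x, |f x| ≤ C

/-- the correlations of `f`: `co μ T f n = ∫ f * f ∘ T^n` -/
noncomputable def co (μ : Measure X) (T : X → X) (f : X → ℝ) (n : ℕ) : ℝ :=
  ∫ x, f x * f (T^[n] x) ∂μ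

/-- weak mixing, as in the problem file: `(1 / N) ∑_{n = 1}^N |μ (A ∩ T^{-n} B) - μ A μ B| → 0` for all measurable
sets `A`, `B` -/
def WMix (μ : Measure X) (T : X → X) : Prop :=
  ∀ A B : Set X, MeasurableSet A → MeasurableSet B →
    Tendsto (fun N : ℕ => (∑ n ∈ Finset.Icc 1 N,
      |μ.real (A ∩ T^[n] ⁻¹' B) - μ.real A * μ.real B|) / N) atTop (𝓝 0)

/-- Property (P): for every nonprincipal ultrafilter `U` on `ℕ` there are `p r ≥ 0` (`r ≥ 0`) with `∑ r, p r ≤ 1`,
depending only on `U`, such that for every bounded measurable `f` with integral zero the limit of the correlations of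
`f` along `U` is at least `∑ r, p r * co μ T f r`. -/
def OffDiag (μ : Measure X) (T : X → X) : Prop :=
  ∀ U : Ultrafilter ℕ, (U : Filter ℕ) ≤ atTop → ∃ p : ℕ → ℝ, (∀ r, 0 ≤ p r) ∧ Summable p ∧
    ∑' r, p r ≤ 1 ∧ ∀ f : X → ℝ, BM f → ∫ x, f x ∂μ = 0 → ∀ l : ℝ,
      Tendsto (co μ T f) U (𝓝 l) → ∑' r, p r * co μ T f r ≤ l

end Pool.Agent.Orj
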