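import Mathlib
import Pool.Agent.Orj.Defs

/-!
# Bounded measurable functions, correlations, the `L²` norm
-/

set_option autoImplicit false

open MeasureTheory Filter Topology

namespace Pool.Agent.Orj

variable {X : Type} [MeasurableSpace X]

/-- the cross correlations of `f` and `g` -/
noncomputable def cc (μ : Measure X) (T : X → X) (f g : X → ℝ) (m n : ℕ) : ℝ :=
  ∫ x, f (T^[m] x) * g (T^[n] x) ∂μ

/-- the `L²` norm -/
noncomputable def nm (μ : Measure X) (f : X → ℝ) : ℝ := √(∫ x, f x ^ 2 ∂μ)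

/-- the `L²` norm of `f ∘ T - f` -/
noncomputable def dT (μ : Measure X) (T : X → X) (f : X → ℝ) : ℝ := nm μ fun x => f (T x) - f x

/-! ### b1: bounded measurable functions -/

-- BEGIN b1
theorem BM.const (c : ℝ) : BM (fun _ : X => c) := ⟨measurable_const, |c|, fun _ => le_rfl⟩

theorem BM.add {f g : X → ℝ} (hf : BM f) (hg : BM g) : BM fun x => f x + g x := by
  obtain ⟨C, hC⟩ := hf.2
  obtain ⟨D, hD⟩ := hg.2
  exact ⟨hf.1.add hg.1, C + D, fun x => (abs_add_le _ _).trans (add_le_add (hC x) (hD x))⟩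

theorem BM.sub {f g : X → ℝ} (hf : BM f) (hg : BM g) : BM fun x => f x - g x := by
  obtain ⟨C, hC⟩ := hf.2
  obtain ⟨D, hD⟩ := hg.2
  refine ⟨hf.1.sub hg.1, C + D, fun x => ?_⟩
  have h1 := abs_le.1 (hC x)
  have h2 := abs_le.1 (hD x)
  rw [abs_le]
  constructor <;> linarith [h1.1, h1.2, h2.1, h2.2]

theorem BM.mul {f g : X → ℝ} (hf : BM f) (hg : BM g) : BM fun x => f x * g x := by
  obtain ⟨C, hC⟩ := hf.2
  obtain ⟨D, hD⟩ := hg.2
  refine ⟨hf.1.mul hg.1, C * D, fun x => ?_⟩
  rw [abs_mul]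
  exact mul_le_mul (hC x) (hD x) (abs_nonneg _) ((abs_nonneg _).trans (hC x))

theorem BM.cmul {f : X → ℝ} (hf : BM f) (c : ℝ) : BM fun x => c * f x := (BM.const c).mul hf

theorem BM.sum {ι : Type} {f : ι → X → ℝ} (s : Finset ι) (hf : ∀ i ∈ s, BM (f i)) :
    BM fun x => ∑ i ∈ s, f i x := by
  classical
  induction s using Finset.induction_on with
  | empty => simpa using BM.const (X := X) 0
  | insert a s ha ih =>
    have h1 : (fun x => ∑ i ∈ insert a s, f i x) = fun x => f a x + ∑ i ∈ s, f i x := by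
      funext x
      rw [Finset.sum_insert ha]
    rw [h1]
    exact (hf a (Finset.mem_insert_self _ _)).add
      (ih fun i hi => hf i (Finset.mem_insert_of_mem hi))

theorem BM.comp {f : X → ℝ} (hf : BM f) {S : X → X} (hS : Measurable S) :
    BM fun x => f (S x) := by
  obtain ⟨C, hC⟩ := hf.2
  exact ⟨hf.1.comp hS, C, fun x => hC _⟩

/-- truncation -/
theorem BM.clip {f : X → ℝ} (hf : BM f) (M : ℝ) : BM fun x => max (-M) (min M (f x)) := by
  refine ⟨measurable_const.max (measurable_const.min hf.1), |M|, fun x => ?_⟩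
  have h1 : -|M| ≤ -M := neg_le_neg (le_abs_self M)
  have h2 : -M ≤ |M| := neg_le_abs M
  rw [abs_le]
  exact ⟨h1.trans (le_max_left _ _), max_le h2 ((min_le_left _ _).trans (le_abs_self M))⟩

theorem BM.integrable {μ : Measure X} [IsProbabilityMeasure μ] {f : X → ℝ} (hf : BM f) :
    Integrable f μ := by
  obtain ⟨C, hC⟩ := hf.2
  exact Integrable.of_bound hf.1.aestronglyMeasurable C (Eventually.of_forall fun x => by
    simpa [Real.norm_eq_abs] using hC x)
-- END b1

variable {μ : Measure X} [IsProbabilityMeasure μ] {T : X → X}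

-- BEGIN b2
theorem int_iter (hT : MeasurePreserving T μ μ) {f : X → ℝ} (hf : Measurable f) (n : ℕ) :
    ∫ x, f (T^[n] x) ∂μ = ∫ x, f x ∂μ := by
  have h := hT.iterate n
  have h2 := integral_map (μ := μ) h.measurable.aemeasurable
    (f := f) hf.aestronglyMeasurable
  rw [h.map_eq] at h2
  exact h2.symm

/-- the cross correlations depend on `m`, `n` only through the difference -/
theorem cc_shift (hT : MeasurePreserving T μ μ) {f g : X → ℝ} (hf : BM f) (hg : BM g)
    (m n i : ℕ) : cc μ T f g (m + i) (n + i) = cc μ T f g m n := by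
  have hF : Measurable fun x => f (T^[m] x) * g (T^[n] x) :=
    (hf.1.comp (hT.measurable.iterate m)).mul (hg.1.comp (hT.measurable.iterate n))
  have h := int_iter (μ := μ) hT hF i
  unfold cc
  rw [← h]
  refine integral_congr_ae (Eventually.of_forall fun x => ?_)
  simp only [Function.iterate_add_apply]

theorem co_eq_cc (f : X → ℝ) (n : ℕ) : co μ T f n = cc μ T f f 0 n := by
  unfold co cc
  simp only [Function.iterate_zero, id_eq]
-- END b2

-- BEGIN b3
theorem nm_nonneg (f : X → ℝ) : 0 ≤ nm μ f := Real.sqrt_nonneg _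

theorem nm_sq (f : X → ℝ) : nm μ f ^ 2 = ∫ x, f x ^ 2 ∂μ :=
  Real.sq_sqrt (integral_nonneg fun x => sq_nonneg (f x))

theorem b3_sq {f : X → ℝ} (hf : BM f) : Integrable (fun x => f x ^ 2) μ := by
  have h1 : (fun x => f x ^ 2) = fun x => f x * f x := by
    funext x
    ring
  rw [h1]
  exact (hf.mul hf).integrable

theorem b3_add3 {A B C : X → ℝ} (hA : Integrable A μ) (hB : Integrable B μ)
    (hC : Integrable C μ) :
    ∫ x, (A x + B x + C x) ∂μ = ∫ x, A x ∂μ + ∫ x, B x ∂μ + ∫ x, C x ∂μ := by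
  have h1 : ∫ x, (A x + B x + C x) ∂μ = ∫ x, (A x + B x) ∂μ + ∫ x, C x ∂μ :=
    integral_add (hA.add hB) hC
  have h2 : ∫ x, (A x + B x) ∂μ = ∫ x, A x ∂μ + ∫ x, B x ∂μ := integral_add hA hB
  rw [h1, h2]

/-- Cauchy-Schwarz -/
theorem abs_int_mul_le {f g : X → ℝ} (hf : BM f) (hg : BM g) :
    |∫ x, f x * g x ∂μ| ≤ nm μ f * nm μ g := by
  have hff := b3_sq (μ := μ) hf
  have hgg := b3_sq (μ := μ) hg
  have hfg := (hf.mul hg).integrable (μ := μ)
  have key : ∀ t : ℝ, 0 ≤ nm μ f ^ 2 + 2 * t * (∫ x, f x * g x ∂μ) + t ^ 2 * nm μ g ^ 2 := by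
    intro t
    have h1 : 0 ≤ ∫ x, (f x + t * g x) ^ 2 ∂μ := integral_nonneg fun x => sq_nonneg _
    have h2 : (fun x => (f x + t * g x) ^ 2) =
        fun x => (f x ^ 2 + (2 * t) * (f x * g x)) + t ^ 2 * g x ^ 2 := by
      funext x
      ring
    rw [h2, b3_add3 hff (hfg.const_mul _) (hgg.const_mul _), integral_const_mul,
      integral_const_mul] at h1
    rw [nm_sq, nm_sq]
    exact h1
  have hn1 := nm_nonneg (μ := μ) f
  have hn2 := nm_nonneg (μ := μ) g
  set I := ∫ x, f x * g x ∂μ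
  have h3 : I ^ 2 ≤ (nm μ f * nm μ g) ^ 2 := by
    rcases eq_or_lt_of_le hn2 with h4 | h4
    · have h5 : ∀ t : ℝ, 0 ≤ nm μ f ^ 2 + 2 * t * I := by
        intro t
        have := key t
        rw [← h4] at this
        linarith
      have h6 : I = 0 := by
        by_contra hI
        have h7 := h5 (-(nm μ f ^ 2 + 1) / (2 * I))
        have h8 : 2 * (-(nm μ f ^ 2 + 1) / (2 * I)) * I = -(nm μ f ^ 2 + 1) := by
          field_simp
        rw [h8] at h7
        linarith
      rw [h6]
      have h10 := sq_nonneg (nm μ f * nm μ g)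
      linarith
    · have h5 := key (-I / nm μ g ^ 2)
      have h6 : nm μ g ^ 2 ≠ 0 := by positivity
      have h7 : nm μ f ^ 2 + 2 * (-I / nm μ g ^ 2) * I + (-I / nm μ g ^ 2) ^ 2 * nm μ g ^ 2 =
          nm μ f ^ 2 - I ^ 2 / nm μ g ^ 2 := by
        field_simp
        ring
      rw [h7] at h5
      have h8 : I ^ 2 / nm μ g ^ 2 ≤ nm μ f ^ 2 := by linarith
      rw [div_le_iff₀ (by positivity)] at h8
      rw [mul_pow]
      exact h8
  have h9 : |I| ≤ |nm μ f * nm μ g| := sq_le_sq.1 h3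
  rwa [abs_of_nonneg (mul_nonneg hn1 hn2)] at h9

theorem b3_one : nm μ (fun _ : X => (1 : ℝ)) = 1 := by
  unfold nm
  simp

theorem abs_int_le {f : X → ℝ} (hf : BM f) : |∫ x, f x ∂μ| ≤ nm μ f := by
  have h1 := abs_int_mul_le (μ := μ) hf (BM.const (X := X) 1)
  rw [b3_one, mul_one] at h1
  simpa using h1

theorem nm_add_le {f g : X → ℝ} (hf : BM f) (hg : BM g) :
    nm μ (fun x => f x + g x) ≤ nm μ f + nm μ g := by
  have hn1 := nm_nonneg (μ := μ) f
  have hn2 := nm_nonneg (μ := μ) g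
  have h1 := abs_int_mul_le (μ := μ) hf hg
  have h2 := le_abs_self (∫ x, f x * g x ∂μ)
  have hff := b3_sq (μ := μ) hf
  have hgg := b3_sq (μ := μ) hg
  have hfg := (hf.mul hg).integrable (μ := μ)
  have h3 : nm μ (fun x => f x + g x) ^ 2 =
      nm μ f ^ 2 + 2 * (∫ x, f x * g x ∂μ) + nm μ g ^ 2 := by
    rw [nm_sq, nm_sq, nm_sq]
    have h4 : (fun x => (f x + g x) ^ 2) = fun x => (f x ^ 2 + 2 * (f x * g x)) + g x ^ 2 := by
      funext x
      ring
    rw [h4, b3_add3 hff (hfg.const_mul _) hgg, integral_const_mul]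
  have h5 : nm μ (fun x => f x + g x) ^ 2 ≤ (nm μ f + nm μ g) ^ 2 := by
    rw [h3]
    nlinarith
  exact le_of_sq_le_sq h5 (by positivity)

theorem nm_cmul (c : ℝ) (f : X → ℝ) : nm μ (fun x => c * f x) = |c| * nm μ f := by
  unfold nm
  have h1 : (fun x => (c * f x) ^ 2) = fun x => c ^ 2 * f x ^ 2 := by
    funext x
    ring
  rw [h1, integral_const_mul, Real.sqrt_mul (sq_nonneg c), Real.sqrt_sq_eq_abs]

theorem nm_mono {f g : X → ℝ} (hf : BM f) (hg : BM g) (h : ∀ x, |f x| ≤ |g x|) :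
    nm μ f ≤ nm μ g := by
  unfold nm
  apply Real.sqrt_le_sqrt
  exact integral_mono (b3_sq hf) (b3_sq hg) fun x => sq_le_sq.2 (h x)

theorem nm_iter (hT : MeasurePreserving T μ μ) {f : X → ℝ} (hf : BM f) (n : ℕ) :
    nm μ (fun x => f (T^[n] x)) = nm μ f := by
  unfold nm
  have h1 := int_iter hT (f := fun x => f x ^ 2) (hf.1.pow_const 2) n
  rw [h1]

theorem nm_sum_le {ι : Type} {f : ι → X → ℝ} (s : Finset ι) (hf : ∀ i ∈ s, BM (f i)) :
    nm μ (fun x => ∑ i ∈ s, f i x) ≤ ∑ i ∈ s, nm μ (f i) := by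
  classical
  induction s using Finset.induction_on with
  | empty =>
    simp [nm]
  | insert a s ha ih =>
    have h1 : ∀ i ∈ s, BM (f i) := fun i hi => hf i (Finset.mem_insert_of_mem hi)
    have h2 : (fun x => ∑ i ∈ insert a s, f i x) = fun x => f a x + ∑ i ∈ s, f i x := by
      funext x
      rw [Finset.sum_insert ha]
    rw [h2, Finset.sum_insert ha]
    refine (nm_add_le (hf a (Finset.mem_insert_self a s)) (BM.sum s h1)).trans ?_
    have := ih h1
    linarith

/-- removing the mean makes the norm smaller -/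
theorem nm_center_le {f : X → ℝ} (hf : BM f) : nm μ (fun x => f x - ∫ y, f y ∂μ) ≤ nm μ f := by
  have hn1 := nm_nonneg (μ := μ) f
  set m := ∫ y, f y ∂μ with hm
  have hff := b3_sq (μ := μ) hf
  have hfi := hf.integrable (μ := μ)
  have h3 : nm μ (fun x => f x - m) ^ 2 = nm μ f ^ 2 - m ^ 2 := by
    rw [nm_sq, nm_sq]
    have h4 : (fun x => (f x - m) ^ 2) = fun x => f x ^ 2 + (-2 * m) * f x + m ^ 2 := by
      funext x
      ring
    rw [h4, b3_add3 hff (hfi.const_mul _) (integrable_const _), integral_const_mul, ← hm]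
    simp
    ring
  have h5 : nm μ (fun x => f x - m) ^ 2 ≤ nm μ f ^ 2 := by
    rw [h3]
    nlinarith [sq_nonneg m]
  exact le_of_sq_le_sq h5 hn1
-- END b3

-- BEGIN b4
omit [IsProbabilityMeasure μ] in
private theorem b4_iter_bm (hT : MeasurePreserving T μ μ) {f : X → ℝ} (hf : BM f) (n : ℕ) :
    BM fun x => f (T^[n] x) := BM.comp hf (hT.measurable.iterate n)

theorem abs_cc_le (hT : MeasurePreserving T μ μ) {f g : X → ℝ} (hf : BM f) (hg : BM g)
    (m n : ℕ) : |cc μ T f g m n| ≤ nm μ f * nm μ g := by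
  have h := abs_int_mul_le (μ := μ) (b4_iter_bm hT hf m) (b4_iter_bm hT hg n)
  rw [nm_iter hT hf m, nm_iter hT hg n] at h
  exact h

theorem nm_iter_sub_le (hT : MeasurePreserving T μ μ) {f : X → ℝ} (hf : BM f) (n : ℕ) :
    nm μ (fun x => f (T^[n] x) - f x) ≤ n * dT μ T f := by
  induction n with
  | zero =>
    have h0 : (fun x : X => f (T^[0] x) - f x) = fun x => (0 : ℝ) * f x := by
      funext x; simp
    rw [h0, nm_cmul]; simp
  | succ n ih =>
    have hd : BM fun x => f (T x) - f x := BM.sub (BM.comp hf hT.measurable) hf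
    have e : (fun x => f (T^[n + 1] x) - f x)
        = fun x => (f (T (T^[n] x)) - f (T^[n] x)) + (f (T^[n] x) - f x) := by
      funext x
      rw [Function.iterate_succ_apply']
      ring
    rw [e]
    have h1 := nm_add_le (μ := μ) (b4_iter_bm hT hd n) (BM.sub (b4_iter_bm hT hf n) hf)
    have h2 := nm_iter hT hd n
    have h3 : nm μ (fun x => f (T x) - f x) = dT μ T f := rfl
    rw [h3] at h2
    push_cast
    linarith

private theorem b4_int_sq_one {g : X → ℝ} (h1 : ∀ x, g x ^ 2 = 1) : ∫ x, g x ^ 2 ∂μ = 1 := by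
  simp [h1]

/-- the correlations of nearly invariant functions with square `1` are nearly `1` -/
theorem co_ge (hT : MeasurePreserving T μ μ) {g : X → ℝ} (hg : BM g) (h1 : ∀ x, g x ^ 2 = 1)
    (n : ℕ) : 1 - (n * dT μ T g) ^ 2 / 2 ≤ co μ T g n := by
  have hgn := b4_iter_bm hT hg n
  have hle := nm_iter_sub_le hT hg n
  have h0 : 0 ≤ nm μ (fun x => g (T^[n] x) - g x) := nm_nonneg _
  have hsq : nm μ (fun x => g (T^[n] x) - g x) ^ 2 ≤ (n * dT μ T g) ^ 2 :=
    pow_le_pow_left₀ h0 hle 2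
  rw [nm_sq] at hsq
  have e : ∀ x, (g (T^[n] x) - g x) ^ 2 = 2 - 2 * (g x * g (T^[n] x)) := by
    intro x
    have a := h1 x
    have b := h1 (T^[n] x)
    nlinarith [a, b]
  have hint : ∫ x, (g (T^[n] x) - g x) ^ 2 ∂μ = 2 - 2 * co μ T g n := by
    simp only [e]
    rw [integral_sub (integrable_const _) ((BM.integrable (BM.mul hg hgn)).const_mul 2),
      integral_const_mul]
    simp [co]
  rw [hint] at hsq
  linarith

theorem abs_co_le_one (hT : MeasurePreserving T μ μ) {g : X → ℝ} (hg : BM g)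
    (h1 : ∀ x, g x ^ 2 = 1) (n : ℕ) : |co μ T g n| ≤ 1 := by
  have h := abs_int_mul_le (μ := μ) hg (b4_iter_bm hT hg n)
  rw [nm_iter hT hg n] at h
  have h2 : nm μ g * nm μ g = 1 := by
    have := nm_sq (μ := μ) g
    rw [b4_int_sq_one h1] at this
    nlinarith [this]
  rw [h2] at h
  exact h

/-- removing the mean -/
theorem co_center (hT : MeasurePreserving T μ μ) {f : X → ℝ} (hf : BM f) (n : ℕ) :
    co μ T (fun x => f x - ∫ y, f y ∂μ) n = co μ T f n - (∫ y, f y ∂μ) ^ 2 := by
  set m := ∫ y, f y ∂μ with hm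
  have hfn := b4_iter_bm hT hf n
  have e : ∀ x, (f x - m) * (f (T^[n] x) - m)
      = (f x * f (T^[n] x) - m * f x) - (m * f (T^[n] x) - m ^ 2) := by
    intro x; ring
  have i1 : Integrable (fun x => f x * f (T^[n] x)) μ := BM.integrable (BM.mul hf hfn)
  have i2 : Integrable (fun x => m * f x) μ := (BM.integrable hf).const_mul m
  have i3 : Integrable (fun x => m * f (T^[n] x)) μ := (BM.integrable hfn).const_mul m
  have i4 : Integrable (fun _ : X => m ^ 2) μ := integrable_const _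
  have hi := int_iter hT hf.1 n
  unfold co
  simp only [e]
  have i12 : Integrable (fun x => f x * f (T^[n] x) - m * f x) μ := i1.sub i2
  have i34 : Integrable (fun x => m * f (T^[n] x) - m ^ 2) μ := i3.sub i4
  rw [integral_sub i12 i34, integral_sub i1 i2, integral_sub i3 i4,
    integral_const_mul, integral_const_mul, hi]
  simp [← hm]
  ring

/-- the correlations of a sum -/
theorem co_add (hT : MeasurePreserving T μ μ) {f h : X → ℝ} (hf : BM f) (hh : BM h) (c : ℝ)
    (n : ℕ) : co μ T (fun x => f x + c * h x) n =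
      co μ T f n + c ^ 2 * co μ T h n + c * (cc μ T f h 0 n + cc μ T h f 0 n) := by
  have hfn := b4_iter_bm hT hf n
  have hhn := b4_iter_bm hT hh n
  have e : ∀ x, (f x + c * h x) * (f (T^[n] x) + c * h (T^[n] x))
      = (f x * f (T^[n] x) + c ^ 2 * (h x * h (T^[n] x)))
        + (c * (f x * h (T^[n] x)) + c * (h x * f (T^[n] x))) := by
    intro x; ring
  have i1 : Integrable (fun x => f x * f (T^[n] x)) μ := BM.integrable (BM.mul hf hfn)
  have i2 : Integrable (fun x => c ^ 2 * (h x * h (T^[n] x))) μ :=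
    (BM.integrable (BM.mul hh hhn)).const_mul _
  have i3 : Integrable (fun x => c * (f x * h (T^[n] x))) μ :=
    (BM.integrable (BM.mul hf hhn)).const_mul _
  have i4 : Integrable (fun x => c * (h x * f (T^[n] x))) μ :=
    (BM.integrable (BM.mul hh hfn)).const_mul _
  unfold co cc
  simp only [e, Function.iterate_zero, id_eq]
  have i12 : Integrable (fun x => f x * f (T^[n] x) + c ^ 2 * (h x * h (T^[n] x))) μ :=
    i1.add i2
  have i34 : Integrable (fun x => c * (f x * h (T^[n] x)) + c * (h x * f (T^[n] x))) μ :=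
    i3.add i4
  rw [integral_add i12 i34, integral_add i1 i2, integral_add i3 i4,
    integral_const_mul, integral_const_mul, integral_const_mul]
  ring
-- END b4

end Pool.Agent.Orj
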