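import Mathlib
import Pool.Agent.Orj.Bas

/-!
# Weak mixing: small sets, ergodicity, nearly invariant sets (page, sections 1 - 3)
-/

set_option autoImplicit false

open MeasureTheory Filter Topology

namespace Pool.Agent.Orj

variable {X : Type} [MeasurableSpace X] {μ : Measure X} [IsProbabilityMeasure μ] {T : X → X}

-- BEGIN e1
/-- from the averages to one time -/
theorem WMix.exists_near (h : WMix μ T) {A B : Set X} (hA : MeasurableSet A)
    (hB : MeasurableSet B) {d : ℝ} (hd : 0 < d) :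
    ∃ n ≥ 1, |μ.real (A ∩ T^[n] ⁻¹' B) - μ.real A * μ.real B| < d := by
  by_contra hc
  have hge : ∀ n : ℕ, 1 ≤ n → d ≤ |μ.real (A ∩ T^[n] ⁻¹' B) - μ.real A * μ.real B| := by
    intro n hn
    by_contra hlt
    exact hc ⟨n, hn, not_le.1 hlt⟩
  have h1 := (h A B hA hB).eventually (gt_mem_nhds hd)
  obtain ⟨N, hN, hN1⟩ := (h1.and (eventually_ge_atTop 1)).exists
  have hNpos : (0 : ℝ) < N := by exact_mod_cast hN1
  have h2 : (N : ℝ) * d ≤ ∑ n ∈ Finset.Icc 1 N,
      |μ.real (A ∩ T^[n] ⁻¹' B) - μ.real A * μ.real B| := by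
    have h3 : ∑ n ∈ Finset.Icc 1 N, d ≤ ∑ n ∈ Finset.Icc 1 N,
        |μ.real (A ∩ T^[n] ⁻¹' B) - μ.real A * μ.real B| :=
      Finset.sum_le_sum fun n hn => hge n (Finset.mem_Icc.1 hn).1
    rw [Finset.sum_const, Nat.card_Icc, nsmul_eq_mul] at h3
    simpa using h3
  rw [div_lt_iff₀ hNpos] at hN
  linarith

/-- section 1: sets of small positive measure -/
theorem exists_small (hT : MeasurePreserving T μ μ) (h : WMix μ T)
    (hnt : ∃ A : Set X, MeasurableSet A ∧ 0 < μ A ∧ μ A < 1) {e : ℝ} (he : 0 < e) :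
    ∃ A : Set X, MeasurableSet A ∧ 0 < μ.real A ∧ μ.real A ≤ e := by
  obtain ⟨A0, hA0, hpos, hlt⟩ := hnt
  have ha0 : 0 < μ.real A0 := ENNReal.toReal_pos hpos.ne' (measure_ne_top μ A0)
  have ha1 : μ.real A0 < 1 := by
    have h1 : (μ A0).toReal < (1 : ENNReal).toReal :=
      (ENNReal.toReal_lt_toReal (measure_ne_top μ A0) ENNReal.one_ne_top).2 hlt
    simpa [Measure.real] using h1
  have key : ∀ k : ℕ, ∃ A : Set X, MeasurableSet A ∧ 0 < μ.real A ∧
      μ.real A ≤ μ.real A0 * ((1 + μ.real A0) / 2) ^ k := by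
    intro k
    induction k with
    | zero => exact ⟨A0, hA0, ha0, by simp⟩
    | succ k ih =>
      obtain ⟨A, hA, hp, hle⟩ := ih
      have hr1 : (1 + μ.real A0) / 2 ≤ 1 := by linarith
      have hr0 : 0 ≤ (1 + μ.real A0) / 2 := by linarith
      have hb : μ.real A ≤ μ.real A0 :=
        hle.trans (mul_le_of_le_one_right ha0.le (pow_le_one₀ hr0 hr1))
      have hd : 0 < min (μ.real A ^ 2) (μ.real A * (1 - μ.real A) / 2) :=
        lt_min (by positivity) (by
          have : 0 < 1 - μ.real A := by linarith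
          positivity)
      obtain ⟨n, -, hn⟩ := h.exists_near hA hA hd
      refine ⟨A ∩ T^[n] ⁻¹' A, hA.inter ((hT.measurable.iterate n) hA), ?_, ?_⟩
      · have h1 := (abs_lt.1 hn).1
        have h2 := min_le_left (μ.real A ^ 2) (μ.real A * (1 - μ.real A) / 2)
        nlinarith
      · have h1 := (abs_lt.1 hn).2
        have h2 := min_le_right (μ.real A ^ 2) (μ.real A * (1 - μ.real A) / 2)
        have h3 : μ.real (A ∩ T^[n] ⁻¹' A) ≤ μ.real A * ((1 + μ.real A0) / 2) := by
          nlinarith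
        refine h3.trans ?_
        rw [pow_succ, ← mul_assoc]
        exact mul_le_mul_of_nonneg_right hle hr0
  have hr1 : (1 + μ.real A0) / 2 < 1 := by linarith
  have hr0 : 0 ≤ (1 + μ.real A0) / 2 := by linarith
  obtain ⟨k, hk⟩ := exists_pow_lt_of_lt_one he hr1
  obtain ⟨A, hA, hp, hle⟩ := key k
  refine ⟨A, hA, hp, hle.trans ?_⟩
  have h1 : μ.real A0 * ((1 + μ.real A0) / 2) ^ k ≤ 1 * ((1 + μ.real A0) / 2) ^ k :=
    mul_le_mul_of_nonneg_right ha1.le (pow_nonneg hr0 k)
  linarith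
-- END e1

-- BEGIN e2
/-- section 2 (a) -/
theorem exhaust (hT : MeasurePreserving T μ μ) (h : WMix μ T) {A : Set X} (hA : MeasurableSet A)
    (hA0 : 0 < μ.real A) :
    Tendsto (fun L : ℕ => μ.real (⋃ i ∈ Finset.range L, T^[i] ⁻¹' A)) atTop (𝓝 1) := by
  have hm : ∀ i : ℕ, MeasurableSet (T^[i] ⁻¹' A) := fun i => (hT.iterate i).measurable hA
  have hU : MeasurableSet (⋃ i : ℕ, T^[i] ⁻¹' A) := MeasurableSet.iUnion hm
  have hB0 : μ.real (⋃ i : ℕ, T^[i] ⁻¹' A)ᶜ = 0 := by
    by_contra hne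
    have hpos : 0 < μ.real (⋃ i : ℕ, T^[i] ⁻¹' A)ᶜ := lt_of_le_of_ne measureReal_nonneg (Ne.symm hne)
    obtain ⟨n, -, hn⟩ := h.exists_near hU.compl hA (mul_pos hpos hA0)
    have he : (⋃ i : ℕ, T^[i] ⁻¹' A)ᶜ ∩ T^[n] ⁻¹' A = ∅ := by
      ext x
      simp only [Set.mem_inter_iff, Set.mem_compl_iff, Set.mem_iUnion, Set.mem_preimage,
        Set.mem_empty_iff_false, iff_false, not_and]
      intro hx hx2
      exact hx ⟨n, hx2⟩
    rw [he, measureReal_empty, zero_sub, abs_neg, abs_of_pos (mul_pos hpos hA0)] at hn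
    exact lt_irrefl _ hn
  have hU1 : μ.real (⋃ i : ℕ, T^[i] ⁻¹' A) = 1 := by
    have h1 := probReal_compl_eq_one_sub (μ := μ) hU
    rw [hB0] at h1
    linarith
  have hmono : Monotone fun L : ℕ => ⋃ i ∈ Finset.range L, T^[i] ⁻¹' A := by
    intro L M hLM
    exact Set.biUnion_subset_biUnion_left fun i hi =>
      Finset.mem_range.2 ((Finset.mem_range.1 hi).trans_le hLM)
  have hlim := tendsto_measure_iUnion_atTop (μ := μ) hmono
  have heq : (⋃ L : ℕ, ⋃ i ∈ Finset.range L, T^[i] ⁻¹' A) = ⋃ i : ℕ, T^[i] ⁻¹' A := by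
    ext x
    simp only [Set.mem_iUnion, Set.mem_preimage, Finset.mem_range, exists_prop]
    constructor
    · rintro ⟨L, i, -, hx⟩
      exact ⟨i, hx⟩
    · rintro ⟨i, hx⟩
      exact ⟨i + 1, i, Nat.lt_succ_self i, hx⟩
  rw [heq] at hlim
  have h2 := (ENNReal.tendsto_toReal (measure_ne_top μ (⋃ i : ℕ, T^[i] ⁻¹' A))).comp hlim
  have h3 : (μ (⋃ i : ℕ, T^[i] ⁻¹' A)).toReal = 1 := hU1
  rw [h3] at h2
  exact h2
-- END e2

-- BEGIN e3
/-- a bounded measurable function is a uniform limit of step functions -/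
private theorem e3_approx {f : X → ℝ} (hf : BM f) {e : ℝ} (he : 0 < e) :
    ∃ (s : Finset ℤ) (a : ℤ → ℝ) (A : ℤ → Set X), (∀ k, MeasurableSet (A k)) ∧
      ∀ x, |f x - ∑ k ∈ s, a k * (A k).indicator (fun _ => (1 : ℝ)) x| ≤ e := by
  obtain ⟨hm, C, hC⟩ := hf
  obtain ⟨K, hK⟩ := exists_nat_gt (C / e + 1)
  refine ⟨Finset.Icc (-(K : ℤ)) K, fun k => e * k, fun k => {x | ⌊f x / e⌋ = k}, ?_, ?_⟩
  · intro k
    exact (Int.measurable_floor.comp (hm.div_const e)) (measurableSet_singleton k)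
  · intro x
    have h1 := (abs_le.1 (hC x)).1
    have h2 := (abs_le.1 (hC x)).2
    have h3 : f x / e ≤ C / e := div_le_div_of_nonneg_right h2 he.le
    have h4 : -(C / e) ≤ f x / e := by
      rw [← neg_div]; exact div_le_div_of_nonneg_right h1 he.le
    have h5 := Int.floor_le (f x / e)
    have h6 := Int.lt_floor_add_one (f x / e)
    have hmem : ⌊f x / e⌋ ∈ Finset.Icc (-(K : ℤ)) K := by
      rw [Finset.mem_Icc]
      constructor
      · have : ((-(K : ℤ) : ℤ) : ℝ) ≤ (⌊f x / e⌋ : ℝ) := by push_cast; linarith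
        exact_mod_cast this
      · have : ((⌊f x / e⌋ : ℤ) : ℝ) ≤ ((K : ℤ) : ℝ) := by push_cast; linarith
        exact_mod_cast this
    rw [Finset.sum_eq_single_of_mem _ hmem]
    · have h7 : ({y : X | ⌊f y / e⌋ = ⌊f x / e⌋}).indicator (fun _ => (1 : ℝ)) x = 1 :=
        Set.indicator_of_mem (by simp) _
      rw [h7, mul_one]
      have h8 : f x = e * (f x / e) := by field_simp
      have h9 : f x - e * (⌊f x / e⌋ : ℝ) = e * (f x / e - ⌊f x / e⌋) := by
        rw [mul_sub, ← h8]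
      rw [h9, abs_of_nonneg (mul_nonneg he.le (by linarith))]
      calc e * (f x / e - ⌊f x / e⌋) ≤ e * 1 :=
            mul_le_mul_of_nonneg_left (by linarith) he.le
        _ = e := mul_one e
    · intro k _ hk
      have : ({y : X | ⌊f y / e⌋ = k}).indicator (fun _ => (1 : ℝ)) x = 0 :=
        Set.indicator_of_notMem (fun h => hk h.symm) _
      rw [this, mul_zero]

omit [IsProbabilityMeasure μ] in
private theorem e3_bm (s : Finset ℤ) (a : ℤ → ℝ) (A : ℤ → Set X) (hA : ∀ k, MeasurableSet (A k)) :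
    BM fun x => ∑ k ∈ s, a k * (A k).indicator (fun _ => (1 : ℝ)) x := by
  refine BM.sum s fun k _ => BM.cmul ?_ _
  refine ⟨measurable_const.indicator (hA k), 1, fun x => ?_⟩
  by_cases hx : x ∈ A k
  · rw [Set.indicator_of_mem hx]; simp
  · rw [Set.indicator_of_notMem hx]; simp

/-- the case of step functions -/
private theorem e3_step (hT : MeasurePreserving T μ μ) (s t : Finset ℤ) (a b : ℤ → ℝ)
    (A B : ℤ → Set X) (hA : ∀ k, MeasurableSet (A k)) (hB : ∀ k, MeasurableSet (B k)) (n : ℕ) :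
    cc μ T (fun x => ∑ k ∈ s, a k * (A k).indicator (fun _ => (1 : ℝ)) x)
      (fun x => ∑ k ∈ t, b k * (B k).indicator (fun _ => (1 : ℝ)) x) 0 n -
      (∫ x, ∑ k ∈ s, a k * (A k).indicator (fun _ => (1 : ℝ)) x ∂μ) *
        ∫ x, ∑ k ∈ t, b k * (B k).indicator (fun _ => (1 : ℝ)) x ∂μ =
    ∑ i ∈ s, ∑ j ∈ t, a i * b j *
      (μ.real (A i ∩ T^[n] ⁻¹' B j) - μ.real (A i) * μ.real (B j)) := by
  have hint : ∀ (S : Set X), MeasurableSet S → ∫ x, S.indicator (fun _ => (1 : ℝ)) x ∂μ =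
      μ.real S := by
    intro S hS
    rw [integral_indicator_const _ hS]; simp
  have hInt : ∀ (S : Set X), MeasurableSet S →
      Integrable (fun x => S.indicator (fun _ => (1 : ℝ)) x) μ := fun S hS =>
    (integrable_const (1 : ℝ)).indicator hS
  have e1 : ∫ x, ∑ k ∈ s, a k * (A k).indicator (fun _ => (1 : ℝ)) x ∂μ =
      ∑ i ∈ s, a i * μ.real (A i) := by
    rw [integral_finsetSum _ fun i _ => (hInt _ (hA i)).const_mul _]
    refine Finset.sum_congr rfl fun i _ => ?_
    rw [integral_const_mul, hint _ (hA i)]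
  have e2 : ∫ x, ∑ k ∈ t, b k * (B k).indicator (fun _ => (1 : ℝ)) x ∂μ =
      ∑ j ∈ t, b j * μ.real (B j) := by
    rw [integral_finsetSum _ fun i _ => (hInt _ (hB i)).const_mul _]
    refine Finset.sum_congr rfl fun i _ => ?_
    rw [integral_const_mul, hint _ (hB i)]
  have hTn : Measurable (T^[n]) := hT.measurable.iterate n
  have e3 : cc μ T (fun x => ∑ k ∈ s, a k * (A k).indicator (fun _ => (1 : ℝ)) x)
      (fun x => ∑ k ∈ t, b k * (B k).indicator (fun _ => (1 : ℝ)) x) 0 n =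
      ∑ i ∈ s, ∑ j ∈ t, a i * b j * μ.real (A i ∩ T^[n] ⁻¹' B j) := by
    unfold cc
    have h0 : ∀ x, (∑ k ∈ s, a k * (A k).indicator (fun _ => (1 : ℝ)) (T^[0] x)) *
        (∑ k ∈ t, b k * (B k).indicator (fun _ => (1 : ℝ)) (T^[n] x)) =
        ∑ i ∈ s, ∑ j ∈ t, a i * b j *
          (A i ∩ T^[n] ⁻¹' B j).indicator (fun _ => (1 : ℝ)) x := by
      intro x
      rw [Finset.sum_mul_sum]
      refine Finset.sum_congr rfl fun i _ => Finset.sum_congr rfl fun j _ => ?_
      have h1 : (A i ∩ T^[n] ⁻¹' B j).indicator (fun _ => (1 : ℝ)) x =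
          (A i).indicator (fun _ => (1 : ℝ)) x * (B j).indicator (fun _ => (1 : ℝ)) (T^[n] x) := by
        classical
        by_cases ha : x ∈ A i <;> by_cases hb : T^[n] x ∈ B j <;>
          simp [Set.indicator, ha, hb]
      rw [h1]
      simp only [Function.iterate_zero, id_eq]
      ring
    rw [integral_congr_ae (Eventually.of_forall h0)]
    have hI : ∀ i j, Integrable (fun x => a i * b j *
        (A i ∩ T^[n] ⁻¹' B j).indicator (fun _ => (1 : ℝ)) x) μ := fun i j =>
      (hInt _ ((hA i).inter (hTn (hB j)))).const_mul _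
    rw [integral_finsetSum _ fun i _ => integrable_finsetSum _ fun j _ => hI i j]
    refine Finset.sum_congr rfl fun i _ => ?_
    rw [integral_finsetSum _ fun j _ => hI i j]
    refine Finset.sum_congr rfl fun j _ => ?_
    rw [integral_const_mul, hint _ ((hA i).inter (hTn (hB j)))]
  rw [e1, e2, e3, Finset.sum_mul_sum, ← Finset.sum_sub_distrib]
  refine Finset.sum_congr rfl fun i _ => ?_
  rw [← Finset.sum_sub_distrib]
  refine Finset.sum_congr rfl fun j _ => ?_
  ring

/-- weak mixing for bounded functions -/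
theorem WMix.fun (hT : MeasurePreserving T μ μ) (h : WMix μ T) {f g : X → ℝ} (hf : BM f)
    (hg : BM g) :
    Tendsto (fun N : ℕ => (∑ n ∈ Finset.Icc 1 N,
      |cc μ T f g 0 n - (∫ x, f x ∂μ) * ∫ x, g x ∂μ|) / N) atTop (𝓝 0) := by
  obtain ⟨C1, hC1⟩ := hf.2
  obtain ⟨C2, hC2⟩ := hg.2
  set C := max (max C1 C2) 1 with hCdef
  have hfC : ∀ x, |f x| ≤ C := fun x => (hC1 x).trans ((le_max_left _ _).trans (le_max_left _ _))
  have hgC : ∀ x, |g x| ≤ C := fun x => (hC2 x).trans ((le_max_right _ _).trans (le_max_left _ _))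
  have hC : 1 ≤ C := le_max_right _ _
  rw [Metric.tendsto_atTop]
  intro d hd
  obtain ⟨e, he, he1, hed⟩ : ∃ e : ℝ, 0 < e ∧ e ≤ 1 ∧ e * (6 * C) < d := by
    refine ⟨min 1 (d / (12 * C)), lt_min one_pos (by positivity), min_le_left _ _, ?_⟩
    calc min 1 (d / (12 * C)) * (6 * C) ≤ d / (12 * C) * (6 * C) :=
          mul_le_mul_of_nonneg_right (min_le_right _ _) (by positivity)
      _ = d / 2 := by field_simp; ring
      _ < d := by linarith
  obtain ⟨s, a, A, hA, hfa⟩ := e3_approx hf he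
  obtain ⟨t, b, B, hB, hgb⟩ := e3_approx hg he
  set f' : X → ℝ := fun x => ∑ k ∈ s, a k * (A k).indicator (fun _ => (1 : ℝ)) x with hf'
  set g' : X → ℝ := fun x => ∑ k ∈ t, b k * (B k).indicator (fun _ => (1 : ℝ)) x with hg'
  have bf' : BM f' := e3_bm s a A hA
  have bg' : BM g' := e3_bm t b B hB
  have hf'C : ∀ x, |f' x| ≤ 2 * C := by
    intro x
    have h1 := hfa x
    have h2 := hfC x
    rw [abs_le] at *
    constructor <;> linarith
  have hlim : Tendsto (fun N : ℕ => (∑ n ∈ Finset.Icc 1 N,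
      |cc μ T f' g' 0 n - (∫ x, f' x ∂μ) * ∫ x, g' x ∂μ|) / N) atTop (𝓝 0) := by
    have h1 : Tendsto (fun N : ℕ => ∑ i ∈ s, ∑ j ∈ t, |a i * b j| *
        ((∑ n ∈ Finset.Icc 1 N,
          |μ.real (A i ∩ T^[n] ⁻¹' B j) - μ.real (A i) * μ.real (B j)|) / N)) atTop (𝓝 0) := by
      have : (0 : ℝ) = ∑ i ∈ s, ∑ j ∈ t, |a i * b j| * 0 := by simp
      rw [this]
      exact tendsto_finsetSum _ fun i _ => tendsto_finsetSum _ fun j _ =>
        (h (A i) (B j) (hA i) (hB j)).const_mul _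
    refine squeeze_zero (fun N => by positivity) (fun N => ?_) h1
    have h2 : ∑ n ∈ Finset.Icc 1 N, |cc μ T f' g' 0 n - (∫ x, f' x ∂μ) * ∫ x, g' x ∂μ| ≤
        ∑ n ∈ Finset.Icc 1 N, ∑ i ∈ s, ∑ j ∈ t, |a i * b j| *
          |μ.real (A i ∩ T^[n] ⁻¹' B j) - μ.real (A i) * μ.real (B j)| := by
      refine Finset.sum_le_sum fun n _ => ?_
      rw [hf', hg', e3_step hT s t a b A B hA hB n]
      refine (Finset.abs_sum_le_sum_abs _ _).trans (Finset.sum_le_sum fun i _ => ?_)
      refine (Finset.abs_sum_le_sum_abs _ _).trans (Finset.sum_le_sum fun j _ => ?_)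
      rw [abs_mul]
    calc (∑ n ∈ Finset.Icc 1 N, |cc μ T f' g' 0 n - (∫ x, f' x ∂μ) * ∫ x, g' x ∂μ|) / (N : ℝ)
        ≤ (∑ n ∈ Finset.Icc 1 N, ∑ i ∈ s, ∑ j ∈ t, |a i * b j| *
          |μ.real (A i ∩ T^[n] ⁻¹' B j) - μ.real (A i) * μ.real (B j)|) / (N : ℝ) :=
          div_le_div_of_nonneg_right h2 (Nat.cast_nonneg N)
      _ = ∑ i ∈ s, ∑ j ∈ t, |a i * b j| * ((∑ n ∈ Finset.Icc 1 N,
          |μ.real (A i ∩ T^[n] ⁻¹' B j) - μ.real (A i) * μ.real (B j)|) / N) := by
          rw [Finset.sum_comm, Finset.sum_div]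
          refine Finset.sum_congr rfl fun i _ => ?_
          rw [Finset.sum_comm, Finset.sum_div]
          refine Finset.sum_congr rfl fun j _ => ?_
          rw [← Finset.mul_sum, mul_div_assoc]
  have hdiff : ∀ n : ℕ, |cc μ T f g 0 n - (∫ x, f x ∂μ) * ∫ x, g x ∂μ| ≤
      |cc μ T f' g' 0 n - (∫ x, f' x ∂μ) * ∫ x, g' x ∂μ| + e * (6 * C) := by
    intro n
    have hTn : Measurable (T^[n]) := hT.measurable.iterate n
    have hgn : BM fun x => g (T^[n] x) := hg.comp hTn
    have hgn' : BM fun x => g' (T^[n] x) := bg'.comp hTn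
    have k1 : |cc μ T f g 0 n - cc μ T f' g' 0 n| ≤ e * (3 * C) := by
      unfold cc
      simp only [Function.iterate_zero, id_eq]
      rw [← integral_sub ((hf.mul hgn).integrable) ((bf'.mul hgn').integrable)]
      refine (abs_integral_le_integral_abs).trans ?_
      have : ∫ x, |f x * g (T^[n] x) - f' x * g' (T^[n] x)| ∂μ ≤
          ∫ _x : X, e * (3 * C) ∂μ := by
        refine integral_mono (((hf.mul hgn).sub (bf'.mul hgn')).integrable.abs)
          (integrable_const _) fun x => ?_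
        have q1 := hfa x
        have q2 := hgb (T^[n] x)
        have q3 := hgC (T^[n] x)
        have q4 := hf'C x
        have q5 : f x * g (T^[n] x) - f' x * g' (T^[n] x) =
            (f x - f' x) * g (T^[n] x) + f' x * (g (T^[n] x) - g' (T^[n] x)) := by ring
        rw [q5]
        refine (abs_add_le _ _).trans ?_
        rw [abs_mul, abs_mul]
        have r1 : |f x - f' x| * |g (T^[n] x)| ≤ e * C :=
          mul_le_mul q1 q3 (abs_nonneg _) he.le
        have r2 : |f' x| * |g (T^[n] x) - g' (T^[n] x)| ≤ 2 * C * e :=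
          mul_le_mul q4 q2 (abs_nonneg _) (by linarith)
        linarith
      simpa using this
    have k2 : |(∫ x, f x ∂μ) - ∫ x, f' x ∂μ| ≤ e := by
      rw [← integral_sub hf.integrable bf'.integrable]
      refine (abs_integral_le_integral_abs).trans ?_
      have : ∫ x, |f x - f' x| ∂μ ≤ ∫ _x : X, e ∂μ :=
        integral_mono ((hf.sub bf').integrable.abs) (integrable_const _) fun x => hfa x
      simpa using this
    have k3 : |(∫ x, g x ∂μ) - ∫ x, g' x ∂μ| ≤ e := by
      rw [← integral_sub hg.integrable bg'.integrable]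
      refine (abs_integral_le_integral_abs).trans ?_
      have : ∫ x, |g x - g' x| ∂μ ≤ ∫ _x : X, e ∂μ :=
        integral_mono ((hg.sub bg').integrable.abs) (integrable_const _) fun x => hgb x
      simpa using this
    have k4 : |∫ x, g x ∂μ| ≤ C := by
      refine (abs_integral_le_integral_abs).trans ?_
      have : ∫ x, |g x| ∂μ ≤ ∫ _x : X, C ∂μ :=
        integral_mono (hg.integrable.abs) (integrable_const _) fun x => hgC x
      simpa using this
    have k5 : |∫ x, f' x ∂μ| ≤ 2 * C := by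
      refine (abs_integral_le_integral_abs).trans ?_
      have : ∫ x, |f' x| ∂μ ≤ ∫ _x : X, 2 * C ∂μ :=
        integral_mono (bf'.integrable.abs) (integrable_const _) fun x => hf'C x
      simpa using this
    have k6 : |(∫ x, f x ∂μ) * (∫ x, g x ∂μ) - (∫ x, f' x ∂μ) * ∫ x, g' x ∂μ| ≤ e * (3 * C) := by
      have q5 : (∫ x, f x ∂μ) * (∫ x, g x ∂μ) - (∫ x, f' x ∂μ) * ∫ x, g' x ∂μ =
          ((∫ x, f x ∂μ) - ∫ x, f' x ∂μ) * (∫ x, g x ∂μ) +
            (∫ x, f' x ∂μ) * ((∫ x, g x ∂μ) - ∫ x, g' x ∂μ) := by ring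
      rw [q5]
      refine (abs_add_le _ _).trans ?_
      rw [abs_mul, abs_mul]
      have r1 := mul_le_mul k2 k4 (abs_nonneg _) he.le
      have r2 := mul_le_mul k5 k3 (abs_nonneg _) (by linarith : (0 : ℝ) ≤ 2 * C)
      linarith
    rw [abs_le] at k1 k6
    have z1 := neg_abs_le (cc μ T f' g' 0 n - (∫ x, f' x ∂μ) * ∫ x, g' x ∂μ)
    have z2 := le_abs_self (cc μ T f' g' 0 n - (∫ x, f' x ∂μ) * ∫ x, g' x ∂μ)
    rw [abs_le]
    constructor <;> linarith [k1.1, k1.2, k6.1, k6.2]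
  have hgap : 0 < d - e * (6 * C) := by linarith
  obtain ⟨N0, hN0⟩ := (Metric.tendsto_atTop.1 hlim) (d - e * (6 * C)) hgap
  refine ⟨max N0 1, fun N hN => ?_⟩
  have hN1 : 1 ≤ N := (le_max_right _ _).trans hN
  have hNpos : (0 : ℝ) < N := by exact_mod_cast hN1
  have h1 := hN0 N ((le_max_left _ _).trans hN)
  rw [Real.dist_eq, sub_zero, abs_of_nonneg (by positivity)] at h1 ⊢
  have h2 : ∑ n ∈ Finset.Icc 1 N, |cc μ T f g 0 n - (∫ x, f x ∂μ) * ∫ x, g x ∂μ| ≤
      ∑ n ∈ Finset.Icc 1 N, |cc μ T f' g' 0 n - (∫ x, f' x ∂μ) * ∫ x, g' x ∂μ| +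
        N * (e * (6 * C)) := by
    refine (Finset.sum_le_sum fun n _ => hdiff n).trans ?_
    rw [Finset.sum_add_distrib, Finset.sum_const, Nat.card_Icc, nsmul_eq_mul]
    simp
  have h3 : (∑ n ∈ Finset.Icc 1 N, |cc μ T f g 0 n - (∫ x, f x ∂μ) * ∫ x, g x ∂μ|) / (N : ℝ) ≤
      (∑ n ∈ Finset.Icc 1 N, |cc μ T f' g' 0 n - (∫ x, f' x ∂μ) * ∫ x, g' x ∂μ|) / N +
        e * (6 * C) := by
    rw [div_le_iff₀ hNpos, add_mul, div_mul_cancel₀ _ hNpos.ne']
    linarith
  linarith
-- END e3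

/-- the ergodic averages -/
noncomputable def Av (T : X → X) (L : ℕ) (f : X → ℝ) (x : X) : ℝ :=
  (∑ i ∈ Finset.range L, f (T^[i] x)) / L

-- BEGIN e4
/-- the rows of the double sum -/
private theorem e4_row (hT : MeasurePreserving T μ μ) {f : X → ℝ} (hf : BM f) {L i : ℕ}
    (hi : i < L) : ∑ j ∈ Finset.range L, |cc μ T f f i j| ≤
      |cc μ T f f 0 0| + 2 * ∑ n ∈ Finset.Icc 1 L, |cc μ T f f 0 n| := by
  have hsym : ∀ m n : ℕ, cc μ T f f m n = cc μ T f f n m := by
    intro m n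
    unfold cc
    exact integral_congr_ae (Eventually.of_forall fun x => mul_comm _ _)
  have h1 : ∀ j : ℕ, i ≤ j → cc μ T f f i j = cc μ T f f 0 (j - i) := by
    intro j hj
    have h := cc_shift (μ := μ) hT hf hf 0 (j - i) i
    rwa [zero_add, Nat.sub_add_cancel hj] at h
  have h2 : ∀ j : ℕ, j ≤ i → cc μ T f f i j = cc μ T f f 0 (i - j) := by
    intro j hj
    have h := cc_shift (μ := μ) hT hf hf 0 (i - j) j
    rw [zero_add, Nat.sub_add_cancel hj] at h
    rw [hsym i j, h]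
  rw [← Finset.sum_filter_add_sum_filter_not (Finset.range L) (fun j => j ≤ i)]
  have hA : ∑ j ∈ (Finset.range L).filter (fun j => j ≤ i), |cc μ T f f i j| ≤
      |cc μ T f f 0 0| + ∑ n ∈ Finset.Icc 1 L, |cc μ T f f 0 n| := by
    have e1 : ∑ j ∈ (Finset.range L).filter (fun j => j ≤ i), |cc μ T f f i j| =
        ∑ j ∈ (Finset.range L).filter (fun j => j ≤ i), |cc μ T f f 0 (i - j)| :=
      Finset.sum_congr rfl fun j hj => by rw [h2 j (Finset.mem_filter.1 hj).2]
    have e2 : ∑ n ∈ ((Finset.range L).filter (fun j => j ≤ i)).image (fun j => i - j),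
        |cc μ T f f 0 n| = ∑ j ∈ (Finset.range L).filter (fun j => j ≤ i),
          |cc μ T f f 0 (i - j)| := by
      refine Finset.sum_image ?_
      intro a ha b hb hab
      have ha' := (Finset.mem_filter.1 (Finset.mem_coe.1 ha)).2
      have hb' := (Finset.mem_filter.1 (Finset.mem_coe.1 hb)).2
      simp only at hab
      omega
    rw [e1, ← e2]
    have hsub : ((Finset.range L).filter (fun j => j ≤ i)).image (fun j => i - j) ⊆
        insert 0 (Finset.Icc 1 L) := by
      intro n hn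
      obtain ⟨j, hj, rfl⟩ := Finset.mem_image.1 hn
      have hj' := (Finset.mem_filter.1 hj).2
      rw [Finset.mem_insert, Finset.mem_Icc]
      omega
    refine (Finset.sum_le_sum_of_subset_of_nonneg hsub fun n _ _ => abs_nonneg _).trans ?_
    rw [Finset.sum_insert (by simp)]
  have hB : ∑ j ∈ (Finset.range L).filter (fun j => ¬ j ≤ i), |cc μ T f f i j| ≤
      ∑ n ∈ Finset.Icc 1 L, |cc μ T f f 0 n| := by
    have e1 : ∑ j ∈ (Finset.range L).filter (fun j => ¬ j ≤ i), |cc μ T f f i j| =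
        ∑ j ∈ (Finset.range L).filter (fun j => ¬ j ≤ i), |cc μ T f f 0 (j - i)| :=
      Finset.sum_congr rfl fun j hj => by
        rw [h1 j (le_of_lt (not_le.1 (Finset.mem_filter.1 hj).2))]
    have e2 : ∑ n ∈ ((Finset.range L).filter (fun j => ¬ j ≤ i)).image (fun j => j - i),
        |cc μ T f f 0 n| = ∑ j ∈ (Finset.range L).filter (fun j => ¬ j ≤ i),
          |cc μ T f f 0 (j - i)| := by
      refine Finset.sum_image ?_
      intro a ha b hb hab
      have ha' := (Finset.mem_filter.1 (Finset.mem_coe.1 ha)).2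
      have hb' := (Finset.mem_filter.1 (Finset.mem_coe.1 hb)).2
      simp only at hab
      omega
    rw [e1, ← e2]
    refine Finset.sum_le_sum_of_subset_of_nonneg ?_ fun n _ _ => abs_nonneg _
    intro n hn
    obtain ⟨j, hj, rfl⟩ := Finset.mem_image.1 hn
    have hj' := Finset.mem_filter.1 hj
    have hj1 := Finset.mem_range.1 hj'.1
    rw [Finset.mem_Icc]
    have := hj'.2
    omega
  linarith

private theorem e4_bound (hT : MeasurePreserving T μ μ) {f : X → ℝ} (hf : BM f) (L : ℕ) :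
    ∫ x, Av T L f x ^ 2 ∂μ ≤
      (|cc μ T f f 0 0| + 2 * ∑ n ∈ Finset.Icc 1 L, |cc μ T f f 0 n|) / L := by
  rcases Nat.eq_zero_or_pos L with rfl | hL
  · simp [Av]
  have hL' : (0 : ℝ) < L := by exact_mod_cast hL
  have hb : ∀ i : ℕ, BM fun x => f (T^[i] x) := fun i => hf.comp (hT.iterate i).measurable
  have hint : ∀ i j : ℕ, Integrable (fun x => f (T^[i] x) * f (T^[j] x)) μ :=
    fun i j => ((hb i).mul (hb j)).integrable
  have e1 : ∀ x, Av T L f x ^ 2 = (∑ i ∈ Finset.range L, ∑ j ∈ Finset.range L,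
      f (T^[i] x) * f (T^[j] x)) * ((L : ℝ) ^ 2)⁻¹ := by
    intro x
    unfold Av
    rw [div_pow, sq (∑ i ∈ Finset.range L, f (T^[i] x)), Finset.sum_mul_sum, div_eq_mul_inv]
  have e2 : ∫ x, Av T L f x ^ 2 ∂μ = (∑ i ∈ Finset.range L, ∑ j ∈ Finset.range L,
      cc μ T f f i j) * ((L : ℝ) ^ 2)⁻¹ := by
    rw [integral_congr_ae (Eventually.of_forall e1), integral_mul_const,
      integral_finsetSum _ fun i _ => integrable_finsetSum _ fun j _ => hint i j]
    congr 1
    refine Finset.sum_congr rfl fun i _ => ?_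
    rw [integral_finsetSum _ fun j _ => hint i j]
    rfl
  rw [e2]
  have e3 : ∑ i ∈ Finset.range L, ∑ j ∈ Finset.range L, cc μ T f f i j ≤
      L * (|cc μ T f f 0 0| + 2 * ∑ n ∈ Finset.Icc 1 L, |cc μ T f f 0 n|) := by
    calc ∑ i ∈ Finset.range L, ∑ j ∈ Finset.range L, cc μ T f f i j
        ≤ ∑ i ∈ Finset.range L, (|cc μ T f f 0 0| + 2 * ∑ n ∈ Finset.Icc 1 L,
            |cc μ T f f 0 n|) := Finset.sum_le_sum fun i hi =>
          (Finset.sum_le_sum fun j _ => le_abs_self _).trans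
            (e4_row hT hf (Finset.mem_range.1 hi))
      _ = L * (|cc μ T f f 0 0| + 2 * ∑ n ∈ Finset.Icc 1 L, |cc μ T f f 0 n|) := by
          rw [Finset.sum_const, Finset.card_range, nsmul_eq_mul]
  calc (∑ i ∈ Finset.range L, ∑ j ∈ Finset.range L, cc μ T f f i j) * ((L : ℝ) ^ 2)⁻¹
      ≤ L * (|cc μ T f f 0 0| + 2 * ∑ n ∈ Finset.Icc 1 L, |cc μ T f f 0 n|) *
          ((L : ℝ) ^ 2)⁻¹ := mul_le_mul_of_nonneg_right e3 (by positivity)
    _ = (|cc μ T f f 0 0| + 2 * ∑ n ∈ Finset.Icc 1 L, |cc μ T f f 0 n|) / L := by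
        field_simp

/-- section 2 (b) -/
theorem av_tendsto (hT : MeasurePreserving T μ μ) (h : WMix μ T) {f : X → ℝ} (hf : BM f)
    (hf0 : ∫ x, f x ∂μ = 0) : Tendsto (fun L : ℕ => nm μ (Av T L f)) atTop (𝓝 0) := by
  have h1 := WMix.fun hT h hf hf
  simp only [hf0, mul_zero, sub_zero] at h1
  have h2 : Tendsto (fun L : ℕ => |cc μ T f f 0 0| / (L : ℝ)) atTop (𝓝 0) :=
    tendsto_const_div_atTop_nhds_zero_nat _
  have h3 : Tendsto (fun L : ℕ => (|cc μ T f f 0 0| + 2 * ∑ n ∈ Finset.Icc 1 L,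
      |cc μ T f f 0 n|) / L) atTop (𝓝 0) := by
    have h4 := h2.add (h1.const_mul 2)
    rw [mul_zero, add_zero] at h4
    refine h4.congr fun L => ?_
    rw [add_div, mul_div_assoc]
  have h5 : Tendsto (fun L : ℕ => ∫ x, Av T L f x ^ 2 ∂μ) atTop (𝓝 0) :=
    squeeze_zero (fun L => integral_nonneg fun x => sq_nonneg _) (fun L => e4_bound hT hf L) h3
  have h6 := (Real.continuous_sqrt.tendsto 0).comp h5
  rw [Real.sqrt_zero] at h6
  exact h6
-- END e4

-- BEGIN e5
/-- section 3 -/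
theorem exists_inv (hT : MeasurePreserving T μ μ) (h : WMix μ T)
    (hnt : ∃ A : Set X, MeasurableSet A ∧ 0 < μ A ∧ μ A < 1) {e : ℝ} (he : 0 < e) :
    ∃ g : X → ℝ, Measurable g ∧ (∀ x, g x ^ 2 = 1) ∧ |∫ x, g x ∂μ| ≤ e ∧ dT μ T g ≤ e := by
  classical
  obtain ⟨A, hA, hA0, hAe⟩ := exists_small hT h hnt (lt_min (half_pos he)
    (by positivity : 0 < e ^ 2 / 8))
  have ha1 : μ.real A ≤ e / 2 := hAe.trans (min_le_left _ _)
  have ha2 : μ.real A ≤ e ^ 2 / 8 := hAe.trans (min_le_right _ _)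
  have hm : ∀ i : ℕ, MeasurableSet (T^[i] ⁻¹' A) := fun i => (hT.iterate i).measurable hA
  have hreal : ∀ i : ℕ, μ.real (T^[i] ⁻¹' A) = μ.real A := fun i => by
    unfold Measure.real
    rw [(hT.iterate i).measure_preimage hA.nullMeasurableSet]
  set E : ℕ → Set X := fun L => ⋃ i ∈ Finset.range L, T^[i] ⁻¹' A with hE
  have hEm : ∀ L, MeasurableSet (E L) := fun L =>
    Finset.measurableSet_biUnion _ fun i _ => hm i
  have hex : ∃ L, 1 / 2 ≤ μ.real (E L) := by
    have h1 := (exhaust hT h hA hA0).eventually (lt_mem_nhds (by norm_num : (1 : ℝ) / 2 < 1))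
    obtain ⟨L, hL⟩ := h1.exists
    exact ⟨L, hL.le⟩
  obtain ⟨L, hL, hmin⟩ : ∃ L, 1 / 2 ≤ μ.real (E L) ∧ ∀ M < L, μ.real (E M) < 1 / 2 :=
    ⟨Nat.find hex, Nat.find_spec hex, fun M hM => not_le.1 (Nat.find_min hex hM)⟩
  have hL0 : L ≠ 0 := by
    rintro rfl
    have : E 0 = ∅ := by simp [hE]
    rw [this, measureReal_empty] at hL
    norm_num at hL
  obtain ⟨K, rfl⟩ := Nat.exists_eq_succ_of_ne_zero hL0
  have hup : μ.real (E (K + 1)) ≤ 1 / 2 + μ.real A := by
    have h1 : E (K + 1) = E K ∪ T^[K] ⁻¹' A := by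
      simp only [hE, Finset.range_add_one, Finset.set_biUnion_insert]
      rw [Set.union_comm]
    rw [h1]
    refine (measureReal_union_le _ _).trans ?_
    rw [hreal K]
    linarith [hmin K (Nat.lt_succ_self K)]
  set F : Set X := E (K + 1) with hF
  have hFm : MeasurableSet F := hEm (K + 1)
  refine ⟨fun x => 2 * F.indicator (fun _ => (1 : ℝ)) x - 1,
    ((measurable_const.indicator hFm).const_mul 2).sub_const 1, ?_, ?_, ?_⟩
  · intro x
    show (2 * F.indicator (fun _ => (1 : ℝ)) x - 1) ^ 2 = 1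
    by_cases hx : x ∈ F
    · rw [Set.indicator_of_mem hx]; norm_num
    · rw [Set.indicator_of_notMem hx]; norm_num
  · have h1 : ∫ x, (2 * F.indicator (fun _ => (1 : ℝ)) x - 1) ∂μ = 2 * μ.real F - 1 := by
      rw [integral_sub (((integrable_const (1 : ℝ)).indicator hFm).const_mul 2)
        (integrable_const _), integral_const_mul, integral_indicator_const _ hFm]
      simp
    rw [h1, abs_le]
    constructor <;> linarith
  · have hkey : ∀ x, ((2 * F.indicator (fun _ => (1 : ℝ)) (T x) - 1) -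
        (2 * F.indicator (fun _ => (1 : ℝ)) x - 1)) ^ 2 ≤
        4 * (A.indicator (fun _ => (1 : ℝ)) x +
          (T^[K + 1] ⁻¹' A).indicator (fun _ => (1 : ℝ)) x) := by
      intro x
      have hnn1 : 0 ≤ A.indicator (fun _ => (1 : ℝ)) x :=
        Set.indicator_nonneg (fun _ _ => zero_le_one) x
      have hnn2 : 0 ≤ (T^[K + 1] ⁻¹' A).indicator (fun _ => (1 : ℝ)) x :=
        Set.indicator_nonneg (fun _ _ => zero_le_one) x
      by_cases hx : x ∈ F <;> by_cases hTx : T x ∈ F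
      · rw [Set.indicator_of_mem hx, Set.indicator_of_mem hTx]
        nlinarith
      · -- x ∈ F, T x ∉ F : x ∈ A
        have hxA : x ∈ A := by
          simp only [hF, hE, Set.mem_iUnion, Finset.mem_range, Set.mem_preimage,
            exists_prop] at hx hTx
          obtain ⟨i, hi, hxi⟩ := hx
          rcases i with _ | i
          · simpa using hxi
          · exfalso
            apply hTx
            refine ⟨i, by omega, ?_⟩
            rwa [Function.iterate_succ_apply] at hxi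
        rw [Set.indicator_of_mem hx, Set.indicator_of_notMem hTx, Set.indicator_of_mem hxA]
        nlinarith
      · have hxA : x ∈ T^[K + 1] ⁻¹' A := by
          simp only [hF, hE, Set.mem_iUnion, Finset.mem_range, Set.mem_preimage,
            exists_prop] at hx hTx
          obtain ⟨i, hi, hxi⟩ := hTx
          by_cases hiK : i = K
          · subst hiK
            rw [Set.mem_preimage, Function.iterate_succ_apply]
            exact hxi
          · exfalso
            apply hx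
            refine ⟨i + 1, by omega, ?_⟩
            rwa [Function.iterate_succ_apply]
        rw [Set.indicator_of_notMem hx, Set.indicator_of_mem hTx, Set.indicator_of_mem hxA]
        nlinarith
      · rw [Set.indicator_of_notMem hx, Set.indicator_of_notMem hTx]
        nlinarith
    have hbF : BM fun x => 2 * F.indicator (fun _ => (1 : ℝ)) x - 1 := by
      refine ⟨((measurable_const.indicator hFm).const_mul 2).sub_const 1, 3, fun x => ?_⟩
      show |2 * F.indicator (fun _ => (1 : ℝ)) x - 1| ≤ 3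
      by_cases hx : x ∈ F
      · rw [Set.indicator_of_mem hx]; norm_num
      · rw [Set.indicator_of_notMem hx]; norm_num
    have hbd : BM fun x => (2 * F.indicator (fun _ => (1 : ℝ)) (T x) - 1) -
        (2 * F.indicator (fun _ => (1 : ℝ)) x - 1) := (hbF.comp hT.measurable).sub hbF
    have hInt : ∀ (S : Set X), MeasurableSet S →
        Integrable (fun x => S.indicator (fun _ => (1 : ℝ)) x) μ := fun S hS =>
      (integrable_const (1 : ℝ)).indicator hS
    have hle : ∫ x, ((2 * F.indicator (fun _ => (1 : ℝ)) (T x) - 1) -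
        (2 * F.indicator (fun _ => (1 : ℝ)) x - 1)) ^ 2 ∂μ ≤ 8 * μ.real A := by
      have h1 : ∫ x, ((2 * F.indicator (fun _ => (1 : ℝ)) (T x) - 1) -
          (2 * F.indicator (fun _ => (1 : ℝ)) x - 1)) ^ 2 ∂μ ≤
          ∫ x, 4 * (A.indicator (fun _ => (1 : ℝ)) x +
            (T^[K + 1] ⁻¹' A).indicator (fun _ => (1 : ℝ)) x) ∂μ := by
        refine integral_mono ?_ (((hInt _ hA).add (hInt _ (hm (K + 1)))).const_mul 4) hkey
        have := (hbd.mul hbd).integrable (μ := μ)
        refine this.congr (Eventually.of_forall fun x => ?_)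
        simp only [sq]
      have h2 : ∫ x, 4 * (A.indicator (fun _ => (1 : ℝ)) x +
            (T^[K + 1] ⁻¹' A).indicator (fun _ => (1 : ℝ)) x) ∂μ = 8 * μ.real A := by
        rw [integral_const_mul, integral_add (hInt _ hA) (hInt _ (hm (K + 1))),
          integral_indicator_const _ hA, integral_indicator_const _ (hm (K + 1)), hreal]
        simp only [smul_eq_mul, mul_one]
        ring
      linarith
    unfold dT nm
    rw [Real.sqrt_le_left he.le]
    linarith
-- END e5

end Pool.Agent.Orj
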