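import Mathlib
import Pool.Agent.Orj.Erg

/-!
# Cross terms and the sequence of nearly invariant functions (page, sections 4, 5)
-/

set_option autoImplicit false

open MeasureTheory Filter Topology

namespace Pool.Agent.Orj

variable {X : Type} [MeasurableSpace X] {μ : Measure X} [IsProbabilityMeasure μ] {T : X → X}

-- BEGIN q1
/-- (CR) -/
theorem cross_le (hT : MeasurePreserving T μ μ) {f h : X → ℝ} (hf : BM f) (hh : BM h) (m n : ℕ)
    {L : ℕ} (hL : 1 ≤ L) :
    |cc μ T f h m n| ≤ nm μ (Av T L f) * nm μ h + L * dT μ T h * nm μ f := by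
  have hTm : ∀ i : ℕ, Measurable (T^[i]) := fun i => hT.measurable.iterate i
  have hfi : ∀ i : ℕ, BM fun x => f (T^[i] x) := fun i => hf.comp (hTm i)
  have hhi : ∀ i : ℕ, BM fun x => h (T^[i] x) := fun i => hh.comp (hTm i)
  have hL0 : (0 : ℝ) < L := by
    have : 0 < L := by omega
    exact_mod_cast this
  have hAv : BM (Av T L f) := by
    have h1 : BM fun x => ∑ i ∈ Finset.range L, f (T^[i] x) :=
      BM.sum (f := fun i x => f (T^[i] x)) (Finset.range L) fun i _ => hfi i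
    have h2 := h1.cmul ((L : ℝ)⁻¹)
    have h3 : (fun x => (L : ℝ)⁻¹ * ∑ i ∈ Finset.range L, f (T^[i] x)) = Av T L f := by
      funext x
      unfold Av
      rw [div_eq_inv_mul]
    rwa [h3] at h2
  -- the two parts
  have hk : ∀ i : ℕ, BM fun x => h (T^[n + i] x) - h (T^[n] x) := fun i =>
    (hhi (n + i)).sub (hhi n)
  have e1 : ∀ i : ℕ, cc μ T f h m n = (∫ x, f (T^[m + i] x) * h (T^[n] x) ∂μ) +
      ∫ x, f (T^[m + i] x) * (h (T^[n + i] x) - h (T^[n] x)) ∂μ := by
    intro i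
    rw [← cc_shift hT hf hh m n i]
    unfold cc
    rw [← integral_add ((hfi (m + i)).mul (hhi n)).integrable
      ((hfi (m + i)).mul (hk i)).integrable]
    refine integral_congr_ae (Filter.Eventually.of_forall fun x => ?_)
    simp only
    ring
  have e2 : ∑ i ∈ Finset.range L, ∫ x, f (T^[m + i] x) * h (T^[n] x) ∂μ =
      L * cc μ T (Av T L f) h m n := by
    rw [← integral_finsetSum (Finset.range L) fun i _ => ((hfi (m + i)).mul (hhi n)).integrable]
    unfold cc
    rw [← integral_const_mul]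
    refine integral_congr_ae (Filter.Eventually.of_forall fun x => ?_)
    simp only
    unfold Av
    have h1 : ∀ i ∈ Finset.range L, f (T^[m + i] x) * h (T^[n] x) =
        f (T^[i] (T^[m] x)) * h (T^[n] x) := by
      intro i _
      rw [← Function.iterate_add_apply, Nat.add_comm i m]
    rw [Finset.sum_congr rfl h1, ← Finset.sum_mul]
    field_simp
  have e3 : (L : ℝ) * cc μ T f h m n = L * cc μ T (Av T L f) h m n +
      ∑ i ∈ Finset.range L, ∫ x, f (T^[m + i] x) * (h (T^[n + i] x) - h (T^[n] x)) ∂μ := by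
    rw [← e2, ← Finset.sum_add_distrib, ← Finset.sum_congr rfl fun i _ => e1 i]
    rw [Finset.sum_const, Finset.card_range, nsmul_eq_mul]
  have h1 : |cc μ T (Av T L f) h m n| ≤ nm μ (Av T L f) * nm μ h := abs_cc_le hT hAv hh m n
  have h2 : ∀ i ∈ Finset.range L,
      |∫ x, f (T^[m + i] x) * (h (T^[n + i] x) - h (T^[n] x)) ∂μ| ≤ L * dT μ T h * nm μ f := by
    intro i hi
    have hi' : (i : ℝ) ≤ L := by
      have := Finset.mem_range.1 hi
      exact_mod_cast this.le
    have a1 := abs_int_mul_le (μ := μ) (hfi (m + i)) (hk i)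
    have a2 : nm μ (fun x => f (T^[m + i] x)) = nm μ f := nm_iter hT hf (m + i)
    have a3 : nm μ (fun x => h (T^[n + i] x) - h (T^[n] x)) =
        nm μ (fun x => h (T^[i] x) - h x) := by
      have b1 := nm_iter hT ((hhi i).sub hh) n
      have b2 : (fun x => h (T^[i] (T^[n] x)) - h (T^[n] x)) =
          fun x => h (T^[n + i] x) - h (T^[n] x) := by
        funext x
        rw [← Function.iterate_add_apply, Nat.add_comm i n]
      rw [← b1, ← b2]
    have a4 := nm_iter_sub_le hT hh i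
    have a5 : 0 ≤ dT μ T h := nm_nonneg _
    have a6 : (i : ℝ) * dT μ T h ≤ L * dT μ T h := mul_le_mul_of_nonneg_right hi' a5
    rw [a2, a3] at a1
    refine a1.trans ?_
    rw [mul_comm (L * dT μ T h)]
    exact mul_le_mul_of_nonneg_left (a4.trans a6) (nm_nonneg _)
  have h3 : |∑ i ∈ Finset.range L,
      ∫ x, f (T^[m + i] x) * (h (T^[n + i] x) - h (T^[n] x)) ∂μ| ≤
      L * (L * dT μ T h * nm μ f) := by
    refine (Finset.abs_sum_le_sum_abs _ _).trans ((Finset.sum_le_sum h2).trans ?_)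
    rw [Finset.sum_const, Finset.card_range, nsmul_eq_mul]
  have h4 : (L : ℝ) * |cc μ T f h m n| ≤
      L * (nm μ (Av T L f) * nm μ h + L * dT μ T h * nm μ f) := by
    have h5 : (L : ℝ) * |cc μ T f h m n| = |(L : ℝ) * cc μ T f h m n| := by
      rw [abs_mul, abs_of_pos hL0]
    rw [h5, e3]
    refine (abs_add_le _ _).trans ?_
    rw [abs_mul, abs_of_pos hL0, mul_add]
    exact add_le_add (mul_le_mul_of_nonneg_left h1 hL0.le) h3
  exact le_of_mul_le_mul_left h4 hL0
-- END q1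

-- BEGIN q2
/-- (CR') -/
theorem cross_small (hT : MeasurePreserving T μ μ) (hw : WMix μ T) {f : X → ℝ} (hf : BM f)
    (hf0 : ∫ x, f x ∂μ = 0) {e : ℝ} (he : 0 < e) :
    ∃ δ > (0 : ℝ), ∀ h : X → ℝ, BM h → nm μ h ≤ 2 → dT μ T h ≤ δ → ∀ m n,
      |cc μ T f h m n| ≤ e ∧ |cc μ T h f m n| ≤ e := by
  have h1 := (av_tendsto hT hw hf hf0).eventually (gt_mem_nhds (show (0 : ℝ) < e / 4 by linarith))
  obtain ⟨L, hL1, hL⟩ := ((eventually_ge_atTop 1).and h1).exists
  have hf1 := nm_nonneg (μ := μ) f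
  have hLp : (0 : ℝ) < L := by exact_mod_cast hL1
  have hden : 0 < 2 * L * (nm μ f + 1) := by positivity
  refine ⟨e / (2 * L * (nm μ f + 1)), by positivity, fun h hh hn hd => ?_⟩
  have key : ∀ m n, |cc μ T f h m n| ≤ e := by
    intro m n
    have h2 := cross_le hT hf hh m n hL1
    have h3 : nm μ (Av T L f) * nm μ h ≤ e / 4 * 2 :=
      mul_le_mul hL.le hn (nm_nonneg _) (by linarith)
    have h4 : (L : ℝ) * dT μ T h * nm μ f ≤ e / 2 := by
      have h5 : (L : ℝ) * dT μ T h * nm μ f ≤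
          L * (e / (2 * L * (nm μ f + 1))) * (nm μ f + 1) := by
        refine mul_le_mul (mul_le_mul_of_nonneg_left hd hLp.le) (by linarith) hf1 ?_
        positivity
      have h6 : (L : ℝ) * (e / (2 * L * (nm μ f + 1))) * (nm μ f + 1) = e / 2 := by
        have : nm μ f + 1 ≠ 0 := by positivity
        field_simp
      linarith
    linarith
  intro m n
  refine ⟨key m n, ?_⟩
  have h7 : cc μ T h f m n = cc μ T f h n m := by
    unfold cc
    exact integral_congr_ae (Eventually.of_forall fun x => mul_comm _ _)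
  rw [h7]
  exact key n m
-- END q2

-- BEGIN q3
theorem q3_min {ι : Type} (s : Finset ι) (δ : ι → ℝ) (h : ∀ i ∈ s, 0 < δ i) {e : ℝ}
    (he : 0 < e) : ∃ e' > (0 : ℝ), e' ≤ e ∧ ∀ i ∈ s, e' ≤ δ i := by
  classical
  induction s using Finset.induction_on with
  | empty => exact ⟨e, he, le_rfl, fun i hi => absurd hi (Finset.notMem_empty i)⟩
  | insert a s _ ih =>
    obtain ⟨e', h1, h2, h3⟩ := ih fun i hi => h i (Finset.mem_insert_of_mem hi)
    refine ⟨min e' (δ a), lt_min h1 (h a (Finset.mem_insert_self a s)),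
      (min_le_left _ _).trans h2, fun i hi => ?_⟩
    rcases Finset.mem_insert.1 hi with rfl | hi
    · exact min_le_right _ _
    · exact (min_le_left _ _).trans (h3 i hi)

/-- one step of the recursion: a nearly invariant function nearly orthogonal to finitely many functions -/
theorem exists_next (hT : MeasurePreserving T μ μ) (hw : WMix μ T)
    (hnt : ∃ A : Set X, MeasurableSet A ∧ 0 < μ A ∧ μ A < 1) {ι : Type} (s : Finset ι)
    (u : ι → X → ℝ) (hu : ∀ i ∈ s, BM (u i)) {e : ℝ} (he : 0 < e) :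
    ∃ g : X → ℝ, Measurable g ∧ (∀ x, g x ^ 2 = 1) ∧ |∫ x, g x ∂μ| ≤ e ∧ dT μ T g ≤ e ∧
      ∀ i ∈ s, ∀ m n, |cc μ T (u i) g m n| ≤ e := by
  classical
  have hex : ∀ i ∈ s, ∃ δ > (0 : ℝ), ∀ h : X → ℝ, BM h → nm μ h ≤ 2 → dT μ T h ≤ δ →
      ∀ m n, |cc μ T (fun x => u i x - ∫ y, u i y ∂μ) h m n| ≤ e / 2 := by
    intro i hi
    have hbm : BM (fun x => u i x - ∫ y, u i y ∂μ) := (hu i hi).sub (BM.const _)
    have h0 : ∫ x, (fun x => u i x - ∫ y, u i y ∂μ) x ∂μ = 0 := by
      have e1 : ∫ x, (u i x - ∫ y, u i y ∂μ) ∂μ = 0 := by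
        rw [integral_sub (hu i hi).integrable (integrable_const _), integral_const]
        simp
      exact e1
    obtain ⟨δ, hδ, hd⟩ := cross_small hT hw hbm h0 (half_pos he)
    exact ⟨δ, hδ, fun h h1 h2 h3 m n => (hd h h1 h2 h3 m n).1⟩
  choose! δ hδ hd using hex
  obtain ⟨e', he', hle, hmin⟩ := q3_min s (fun i => min (δ i)
    (e / (2 * (1 + |∫ y, u i y ∂μ|)))) (fun i hi => lt_min (hδ i hi) (by positivity)) he
  obtain ⟨g, g1, g2, g3, g4⟩ := exists_inv hT hw hnt he'
  have gbm : BM g := ⟨g1, 1, fun x => (sq_le_one_iff_abs_le_one _).1 (g2 x).le⟩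
  have gnm : nm μ g ≤ 2 := by
    unfold nm
    rw [integral_congr_ae (Filter.Eventually.of_forall g2), integral_const]
    simp
  refine ⟨g, g1, g2, g3.trans hle, g4.trans hle, fun i hi m n => ?_⟩
  have a1 : e' ≤ δ i := (hmin i hi).trans (min_le_left _ _)
  have a2 : e' ≤ e / (2 * (1 + |∫ y, u i y ∂μ|)) := (hmin i hi).trans (min_le_right _ _)
  have a3 := hd i hi g gbm gnm (g4.trans a1) m n
  set c : ℝ := ∫ y, u i y ∂μ with hc
  have hbm : BM (fun x => u i x - c) := (hu i hi).sub (BM.const _)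
  have a4 : cc μ T (u i) g m n = cc μ T (fun x => u i x - c) g m n + c * ∫ x, g x ∂μ := by
    unfold cc
    have hTm : ∀ k : ℕ, Measurable (T^[k]) := fun k => hT.measurable.iterate k
    have b1 : BM (fun x => (u i (T^[m] x) - c) * g (T^[n] x)) :=
      (hbm.comp (hTm m)).mul (gbm.comp (hTm n))
    have b2 : BM (fun x => c * g (T^[n] x)) := (gbm.comp (hTm n)).cmul c
    rw [← int_iter hT g1 n, ← integral_const_mul, ← integral_add b1.integrable b2.integrable]
    refine integral_congr_ae (Filter.Eventually.of_forall fun x => ?_)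
    show u i (T^[m] x) * g (T^[n] x) = (u i (T^[m] x) - c) * g (T^[n] x) + c * g (T^[n] x)
    ring
  rw [a4]
  have a5 : |c * ∫ x, g x ∂μ| ≤ e / 2 := by
    rw [abs_mul]
    have b0 : 0 < 1 + |c| := by positivity
    have b1 : |∫ x, g x ∂μ| ≤ e / (2 * (1 + |c|)) := g3.trans a2
    calc |c| * |∫ x, g x ∂μ| ≤ (1 + |c|) * (e / (2 * (1 + |c|))) := by
          refine mul_le_mul (by linarith [abs_nonneg c]) b1 (abs_nonneg _) b0.le
      _ = e / 2 := by field_simp
  refine (abs_add_le _ _).trans ?_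
  linarith
-- END q3

/-- the sequence of section 5 -/
structure SQ (μ : Measure X) (T : X → X) (s : ℝ) (g : ℕ → X → ℝ) : Prop where
  meas : ∀ j, Measurable (g j)
  sq : ∀ j x, g j x ^ 2 = 1
  mean : ∀ j, |∫ x, g j x ∂μ| ≤ s / 4 ^ j
  inv : ∀ j, dT μ T (g j) ≤ s / 4 ^ j
  cross : ∀ j a, a < j → ∀ m n, |cc μ T (g a) (g j) m n| ≤ s / 4 ^ j
  four : ∀ j a b c, a < j → b < j → c < j →
    |∫ x, g j x * (g a x * g b x * g c x) ∂μ| ≤ s / 4 ^ j

theorem SQ.bm {s : ℝ} {g : ℕ → X → ℝ} (hg : SQ μ T s g) (j : ℕ) : BM (g j) :=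
  ⟨hg.meas j, 1, fun x => (sq_le_one_iff_abs_le_one _).1 (hg.sq j x).le⟩

-- BEGIN q4
private theorem q4_next (hT : MeasurePreserving T μ μ) (hw : WMix μ T)
    (hnt : ∃ A : Set X, MeasurableSet A ∧ 0 < μ A ∧ μ A < 1) (A : Finset (X → ℝ))
    (hA : ∀ a ∈ A, BM a) {e : ℝ} (he : 0 < e) :
    ∃ g : X → ℝ, Measurable g ∧ (∀ x, g x ^ 2 = 1) ∧ |∫ x, g x ∂μ| ≤ e ∧ dT μ T g ≤ e ∧
      (∀ a ∈ A, ∀ m n, |cc μ T a g m n| ≤ e) ∧
      ∀ a ∈ A, ∀ b ∈ A, ∀ c ∈ A, |∫ x, g x * (a x * b x * c x) ∂μ| ≤ e := by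
  classical
  obtain ⟨g, h1, h2, h3, h4, h5⟩ := exists_next hT hw hnt
    (A ∪ (A ×ˢ (A ×ˢ A)).image (fun p => fun x => p.1 x * p.2.1 x * p.2.2 x))
    (fun i => i) (by
      intro i hi
      rcases Finset.mem_union.1 hi with hi | hi
      · exact hA i hi
      · obtain ⟨p, hp, rfl⟩ := Finset.mem_image.1 hi
        rw [Finset.mem_product, Finset.mem_product] at hp
        exact ((hA _ hp.1).mul (hA _ hp.2.1)).mul (hA _ hp.2.2)) he
  refine ⟨g, h1, h2, h3, h4, fun a ha => h5 a (Finset.mem_union_left _ ha), ?_⟩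
  intro a ha b hb c hc
  have h6 := h5 (fun x => a x * b x * c x) (Finset.mem_union_right _ (Finset.mem_image.2
    ⟨(a, (b, c)), Finset.mem_product.2 ⟨ha, Finset.mem_product.2 ⟨hb, hc⟩⟩, rfl⟩)) 0 0
  have h7 : cc μ T (fun x => a x * b x * c x) g 0 0 =
      ∫ x, g x * (a x * b x * c x) ∂μ := by
    unfold cc
    refine integral_congr_ae (ae_of_all _ fun x => ?_)
    simp only [Function.iterate_zero, id]
    ring
  rw [h7] at h6
  exact h6

/-- section 5. PROOF. Recursion (the sequence of the finite tuples, or `exists_seq_of_forall_finset_exists`-like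
lemmas, or: choose `F : List (X → ℝ) → (X → ℝ)` with the properties of `exists_next` for the functions `a` and
`a b c`, `a, b, c` in the list, and `e = s / 4 ^ length`). -/
theorem exists_SQ (hT : MeasurePreserving T μ μ) (hw : WMix μ T)
    (hnt : ∃ A : Set X, MeasurableSet A ∧ 0 < μ A ∧ μ A < 1) {s : ℝ} (hs : 0 < s) :
    ∃ g : ℕ → X → ℝ, SQ μ T s g := by
  classical
  have hpos : ∀ n : ℕ, 0 < s / 4 ^ n := fun n => by positivity
  have key : ∀ (A : {A : Finset (X → ℝ) // ∀ a ∈ A, BM a}) (n : ℕ),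
      ∃ g : X → ℝ, Measurable g ∧ (∀ x, g x ^ 2 = 1) ∧ |∫ x, g x ∂μ| ≤ s / 4 ^ n ∧
        dT μ T g ≤ s / 4 ^ n ∧
        (∀ a ∈ A.1, ∀ m k, |cc μ T a g m k| ≤ s / 4 ^ n) ∧
        ∀ a ∈ A.1, ∀ b ∈ A.1, ∀ c ∈ A.1, |∫ x, g x * (a x * b x * c x) ∂μ| ≤ s / 4 ^ n :=
    fun A n => q4_next hT hw hnt A.1 A.2 (hpos n)
  choose F h1 h2 h3 h4 h5 h6 using key
  have hbm : ∀ A n, BM (F A n) := fun A n =>
    ⟨h1 A n, 1, fun x => (sq_le_one_iff_abs_le_one _).1 (h2 A n x).le⟩
  let st : ℕ → {A : Finset (X → ℝ) // ∀ a ∈ A, BM a} := fun n =>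
    Nat.rec (⟨∅, fun a ha => absurd ha (Finset.notMem_empty a)⟩ :
      {A : Finset (X → ℝ) // ∀ a ∈ A, BM a})
      (fun n A => ⟨insert (F A n) A.1, fun a ha => by
        rcases Finset.mem_insert.1 ha with rfl | ha
        · exact hbm A n
        · exact A.2 a ha⟩) n
  have hmem : ∀ j a, a < j → F (st a) a ∈ (st j).1 := by
    intro j
    induction j with
    | zero => intro a ha; exact absurd ha (Nat.not_lt_zero a)
    | succ j ih =>
      intro a ha
      change F (st a) a ∈ insert (F (st j) j) (st j).1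
      rcases Nat.lt_succ_iff_lt_or_eq.1 ha with h | h
      · exact Finset.mem_insert_of_mem (ih a h)
      · subst h
        exact Finset.mem_insert_self _ _
  refine ⟨fun n => F (st n) n, ⟨fun j => h1 _ _, fun j x => h2 _ _ x, fun j => h3 _ _,
    fun j => h4 _ _, ?_, ?_⟩⟩
  · intro j a ha m n
    exact h5 (st j) j _ (hmem j a ha) m n
  · intro j a b c ha hb hc
    exact h6 (st j) j _ (hmem j a ha) _ (hmem j b hb) _ (hmem j c hc)
-- END q4

end Pool.Agent.Orj
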