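import Mathlib
import Pool.Agent.Orj.Seq

/-!
# From a mixture to one bounded function (page, section 7, (i) - (iv) and the truncation)
-/

set_option autoImplicit false

open MeasureTheory Filter Topology

namespace Pool.Agent.Orj

variable {X : Type} [MeasurableSpace X] {μ : Measure X} [IsProbabilityMeasure μ] {T : X → X}

/-- the sum `H_m` -/
def HH (x : ℕ → ℝ) (g : ℕ → X → ℝ) (m : ℕ) (y : X) : ℝ := ∑ j ∈ Finset.range m, x j * g j y

variable {s : ℝ} {g : ℕ → X → ℝ} {x : ℕ → ℝ}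

-- BEGIN h0
theorem HH_bm (hg : SQ μ T s g) (m : ℕ) : BM (HH x g m) :=
  BM.sum (Finset.range m) fun j _ => (hg.bm j).cmul (x j)

/-- sums of the error terms -/
theorem sum_geom (hs : 0 ≤ s) (m : ℕ) : ∑ j ∈ Finset.range m, s / 4 ^ j ≤ 2 * s := by
  have key : ∀ m : ℕ, ∑ j ∈ Finset.range m, s / 4 ^ j ≤ 2 * s - 2 * (s / 4 ^ m) := by
    intro m
    induction m with
    | zero => simp
    | succ m ih =>
      rw [Finset.sum_range_succ]
      have h1 : s / 4 ^ (m + 1) = (s / 4 ^ m) / 4 := by rw [pow_succ]; field_simp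
      have h2 : 0 ≤ s / 4 ^ m := by positivity
      rw [h1]
      linarith
  have h2 : 0 ≤ s / 4 ^ m := by positivity
  linarith [key m]

theorem sum_j_geom (hs : 0 ≤ s) (m : ℕ) : ∑ j ∈ Finset.range m, j * (s / 4 ^ j) ≤ s / 2 := by
  have key : ∀ m : ℕ, ∑ j ∈ Finset.range m, j * (s / 4 ^ j) ≤
      s / 2 - (4 / 3 * (m : ℝ) + 1 / 2) * (s / 4 ^ m) := by
    intro m
    induction m with
    | zero => simp; linarith
    | succ m ih =>
      rw [Finset.sum_range_succ]
      have h1 : s / 4 ^ (m + 1) = (s / 4 ^ m) / 4 := by rw [pow_succ]; field_simp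
      have h2 : 0 ≤ s / 4 ^ m := by positivity
      rw [h1]
      push_cast
      nlinarith
  have h2 : 0 ≤ (4 / 3 * (m : ℝ) + 1 / 2) * (s / 4 ^ m) := by positivity
  linarith [key m]

theorem sum_j3_geom (hs : 0 ≤ s) (m : ℕ) :
    ∑ j ∈ Finset.range m, (j : ℝ) ^ 3 * (s / 4 ^ j) ≤ 2 * s := by
  have key : ∀ m : ℕ, ∑ j ∈ Finset.range m, (j : ℝ) ^ 3 * (s / 4 ^ j) ≤
      2 * s - (4 / 3 * (m : ℝ) ^ 3 + 4 / 3 * (m : ℝ) ^ 2 + 20 / 9 * m + 2) * (s / 4 ^ m) := by
    intro m
    induction m with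
    | zero => simp
    | succ m ih =>
      rw [Finset.sum_range_succ]
      have h1 : s / 4 ^ (m + 1) = (s / 4 ^ m) / 4 := by rw [pow_succ]; field_simp
      have h2 : 0 ≤ s / 4 ^ m := by positivity
      rw [h1]
      push_cast
      nlinarith
  have h2 : 0 ≤ (4 / 3 * (m : ℝ) ^ 3 + 4 / 3 * (m : ℝ) ^ 2 + 20 / 9 * m + 2) * (s / 4 ^ m) := by
    positivity
  linarith [key m]
-- END h0

-- BEGIN h1
private theorem h1_cc (hT : MeasurePreserving T μ μ) (hg : SQ μ T s g)
    (hx : ∀ j, 0 ≤ x j ∧ x j ≤ 1) (m a b : ℕ) :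
    |cc μ T (HH x g m) (g m) a b| ≤ m * (s / 4 ^ m) := by
  have h1 : cc μ T (HH x g m) (g m) a b =
      ∑ j ∈ Finset.range m, x j * cc μ T (g j) (g m) a b := by
    unfold cc HH
    simp_rw [Finset.sum_mul, mul_assoc]
    rw [integral_finset_sum]
    · simp_rw [integral_const_mul]
    · intro j _
      exact (((hg.bm j).comp (hT.measurable.iterate a)).mul
        ((hg.bm m).comp (hT.measurable.iterate b))).integrable.const_mul (x j)
  rw [h1]
  calc |∑ j ∈ Finset.range m, x j * cc μ T (g j) (g m) a b|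
      ≤ ∑ j ∈ Finset.range m, |x j * cc μ T (g j) (g m) a b| := Finset.abs_sum_le_sum_abs _ _
    _ ≤ ∑ j ∈ Finset.range m, s / 4 ^ m := Finset.sum_le_sum fun j hj => by
        rw [abs_mul, abs_of_nonneg (hx j).1]
        have h2 := hg.cross m j (Finset.mem_range.1 hj) a b
        calc x j * |cc μ T (g j) (g m) a b| ≤ 1 * |cc μ T (g j) (g m) a b| :=
              mul_le_mul_of_nonneg_right (hx j).2 (abs_nonneg _)
          _ ≤ s / 4 ^ m := by rw [one_mul]; exact h2
    _ = m * (s / 4 ^ m) := by simp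

private theorem h1_swap (f h : X → ℝ) (n : ℕ) : cc μ T f h 0 n = cc μ T h f n 0 := by
  unfold cc
  simp_rw [mul_comm]

/-- (i) -/
theorem HH_co (hT : MeasurePreserving T μ μ) (hs : 0 ≤ s) (hg : SQ μ T s g)
    (hx : ∀ j, 0 ≤ x j ∧ x j ≤ 1) (m n : ℕ) :
    (∑ j ∈ Finset.range m, x j ^ 2 * co μ T (g j) n) - s ≤ co μ T (HH x g m) n := by
  have key : ∀ m : ℕ, (∑ j ∈ Finset.range m, x j ^ 2 * co μ T (g j) n) -
      2 * ∑ j ∈ Finset.range m, j * (s / 4 ^ j) ≤ co μ T (HH x g m) n := by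
    intro m
    induction m with
    | zero => simp [co, HH]
    | succ m ih =>
      have e1 : HH x g (m + 1) = fun y => HH x g m y + x m * g m y := by
        funext y
        simp only [HH, Finset.sum_range_succ]
      rw [e1, co_add hT (HH_bm hg m) (hg.bm m) (x m) n, Finset.sum_range_succ,
        Finset.sum_range_succ, h1_swap (g m)]
      have h1 := abs_le.1 (h1_cc hT hg hx m 0 n)
      have h2 := abs_le.1 (h1_cc hT hg hx m n 0)
      have h3 : (0 : ℝ) ≤ m * (s / 4 ^ m) := by positivity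
      have h4 : -(2 * ((m : ℝ) * (s / 4 ^ m))) ≤
          x m * (cc μ T (HH x g m) (g m) 0 n + cc μ T (HH x g m) (g m) n 0) := by
        have h5 : -(2 * ((m : ℝ) * (s / 4 ^ m))) ≤
            cc μ T (HH x g m) (g m) 0 n + cc μ T (HH x g m) (g m) n 0 := by linarith [h1.1, h2.1]
        have h6 := mul_le_mul_of_nonneg_left h5 (hx m).1
        nlinarith [(hx m).1, (hx m).2]
      linarith
  linarith [key m, sum_j_geom hs m]
-- END h1

-- BEGIN h2
/-- (ii), (iii) -/
theorem HH_mean (hs : 0 ≤ s) (hg : SQ μ T s g) (hx : ∀ j, 0 ≤ x j ∧ x j ≤ 1) (m : ℕ) :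
    |∫ y, HH x g m y ∂μ| ≤ 2 * s := by
  have h1 : ∫ y, HH x g m y ∂μ = ∑ j ∈ Finset.range m, x j * ∫ y, g j y ∂μ := by
    simp only [HH]
    rw [integral_finsetSum _ fun j _ => ((hg.bm j).cmul (x j)).integrable]
    refine Finset.sum_congr rfl fun j _ => ?_
    rw [integral_const_mul]
  rw [h1]
  refine (Finset.abs_sum_le_sum_abs _ _).trans (le_trans ?_ (sum_geom hs m))
  refine Finset.sum_le_sum fun j _ => ?_
  rw [abs_mul, abs_of_nonneg (hx j).1]
  exact (mul_le_of_le_one_left (abs_nonneg _) (hx j).2).trans (hg.mean j)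

private theorem h2_one (hs : 0 ≤ s) (hg : SQ μ T s g) (hx : ∀ j, 0 ≤ x j ∧ x j ≤ 1) (m : ℕ) :
    |∫ y, g m y * HH x g m y ∂μ| ≤ (m : ℝ) * (s / 4 ^ m) := by
  have h1 : ∫ y, g m y * HH x g m y ∂μ =
      ∑ j ∈ Finset.range m, x j * ∫ y, g j y * g m y ∂μ := by
    have e : ∀ y, g m y * HH x g m y = ∑ j ∈ Finset.range m, x j * (g j y * g m y) := by
      intro y
      rw [HH, Finset.mul_sum]
      refine Finset.sum_congr rfl fun j _ => ?_
      ring
    simp only [e]
    rw [integral_finsetSum _ fun j _ => (((hg.bm j).mul (hg.bm m)).cmul (x j)).integrable]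
    refine Finset.sum_congr rfl fun j _ => ?_
    rw [integral_const_mul]
  rw [h1]
  refine (Finset.abs_sum_le_sum_abs _ _).trans ?_
  have h2 : ∑ j ∈ Finset.range m, |x j * ∫ y, g j y * g m y ∂μ| ≤
      ∑ _j ∈ Finset.range m, s / 4 ^ m := by
    refine Finset.sum_le_sum fun j hj => ?_
    rw [abs_mul, abs_of_nonneg (hx j).1]
    have h3 := hg.cross m j (Finset.mem_range.1 hj) 0 0
    have h4 : cc μ T (g j) (g m) 0 0 = ∫ y, g j y * g m y ∂μ := rfl
    rw [h4] at h3
    exact (mul_le_of_le_one_left (abs_nonneg _) (hx j).2).trans h3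
  refine h2.trans (le_of_eq ?_)
  rw [Finset.sum_const, Finset.card_range, nsmul_eq_mul]

theorem HH_sq (hT : MeasurePreserving T μ μ) (hs : 0 ≤ s) (hg : SQ μ T s g)
    (hx : ∀ j, 0 ≤ x j ∧ x j ≤ 1) (m : ℕ) :
    ∫ y, HH x g m y ^ 2 ∂μ ≤ (∑ j ∈ Finset.range m, x j ^ 2) + s := by
  have key : ∀ m, ∫ y, HH x g m y ^ 2 ∂μ ≤ (∑ j ∈ Finset.range m, x j ^ 2) +
      2 * ∑ j ∈ Finset.range m, (j : ℝ) * (s / 4 ^ j) := by
    intro m
    induction m with
    | zero => simp [HH]
    | succ m ih =>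
      have h1 : ∀ y, HH x g (m + 1) y ^ 2 =
          (HH x g m y * HH x g m y + (2 * x m) * (g m y * HH x g m y)) + x m ^ 2 := by
        intro y
        have e : HH x g (m + 1) y = HH x g m y + x m * g m y := by
          rw [HH, HH, Finset.sum_range_succ]
        rw [e]
        have := hg.sq m y
        linear_combination (x m ^ 2) * this
      have b1 : BM fun y => HH x g m y * HH x g m y := (HH_bm hg m).mul (HH_bm hg m)
      have b2 : BM fun y => (2 * x m) * (g m y * HH x g m y) :=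
        ((hg.bm m).mul (HH_bm hg m)).cmul _
      simp only [h1]
      rw [integral_add (b1.add b2).integrable (integrable_const _),
        integral_add b1.integrable b2.integrable, integral_const_mul, integral_const]
      have h2 : ∫ y, HH x g m y * HH x g m y ∂μ = ∫ y, HH x g m y ^ 2 ∂μ := by
        congr 1
        funext y
        ring
      rw [h2, Finset.sum_range_succ, Finset.sum_range_succ]
      have h3 := (abs_le.1 (h2_one hs hg hx m)).2
      have h4 : x m * ∫ y, g m y * HH x g m y ∂μ ≤ (m : ℝ) * (s / 4 ^ m) := by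
        rcases le_total 0 (∫ y, g m y * HH x g m y ∂μ) with h5 | h5
        · exact (mul_le_of_le_one_left h5 (hx m).2).trans h3
        · exact (mul_nonpos_of_nonneg_of_nonpos (hx m).1 h5).trans (by positivity)
      simp only [probReal_univ, smul_eq_mul, one_mul]
      linarith
  have h1 := key m
  have h2 := sum_j_geom hs m
  linarith

theorem HH_dT (hT : MeasurePreserving T μ μ) (hs : 0 ≤ s) (hg : SQ μ T s g)
    (hx : ∀ j, 0 ≤ x j ∧ x j ≤ 1) (m : ℕ) : dT μ T (HH x g m) ≤ 2 * s := by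
  have h1 : (fun y => HH x g m (T y) - HH x g m y) =
      fun y => ∑ j ∈ Finset.range m, x j * (g j (T y) - g j y) := by
    funext y
    rw [HH, HH, ← Finset.sum_sub_distrib]
    refine Finset.sum_congr rfl fun j _ => ?_
    ring
  rw [dT, h1]
  refine (nm_sum_le (Finset.range m) fun j _ =>
    (((hg.bm j).comp hT.measurable).sub (hg.bm j)).cmul (x j)).trans ?_
  refine le_trans (Finset.sum_le_sum fun j _ => ?_) (sum_geom hs m)
  rw [nm_cmul, abs_of_nonneg (hx j).1]
  have h2 : nm μ (fun y => g j (T y) - g j y) ≤ s / 4 ^ j := hg.inv j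
  exact (mul_le_of_le_one_left (nm_nonneg _) (hx j).2).trans h2
-- END h2

-- BEGIN h3
theorem h3_mul (a : ℝ) (m : ℕ) (x u : ℕ → ℝ) :
    a * (∑ j ∈ Finset.range m, x j * u j) ^ 3 =
      ∑ i ∈ Finset.range m, ∑ j ∈ Finset.range m, ∑ k ∈ Finset.range m,
        (x i * x j * x k) * (a * (u i * u j * u k)) := by
  rw [pow_succ, pow_two, Finset.sum_mul_sum, Finset.sum_mul, Finset.mul_sum]
  refine Finset.sum_congr rfl fun i _ => ?_
  rw [Finset.sum_mul, Finset.mul_sum]
  refine Finset.sum_congr rfl fun j _ => ?_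
  rw [Finset.mul_sum, Finset.mul_sum]
  refine Finset.sum_congr rfl fun k _ => ?_
  ring

theorem HH_cube (hg : SQ μ T s g) (hx : ∀ j, 0 ≤ x j ∧ x j ≤ 1) (m : ℕ) :
    |∫ y, g m y * HH x g m y ^ 3 ∂μ| ≤ (m : ℝ) ^ 3 * (s / 4 ^ m) := by
  have hb : ∀ i j k : ℕ, BM (fun y => (x i * x j * x k) * (g m y * (g i y * g j y * g k y))) :=
    fun i j k => BM.cmul ((hg.bm m).mul (((hg.bm i).mul (hg.bm j)).mul (hg.bm k))) _
  have h1 : ∀ y, g m y * HH x g m y ^ 3 =
      ∑ i ∈ Finset.range m, ∑ j ∈ Finset.range m, ∑ k ∈ Finset.range m,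
        (x i * x j * x k) * (g m y * (g i y * g j y * g k y)) := by
    intro y
    exact h3_mul (g m y) m x fun j => g j y
  have h2 : ∫ y, g m y * HH x g m y ^ 3 ∂μ =
      ∑ i ∈ Finset.range m, ∑ j ∈ Finset.range m, ∑ k ∈ Finset.range m,
        (x i * x j * x k) * ∫ y, g m y * (g i y * g j y * g k y) ∂μ := by
    rw [integral_congr_ae (Filter.Eventually.of_forall h1)]
    rw [integral_finsetSum _ fun i _ =>
      (BM.sum (Finset.range m) fun j _ => BM.sum (Finset.range m) fun k _ => hb i j k).integrable]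
    refine Finset.sum_congr rfl fun i _ => ?_
    rw [integral_finsetSum _ fun j _ =>
      (BM.sum (Finset.range m) fun k _ => hb i j k).integrable]
    refine Finset.sum_congr rfl fun j _ => ?_
    rw [integral_finsetSum _ fun k _ => (hb i j k).integrable]
    refine Finset.sum_congr rfl fun k _ => ?_
    rw [integral_const_mul]
  rw [h2]
  have h3 : ∀ i ∈ Finset.range m, |∑ j ∈ Finset.range m, ∑ k ∈ Finset.range m,
      (x i * x j * x k) * ∫ y, g m y * (g i y * g j y * g k y) ∂μ| ≤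
      (m : ℝ) * ((m : ℝ) * (s / 4 ^ m)) := by
    intro i hi
    refine (Finset.abs_sum_le_sum_abs _ _).trans ?_
    refine (Finset.sum_le_card_nsmul _ _ ((m : ℝ) * (s / 4 ^ m)) fun j hj => ?_).trans
      (le_of_eq (by rw [Finset.card_range, nsmul_eq_mul]))
    refine (Finset.abs_sum_le_sum_abs _ _).trans ?_
    refine (Finset.sum_le_card_nsmul _ _ (s / 4 ^ m) fun k hk => ?_).trans
      (le_of_eq (by rw [Finset.card_range, nsmul_eq_mul]))
    have e1 := hg.four m i j k (Finset.mem_range.1 hi) (Finset.mem_range.1 hj)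
      (Finset.mem_range.1 hk)
    rw [abs_mul]
    have e2 : |x i * x j * x k| ≤ 1 := by
      rw [abs_of_nonneg (mul_nonneg (mul_nonneg (hx i).1 (hx j).1) (hx k).1)]
      exact mul_le_one₀ (mul_le_one₀ (hx i).2 (hx j).1 (hx j).2) (hx k).1 (hx k).2
    calc |x i * x j * x k| * |∫ y, g m y * (g i y * g j y * g k y) ∂μ|
        ≤ 1 * |∫ y, g m y * (g i y * g j y * g k y) ∂μ| :=
          mul_le_mul_of_nonneg_right e2 (abs_nonneg _)
      _ ≤ s / 4 ^ m := by rw [one_mul]; exact e1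
  refine (Finset.abs_sum_le_sum_abs _ _).trans ?_
  refine (Finset.sum_le_card_nsmul _ _ _ h3).trans (le_of_eq ?_)
  rw [Finset.card_range, nsmul_eq_mul]
  ring

theorem HH_one (hg : SQ μ T s g) (hx : ∀ j, 0 ≤ x j ∧ x j ≤ 1) (m : ℕ) :
    |∫ y, g m y * HH x g m y ∂μ| ≤ (m : ℝ) * (s / 4 ^ m) := by
  have hb : ∀ j : ℕ, BM (fun y => x j * (g j y * g m y)) :=
    fun j => BM.cmul ((hg.bm j).mul (hg.bm m)) _
  have h1 : ∀ y, g m y * HH x g m y = ∑ j ∈ Finset.range m, x j * (g j y * g m y) := by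
    intro y
    unfold HH
    rw [Finset.mul_sum]
    refine Finset.sum_congr rfl fun j _ => ?_
    ring
  have h2 : ∫ y, g m y * HH x g m y ∂μ =
      ∑ j ∈ Finset.range m, x j * ∫ y, g j y * g m y ∂μ := by
    rw [integral_congr_ae (Filter.Eventually.of_forall h1)]
    rw [integral_finsetSum _ fun j _ => (hb j).integrable]
    refine Finset.sum_congr rfl fun j _ => ?_
    rw [integral_const_mul]
  rw [h2]
  refine (Finset.abs_sum_le_sum_abs _ _).trans ?_
  refine (Finset.sum_le_card_nsmul _ _ (s / 4 ^ m) fun j hj => ?_).trans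
    (le_of_eq (by rw [Finset.card_range, nsmul_eq_mul]))
  have e1 := hg.cross m j (Finset.mem_range.1 hj) 0 0
  have e1' : |∫ y, g j y * g m y ∂μ| ≤ s / 4 ^ m := e1
  rw [abs_mul, abs_of_nonneg (hx j).1]
  calc x j * |∫ y, g j y * g m y ∂μ| ≤ 1 * |∫ y, g j y * g m y ∂μ| :=
        mul_le_mul_of_nonneg_right (hx j).2 (abs_nonneg _)
    _ ≤ s / 4 ^ m := by rw [one_mul]; exact e1'
-- END h3

-- BEGIN h4
private theorem h4_pow {f : X → ℝ} (hf : BM f) (k : ℕ) : BM fun y => f y ^ k := by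
  induction k with
  | zero => simpa using BM.const (X := X) 1
  | succ k ih =>
    have h := ih.mul hf
    have he : (fun y => f y ^ (k + 1)) = fun y => f y ^ k * f y := by
      funext y
      rw [pow_succ]
    rw [he]
    exact h

private theorem h4_step (hg : SQ μ T s g) (m : ℕ) :
    ∫ y, HH x g (m + 1) y ^ 4 ∂μ = ∫ y, HH x g m y ^ 4 ∂μ +
      4 * x m * (∫ y, g m y * HH x g m y ^ 3 ∂μ) + 6 * x m ^ 2 * (∫ y, HH x g m y ^ 2 ∂μ) +
      4 * x m ^ 3 * (∫ y, g m y * HH x g m y ∂μ) + x m ^ 4 := by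
  have hH : BM (HH x g m) := HH_bm hg m
  have hgm : BM (g m) := hg.bm m
  have i4 : Integrable (fun y => HH x g m y ^ 4) μ := (h4_pow hH 4).integrable
  have i3 : Integrable (fun y => 4 * x m * (g m y * HH x g m y ^ 3)) μ :=
    ((hgm.mul (h4_pow hH 3)).integrable).const_mul _
  have i2 : Integrable (fun y => 6 * x m ^ 2 * HH x g m y ^ 2) μ :=
    ((h4_pow hH 2).integrable).const_mul _
  have i1 : Integrable (fun y => 4 * x m ^ 3 * (g m y * HH x g m y)) μ :=
    ((hgm.mul hH).integrable).const_mul _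
  have i0 : Integrable (fun _ : X => x m ^ 4) μ := integrable_const _
  have he : (fun y => HH x g (m + 1) y ^ 4) = fun y => (((HH x g m y ^ 4 +
      4 * x m * (g m y * HH x g m y ^ 3)) + 6 * x m ^ 2 * HH x g m y ^ 2) +
      4 * x m ^ 3 * (g m y * HH x g m y)) + x m ^ 4 := by
    funext y
    have h1 : HH x g (m + 1) y = HH x g m y + x m * g m y := by
      unfold HH
      rw [Finset.sum_range_succ]
    have h2 := hg.sq m y
    rw [h1]
    linear_combination (6 * HH x g m y ^ 2 * x m ^ 2 + 4 * HH x g m y * x m ^ 3 * g m y +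
      x m ^ 4 * (g m y ^ 2 + 1)) * h2
  have j3 : Integrable (fun y => HH x g m y ^ 4 + 4 * x m * (g m y * HH x g m y ^ 3)) μ := i4.add i3
  have j2 : Integrable (fun y => HH x g m y ^ 4 + 4 * x m * (g m y * HH x g m y ^ 3) +
      6 * x m ^ 2 * HH x g m y ^ 2) μ := j3.add i2
  have j1 : Integrable (fun y => HH x g m y ^ 4 + 4 * x m * (g m y * HH x g m y ^ 3) +
      6 * x m ^ 2 * HH x g m y ^ 2 + 4 * x m ^ 3 * (g m y * HH x g m y)) μ := j2.add i1
  rw [he, integral_add j1 i0, integral_add j2 i1, integral_add j3 i2, integral_add i4 i3,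
    integral_const_mul, integral_const_mul, integral_const_mul]
  simp

private theorem h4_ind (hT : MeasurePreserving T μ μ) (hs : 0 ≤ s) (hg : SQ μ T s g)
    (hx : ∀ j, 0 ≤ x j ∧ x j ≤ 1) (m : ℕ) :
    ∫ y, HH x g m y ^ 4 ∂μ ≤ 3 * (∑ j ∈ Finset.range m, x j ^ 2) ^ 2 +
      6 * s * (∑ j ∈ Finset.range m, x j ^ 2) +
      ∑ j ∈ Finset.range m, (4 * ((j : ℝ) ^ 3 * (s / 4 ^ j)) + 4 * (j * (s / 4 ^ j))) := by
  induction m with
  | zero => simp [HH]
  | succ m ih =>
    rw [h4_step hg m, Finset.sum_range_succ, Finset.sum_range_succ _ m]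
    set S := ∑ j ∈ Finset.range m, x j ^ 2 with hS
    have h3 := abs_le.1 (HH_cube hg hx m)
    have h1 := abs_le.1 (HH_one hg hx m)
    have h2 := HH_sq hT hs hg hx m
    rw [← hS] at h2
    obtain ⟨hx0, hx1⟩ := hx m
    have e0 : 0 ≤ (m : ℝ) ^ 3 * (s / 4 ^ m) := by positivity
    have e1 : 0 ≤ (m : ℝ) * (s / 4 ^ m) := by positivity
    have a3 : 4 * x m * (∫ y, g m y * HH x g m y ^ 3 ∂μ) ≤ 4 * ((m : ℝ) ^ 3 * (s / 4 ^ m)) := by
      calc 4 * x m * (∫ y, g m y * HH x g m y ^ 3 ∂μ)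
          ≤ 4 * x m * ((m : ℝ) ^ 3 * (s / 4 ^ m)) :=
            mul_le_mul_of_nonneg_left h3.2 (by linarith)
        _ ≤ 4 * ((m : ℝ) ^ 3 * (s / 4 ^ m)) :=
            mul_le_mul_of_nonneg_right (by linarith) e0
    have hx3 : 0 ≤ x m ^ 3 := by positivity
    have hx3' : x m ^ 3 ≤ 1 := pow_le_one₀ hx0 hx1
    have a1 : 4 * x m ^ 3 * (∫ y, g m y * HH x g m y ∂μ) ≤ 4 * ((m : ℝ) * (s / 4 ^ m)) := by
      calc 4 * x m ^ 3 * (∫ y, g m y * HH x g m y ∂μ)
          ≤ 4 * x m ^ 3 * ((m : ℝ) * (s / 4 ^ m)) :=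
            mul_le_mul_of_nonneg_left h1.2 (by linarith)
        _ ≤ 4 * ((m : ℝ) * (s / 4 ^ m)) :=
            mul_le_mul_of_nonneg_right (by linarith) e1
    have a2 : 6 * x m ^ 2 * (∫ y, HH x g m y ^ 2 ∂μ) ≤ 6 * x m ^ 2 * (S + s) :=
      mul_le_mul_of_nonneg_left h2 (by positivity)
    have hx4 : 0 ≤ x m ^ 4 := by positivity
    nlinarith [ih, a1, a2, a3, hx4]

/-- (iv). PROOF. Induction on `m`, claim `∫ H_m⁴ ≤ 3 s_m² + 6 s s_m + ∑_{j < m} (4 j³ + 4 j) s / 4^j`, where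
`s_m = ∑_{j < m} x_j²`. -/
theorem HH_four (hT : MeasurePreserving T μ μ) (hs : 0 ≤ s) (hg : SQ μ T s g)
    (hx : ∀ j, 0 ≤ x j ∧ x j ≤ 1) (m : ℕ) (h1 : ∑ j ∈ Finset.range m, x j ^ 2 ≤ 1) :
    ∫ y, HH x g m y ^ 4 ∂μ ≤ 3 + 20 * s := by
  have h := h4_ind hT hs hg hx m
  rw [Finset.sum_add_distrib, ← Finset.mul_sum, ← Finset.mul_sum] at h
  have h3 := sum_j3_geom hs m
  have h4 := sum_j_geom hs m
  have h0 : 0 ≤ ∑ j ∈ Finset.range m, x j ^ 2 := Finset.sum_nonneg fun j _ => sq_nonneg _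
  have h5 : (∑ j ∈ Finset.range m, x j ^ 2) ^ 2 ≤ 1 := pow_le_one₀ h0 h1
  have h6 : 6 * s * (∑ j ∈ Finset.range m, x j ^ 2) ≤ 6 * s * 1 :=
    mul_le_mul_of_nonneg_left h1 (by linarith)
  linarith
-- END h4

/-- truncation at `M` -/
def clip (M : ℝ) (H : X → ℝ) (y : X) : ℝ := max (-M) (min M (H y))

-- BEGIN h5
private theorem h5_bm {M : ℝ} {H : X → ℝ} (hH : BM H) : BM (clip M H) := hH.clip M

private theorem h5_abs {M : ℝ} (hM : 0 < M) (a : ℝ) : |max (-M) (min M a)| ≤ |a| := by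
  rcases le_total 0 a with ha | ha
  · rw [abs_of_nonneg ha, max_eq_right (le_min (by linarith) (by linarith)),
      abs_of_nonneg (le_min hM.le ha)]
    exact min_le_right _ _
  · rw [abs_of_nonpos ha, min_eq_right (by linarith : a ≤ M),
      abs_of_nonpos (max_le (by linarith) ha)]
    linarith [le_max_right (-M) a]

private theorem h5_sq {M : ℝ} (hM : 0 < M) (a : ℝ) : |a - max (-M) (min M a)| ≤ a ^ 2 / M := by
  rw [le_div_iff₀ hM]
  rcases le_total a M with h1 | h1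
  · rw [min_eq_right h1]
    rcases le_total (-M) a with h2 | h2
    · rw [max_eq_right h2]
      simp only [sub_self, abs_zero, zero_mul]
      positivity
    · rw [max_eq_left h2, abs_of_nonpos (by linarith)]
      nlinarith
  · rw [min_eq_left h1, max_eq_right (by linarith), abs_of_nonneg (by linarith)]
    nlinarith

private theorem h5_lip (M a b : ℝ) :
    |max (-M) (min M a) - max (-M) (min M b)| ≤ |a - b| := by
  refine (abs_max_sub_max_le_max _ _ _ _).trans ?_
  rw [sub_self, abs_zero]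
  refine max_le (abs_nonneg _) ((abs_min_sub_min_le_max _ _ _ _).trans ?_)
  rw [sub_self, abs_zero]
  exact max_le (abs_nonneg _) le_rfl

theorem clip_sub_le {M : ℝ} (hM : 0 < M) {H : X → ℝ} (hH : BM H) (h4 : ∫ y, H y ^ 4 ∂μ ≤ 4) :
    nm μ (fun y => H y - clip M H y) ≤ 2 / M := by
  have hd : BM fun y => H y - clip M H y := hH.sub (h5_bm hH)
  have h2 : (2 / M : ℝ) ^ 2 = 4 / M ^ 2 := by rw [div_pow]; norm_num
  refine le_of_sq_le_sq ?_ (by positivity)
  rw [nm_sq, h2]
  have hle : ∫ y, (H y - clip M H y) ^ 2 ∂μ ≤ ∫ y, H y ^ 4 / M ^ 2 ∂μ := by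
    have hi1 : Integrable (fun y => (H y - clip M H y) ^ 2) μ := by
      have := (hd.mul hd).integrable (μ := μ)
      simpa only [sq] using this
    have hi2 : Integrable (fun y => H y ^ 4 / M ^ 2) μ := by
      have hh := (((hH.mul hH).mul (hH.mul hH)).integrable (μ := μ)).div_const (M ^ 2)
      refine hh.congr (Filter.Eventually.of_forall fun y => ?_)
      show H y * H y * (H y * H y) / M ^ 2 = H y ^ 4 / M ^ 2
      ring
    refine integral_mono hi1 hi2 fun y => ?_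
    show (H y - clip M H y) ^ 2 ≤ H y ^ 4 / M ^ 2
    have h := h5_sq hM (H y)
    have h' : (H y - clip M H y) ^ 2 ≤ (H y ^ 2 / M) ^ 2 := by
      rw [← sq_abs (H y - clip M H y)]
      exact pow_le_pow_left₀ (abs_nonneg _) h 2
    refine h'.trans (le_of_eq ?_)
    rw [div_pow]
    ring
  refine hle.trans ?_
  rw [integral_div]
  exact div_le_div_of_nonneg_right h4 (by positivity)

theorem clip_nm {M : ℝ} (hM : 0 < M) {H : X → ℝ} (hH : BM H) : nm μ (clip M H) ≤ nm μ H :=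
  nm_mono (h5_bm hH) hH fun y => h5_abs hM (H y)

theorem clip_dT {M : ℝ} (hM : 0 < M) {H : X → ℝ} (hH : BM H) (hT : MeasurePreserving T μ μ) :
    dT μ T (clip M H) ≤ dT μ T H :=
  nm_mono (((h5_bm hH).comp hT.measurable).sub (h5_bm hH)) ((hH.comp hT.measurable).sub hH)
    fun y => h5_lip M (H (T y)) (H y)

theorem clip_co {M : ℝ} (hM : 0 < M) {H : X → ℝ} (hH : BM H) (hT : MeasurePreserving T μ μ)
    (h4 : ∫ y, H y ^ 4 ∂μ ≤ 4) (h2 : nm μ H ≤ 2) (n : ℕ) :
    co μ T H n - 8 / M ≤ co μ T (clip M H) n := by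
  have hTn : Measurable (T^[n]) := (hT.iterate n).measurable
  have hc : BM (clip M H) := h5_bm hH
  have hd : BM fun y => H y - clip M H y := hH.sub hc
  have hH' : BM fun y => H (T^[n] y) := hH.comp hTn
  have hc' : BM fun y => clip M H (T^[n] y) := hc.comp hTn
  have hd' : BM fun y => H (T^[n] y) - clip M H (T^[n] y) := hH'.sub hc'
  have hs := clip_sub_le hM hH h4
  have hcn : nm μ (clip M H) ≤ 2 := (clip_nm hM hH).trans h2
  have e1 : |∫ y, (H y - clip M H y) * H (T^[n] y) ∂μ| ≤ 2 / M * 2 := by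
    refine (abs_int_mul_le hd hH').trans ?_
    rw [nm_iter hT hH n]
    exact mul_le_mul hs h2 (nm_nonneg _) (by positivity)
  have e2 : |∫ y, clip M H y * (H (T^[n] y) - clip M H (T^[n] y)) ∂μ| ≤ 2 * (2 / M) := by
    refine (abs_int_mul_le hc hd').trans ?_
    rw [nm_iter hT hd n]
    exact mul_le_mul hcn hs (nm_nonneg _) (by norm_num)
  have e3 : co μ T H n = co μ T (clip M H) n + (∫ y, (H y - clip M H y) * H (T^[n] y) ∂μ +
      ∫ y, clip M H y * (H (T^[n] y) - clip M H (T^[n] y)) ∂μ) := by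
    unfold co
    rw [← integral_add ((hd.mul hH').integrable) ((hc.mul hd').integrable),
      ← integral_add ((hc.mul hc').integrable) (((hd.mul hH').add (hc.mul hd')).integrable)]
    refine integral_congr_ae (Filter.Eventually.of_forall fun y => ?_)
    show H y * H (T^[n] y) = clip M H y * clip M H (T^[n] y) +
      ((H y - clip M H y) * H (T^[n] y) + clip M H y * (H (T^[n] y) - clip M H (T^[n] y)))
    ring
  have e4 := abs_le.mp e1
  have e5 := abs_le.mp e2
  have e6 : 2 / M * 2 + 2 * (2 / M) = 8 / M := by ring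
  linarith [e4.2, e5.2]
-- END h5

-- BEGIN h6
theorem h6_int_diff {M : ℝ} (hM : 0 < M) {H : X → ℝ} (hH : BM H)
    (h4 : ∫ y, H y ^ 4 ∂μ ≤ 4) : |∫ y, clip M H y ∂μ| ≤ |∫ y, H y ∂μ| + 2 / M := by
  have hc : BM (clip M H) := hH.clip M
  have h1 := abs_int_le (μ := μ) (hH.sub hc)
  have h2 := clip_sub_le (μ := μ) hM hH h4
  have h3 : ∫ y, (H y - clip M H y) ∂μ = (∫ y, H y ∂μ) - ∫ y, clip M H y ∂μ :=
    integral_sub hH.integrable hc.integrable
  rw [h3] at h1
  have h5 := abs_sub_abs_le_abs_sub (∫ y, clip M H y ∂μ) (∫ y, H y ∂μ)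
  rw [abs_sub_comm] at h5
  linarith

/-- the mixture becomes one bounded function -/
theorem mixture (hT : MeasurePreserving T μ μ) (hs : 0 ≤ s) (hs1 : s ≤ 1 / 100)
    (hg : SQ μ T s g) {m : ℕ} {b : ℕ → ℝ} (hb : ∀ j, 0 ≤ b j)
    (hb1 : ∑ j ∈ Finset.range m, b j = 1) {M : ℝ} (hM : 1 ≤ M) :
    ∃ h : X → ℝ, Measurable h ∧ (∀ y, |h y| ≤ 2 * M) ∧ ∫ y, h y ∂μ = 0 ∧ nm μ h ≤ 2 ∧
      dT μ T h ≤ 2 * s ∧ ∀ n, (∑ j ∈ Finset.range m, b j * co μ T (g j) n) - s - 8 / M -
        (2 * s + 2 / M) ^ 2 ≤ co μ T h n := by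
  have hM0 : 0 < M := by linarith
  set x : ℕ → ℝ := fun j => if j < m then √(b j) else 0 with hxd
  have hbm : ∀ j, j < m → b j ≤ 1 := by
    intro j hj
    rw [← hb1]
    exact Finset.single_le_sum (f := b) (fun i _ => hb i) (Finset.mem_range.2 hj)
  have hx : ∀ j, 0 ≤ x j ∧ x j ≤ 1 := by
    intro j
    by_cases hj : j < m
    · simp only [hxd, hj, if_true]
      exact ⟨Real.sqrt_nonneg _, by
        rw [Real.sqrt_le_iff]
        exact ⟨zero_le_one, by simpa using hbm j hj⟩⟩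
    · simp only [hxd, hj, if_false]
      exact ⟨le_rfl, zero_le_one⟩
  have hxs : ∀ j ∈ Finset.range m, x j ^ 2 = b j := by
    intro j hj
    simp only [hxd, Finset.mem_range.1 hj, if_true]
    exact Real.sq_sqrt (hb j)
  have hsum : ∑ j ∈ Finset.range m, x j ^ 2 = 1 := by
    rw [← hb1]
    exact Finset.sum_congr rfl hxs
  set H := HH x g m with hHd
  have hH : BM H := HH_bm hg m
  have h4 : ∫ y, H y ^ 4 ∂μ ≤ 4 := by
    have := HH_four (x := x) hT hs hg hx m hsum.le
    linarith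
  have h2 : ∫ y, H y ^ 2 ∂μ ≤ 4 := by
    have := HH_sq (x := x) hT hs hg hx m
    linarith
  have hn2 : nm μ H ≤ 2 := by
    have : nm μ H ≤ √4 := Real.sqrt_le_sqrt h2
    have h : √(4 : ℝ) = 2 := by
      rw [show (4 : ℝ) = 2 ^ 2 by norm_num]
      exact Real.sqrt_sq (by norm_num)
    linarith
  have hc : BM (clip M H) := hH.clip M
  have hcM : ∀ y, |clip M H y| ≤ M := by
    intro y
    rw [abs_le]
    unfold clip
    exact ⟨le_max_left _ _, max_le (by linarith) (min_le_left _ _)⟩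
  have hcI : |∫ y, clip M H y ∂μ| ≤ M := by
    have := norm_integral_le_of_norm_le_const (μ := μ) (f := clip M H) (C := M)
      (Filter.Eventually.of_forall fun y => by
        rw [Real.norm_eq_abs]
        exact hcM y)
    simpa using this
  have hmean := HH_mean (x := x) hs hg hx m
  have hmc : |∫ y, clip M H y ∂μ| ≤ 2 * s + 2 / M := by
    have := h6_int_diff (μ := μ) hM0 hH h4
    linarith
  refine ⟨fun y => clip M H y - ∫ z, clip M H z ∂μ, hc.1.sub measurable_const, ?_, ?_, ?_, ?_, ?_⟩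
  · intro y
    have h1 := abs_sub (clip M H y) (∫ z, clip M H z ∂μ)
    have h3 := hcM y
    linarith
  · rw [integral_sub hc.integrable (integrable_const _)]
    simp
  · exact (nm_center_le hc).trans ((clip_nm hM0 hH).trans hn2)
  · have h1 : dT μ T (fun y => clip M H y - ∫ z, clip M H z ∂μ) = dT μ T (clip M H) := by
      unfold dT
      congr 1
      funext y
      ring
    rw [h1]
    exact (clip_dT hM0 hH hT).trans (HH_dT hT hs hg hx m)
  · intro n
    rw [co_center hT hc n]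
    have h1 := clip_co (μ := μ) (T := T) hM0 hH hT h4 hn2 n
    have h3 := HH_co (x := x) hT hs hg hx m n
    have h5 : ∑ j ∈ Finset.range m, x j ^ 2 * co μ T (g j) n
        = ∑ j ∈ Finset.range m, b j * co μ T (g j) n :=
      Finset.sum_congr rfl fun j hj => by rw [hxs j hj]
    rw [h5] at h3
    have h6 : (∫ y, clip M H y ∂μ) ^ 2 ≤ (2 * s + 2 / M) ^ 2 := by
      rw [← sq_abs]
      exact pow_le_pow_left₀ (abs_nonneg _) hmc 2
    linarith
-- END h6

end Pool.Agent.Orj
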