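import Mathlib

/-!
# A Mazur type lemma on `ℕ` (page, section 6)
-/

set_option autoImplicit false

open MeasureTheory Filter Topology

namespace Pool.Agent.Orj

-- BEGIN m1
/-- A positive linear functional on `C(K)` of functions which are bounded and have pointwise lower limit `≥ 0` has
lower limit `≥ 0`. PROOF. Riesz-Markov (`RealRMK.rieszMeasure`, `RealRMK.integral_rieszMeasure` for
`C_c(K, ℝ)`; `K` is compact) and dominated convergence for `min (Z j) 0`. -/
theorem pos_lim {K : Type} [TopologicalSpace K] [CompactSpace K] [T2Space K]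
    (L : C(K, ℝ) →ₗ[ℝ] ℝ) (hL : ∀ F : C(K, ℝ), (∀ x, 0 ≤ F x) → 0 ≤ L F)
    (Z : ℕ → C(K, ℝ)) (B : ℝ) (hB : ∀ j x, |Z j x| ≤ B)
    (h : ∀ x, ∀ d > (0 : ℝ), ∀ᶠ j in atTop, -d ≤ Z j x) :
    ∀ d > (0 : ℝ), ∀ᶠ j in atTop, -d ≤ L (Z j) := by
  letI : MeasurableSpace K := borel K
  haveI : BorelSpace K := ⟨rfl⟩
  let e : CompactlySupportedContinuousMap K ℝ →ₗ[ℝ] C(K, ℝ) :=
    { toFun := fun f => f.toContinuousMap
      map_add' := fun f g => by ext x; rfl
      map_smul' := fun c f => by ext x; rfl }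
  let Λ : CompactlySupportedContinuousMap K ℝ →ₚ[ℝ] ℝ :=
    PositiveLinearMap.mk₀ (L.comp e) (fun f hf => hL (e f) (fun x => hf x))
  let μ : Measure K := RealRMK.rieszMeasure Λ
  have hμ : ∀ F : C(K, ℝ), ∫ x, F x ∂μ = L F := by
    intro F
    have h1 := RealRMK.integral_rieszMeasure Λ (CompactlySupportedContinuousMap.continuousMapEquiv F)
    have h2 : Λ (CompactlySupportedContinuousMap.continuousMapEquiv F) = L F := by
      show L (e (CompactlySupportedContinuousMap.continuousMapEquiv F)) = L F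
      congr 1
    rw [h2] at h1
    exact h1
  have hfin : IsFiniteMeasure μ := by
    refine ⟨?_⟩
    exact isCompact_univ.measure_lt_top
  intro d hd
  let W : ℕ → C(K, ℝ) := fun j => ⟨fun x => max (-(Z j x)) 0, by fun_prop⟩
  have hW0 : ∀ j x, 0 ≤ W j x := fun j x => le_max_right _ _
  have hWB : ∀ j x, W j x ≤ |B| := by
    intro j x
    have h1 : -(Z j x) ≤ |B| := (neg_le_abs _).trans ((hB j x).trans (le_abs_self B))
    exact max_le h1 (abs_nonneg B)
  have hlim : Tendsto (fun j => ∫ x, W j x ∂μ) atTop (𝓝 (∫ _x : K, (0 : ℝ) ∂μ)) := by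
    refine tendsto_integral_of_dominated_convergence (fun _ => |B|) ?_ ?_ ?_ ?_
    · intro j
      exact (W j).continuous.aestronglyMeasurable
    · exact integrable_const _
    · intro j
      refine Eventually.of_forall fun x => ?_
      rw [Real.norm_eq_abs, abs_of_nonneg (hW0 j x)]
      exact hWB j x
    · refine Eventually.of_forall fun x => ?_
      rw [Metric.tendsto_nhds]
      intro ε hε
      refine (h x (ε / 2) (half_pos hε)).mono fun j hj => ?_
      rw [Real.dist_eq, sub_zero, abs_of_nonneg (hW0 j x)]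
      have h1 : W j x ≤ ε / 2 := by
        refine max_le ?_ (half_pos hε).le
        linarith
      linarith
  rw [integral_zero, Metric.tendsto_nhds] at hlim
  refine (hlim d hd).mono fun j hj => ?_
  rw [hμ, Real.dist_eq, sub_zero] at hj
  have h1 : 0 ≤ L (Z j + W j) := by
    refine hL _ fun x => ?_
    show 0 ≤ Z j x + max (-(Z j x)) 0
    have := le_max_left (-(Z j x)) 0
    linarith
  rw [map_add] at h1
  have h2 := lt_of_abs_lt hj
  linarith
-- END m1

-- BEGIN m2
/-- PROOF. If not, the convex hull of the `Z j` does not meet the open convex set `V` of the `F` with `F > - k`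
(compactness), so `geometric_hahn_banach_open` gives `l`, `u` with `l F < u` on `V`, `u ≤ l` on the hull. `-l` is
positive (`F + t G ∈ V` for `F ∈ V`, `G ≥ 0`, `t ≥ 0`); `l (- k') < u` for `k' < k` gives `k (-l) 1 ≥ u`;
`(-l) (Z j) ≤ -u`, and `pos_lim` for `-l` gives `u ≤ 0`; then `(-l) 1 ≤ 0`... contradiction with `0 ∈ V`, `0 < u`. -/
theorem mazur_compact {K : Type} [TopologicalSpace K] [CompactSpace K] [T2Space K]
    (Z : ℕ → C(K, ℝ)) (B : ℝ) (hB : ∀ j x, |Z j x| ≤ B)
    (h : ∀ x, ∀ d > (0 : ℝ), ∀ᶠ j in atTop, -d ≤ Z j x) {k : ℝ} (hk : 0 < k) :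
    ∃ (m : ℕ) (b : ℕ → ℝ), (∀ j, 0 ≤ b j) ∧ ∑ j ∈ Finset.range m, b j = 1 ∧
      ∀ x, -k ≤ ∑ j ∈ Finset.range m, b j * Z j x := by
  set V : Set C(K, ℝ) := {F | ∀ x, -k < F x} with hV
  set H : Set C(K, ℝ) := convexHull ℝ (Set.range Z) with hH
  by_cases hd : Disjoint V H
  · exfalso
    have hVo : IsOpen V := by
      have e : V = {F : C(K, ℝ) | Set.MapsTo F Set.univ (Set.Ioi (-k))} := by
        ext F
        simp [hV, Set.MapsTo]
      rw [e]
      exact ContinuousMap.isOpen_setOfPred_mapsTo (X := K) (Y := ℝ) isCompact_univ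
        (isOpen_Ioi (a := -k))
    have hVc : Convex ℝ V := by
      intro F hF G hG a c ha hc hac x
      have e : (a • F + c • G) x = a * F x + c * G x := rfl
      rw [e]
      have h1 := hF x
      have h2 := hG x
      rcases ha.eq_or_lt with ha0 | ha0
      · have : c = 1 := by linarith
        subst this
        rw [← ha0]
        linarith
      · nlinarith [mul_lt_mul_of_pos_left h1 ha0, mul_le_mul_of_nonneg_left h2.le hc]
    obtain ⟨l, u, h1, h2⟩ := geometric_hahn_banach_open hVc hVo (convex_convexHull ℝ _) hd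
    have hu : 0 < u := by
      have := h1 0 (fun x => by simpa using hk)
      simpa using this
    have hpos : ∀ F : C(K, ℝ), (∀ x, 0 ≤ F x) → 0 ≤ (-l.toLinearMap) F := by
      intro F hF
      by_contra hneg
      push Not at hneg
      have hl : 0 < l F := by
        have : (-l.toLinearMap) F = -(l F) := rfl
        linarith
      have h3 := h1 ((u / l F) • F) (fun x => by
        have e : ((u / l F) • F) x = (u / l F) * F x := rfl
        rw [e]
        have : 0 ≤ (u / l F) * F x := mul_nonneg (by positivity) (hF x)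
        linarith)
      rw [map_smul, smul_eq_mul, div_mul_cancel₀ _ hl.ne'] at h3
      exact lt_irrefl _ h3
    have h4 := pos_lim (-l.toLinearMap) hpos Z B hB h (u / 2) (by positivity)
    obtain ⟨j, hj⟩ := h4.exists
    have h5 := h2 (Z j) (subset_convexHull ℝ _ ⟨j, rfl⟩)
    have h6 : (-l.toLinearMap) (Z j) = -(l (Z j)) := rfl
    linarith
  · rw [Set.not_disjoint_iff] at hd
    obtain ⟨F, hFV, hFH⟩ := hd
    rw [hH, convexHull_range_eq_exists_affineCombination] at hFH
    obtain ⟨s, w, hw, hs, hF⟩ := hFH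
    rw [Finset.affineCombination_eq_linear_combination _ _ _ hs] at hF
    obtain ⟨m, hm⟩ : ∃ m, s ⊆ Finset.range m := s.exists_nat_subset_range
    refine ⟨m, fun j => if j ∈ s then w j else 0, fun j => ?_, ?_, fun x => ?_⟩
    · by_cases hj : j ∈ s
      · simp only [if_pos hj]; exact hw j hj
      · simp only [if_neg hj]; exact le_rfl
    · rw [← hs, ← Finset.sum_filter]
      refine Finset.sum_congr ?_ fun _ _ => rfl
      ext j
      simp only [Finset.mem_filter]
      exact ⟨fun hj => hj.2, fun hj => ⟨hm hj, hj⟩⟩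
    · have e1 : ∑ j ∈ Finset.range m, (if j ∈ s then w j else 0) * Z j x = F x := by
        rw [← hF]
        have e2 : (∑ j ∈ s, w j • Z j) x = ∑ j ∈ s, w j * Z j x := by
          rw [ContinuousMap.sum_apply]
          rfl
        rw [e2]
        simp only [ite_mul, zero_mul]
        rw [← Finset.sum_filter]
        refine Finset.sum_congr ?_ fun _ _ => rfl
        ext j
        simp only [Finset.mem_filter]
        exact ⟨fun hj => hj.2, fun hj => ⟨hm hj, hj⟩⟩
      rw [e1]
      exact (hFV x).le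
-- END m2

-- BEGIN m3
/-- PROOF. `mazur_compact` for `K = Ultrafilter ℕ`, `Z j` the extension of `z j` (`Ultrafilter.extend` with values in
`Set.Icc (-B) B`, `continuous_ultrafilter_extend`; at the principal ultrafilter `pure n` its value is `z j n`). -/
theorem mazur (z : ℕ → ℕ → ℝ) (B : ℝ) (hB : ∀ j n, |z j n| ≤ B)
    (h : ∀ U : Ultrafilter ℕ, ∀ d > (0 : ℝ), ∀ᶠ j in atTop, ∀ᶠ n in (U : Filter ℕ), -d ≤ z j n)
    {k : ℝ} (hk : 0 < k) :
    ∃ (m : ℕ) (b : ℕ → ℝ), (∀ j, 0 ≤ b j) ∧ ∑ j ∈ Finset.range m, b j = 1 ∧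
      ∀ n, -k ≤ ∑ j ∈ Finset.range m, b j * z j n := by
  let w : ℕ → ℕ → Set.Icc (-B) B := fun j n => ⟨z j n, (abs_le.1 (hB j n)).1, (abs_le.1 (hB j n)).2⟩
  let Z : ℕ → C(Ultrafilter ℕ, ℝ) := fun j =>
    ⟨fun U => ((Ultrafilter.extend (w j) U : Set.Icc (-B) B) : ℝ),
      continuous_subtype_val.comp (continuous_ultrafilter_extend (w j))⟩
  have hlim : ∀ (j : ℕ) (U : Ultrafilter ℕ), Tendsto (z j) (U : Filter ℕ) (𝓝 (Z j U)) := by
    intro j U
    have h1 : Tendsto (w j) (U : Filter ℕ) (𝓝 (Ultrafilter.extend (w j) U)) :=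
      ultrafilter_extend_eq_iff.1 rfl
    exact (continuous_subtype_val.tendsto _).comp h1
  have hpure : ∀ (j n : ℕ), Z j (pure n) = z j n := by
    intro j n
    have h1 := hlim j (pure n)
    have h2 : Tendsto (z j) ((pure n : Ultrafilter ℕ) : Filter ℕ) (𝓝 (z j n)) := by
      rw [Ultrafilter.coe_pure]
      exact tendsto_pure_nhds _ _
    exact tendsto_nhds_unique h1 h2
  obtain ⟨m, b, hb, hs, hm⟩ := mazur_compact Z B
    (by
      intro j U
      have h1 := (Ultrafilter.extend (w j) U).2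
      exact abs_le.2 ⟨h1.1, h1.2⟩)
    (by
      intro U d hd
      filter_upwards [h U d hd] with j hj
      exact ge_of_tendsto (hlim j U) hj) hk
  refine ⟨m, b, hb, hs, fun n => ?_⟩
  have h1 := hm (pure n)
  simp only [hpure] at h1
  exact h1
-- END m3

end Pool.Agent.Orj
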