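import Mathlib
import Pool.Agent.Orj.Mix
import Pool.Agent.Orj.Mz

/-!
# The step (page, section 7)
-/

set_option autoImplicit false

open MeasureTheory Filter Topology

namespace Pool.Agent.Orj

variable {X : Type} [MeasurableSpace X] {μ : Measure X} [IsProbabilityMeasure μ] {T : X → X}

-- BEGIN s1
/-- bounded sequences have limits along ultrafilters -/
theorem exists_ulim (U : Ultrafilter ℕ) {z : ℕ → ℝ} {B : ℝ} (hz : ∀ n, |z n| ≤ B) :
    ∃ l : ℝ, |l| ≤ B ∧ Tendsto z U (𝓝 l) := by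
  have hc : IsCompact (Set.Icc (-B) B) := isCompact_Icc
  have hm : ((U.map z : Ultrafilter ℝ) : Filter ℝ) ≤ 𝓟 (Set.Icc (-B) B) := by
    rw [Ultrafilter.coe_map, Filter.le_principal_iff]
    exact Filter.mem_map.2 (Filter.Eventually.of_forall fun n => abs_le.1 (hz n))
  obtain ⟨l, hl, hU⟩ := hc.ultrafilter_le_nhds (U.map z) hm
  exact ⟨l, abs_le.2 hl, hU⟩

private theorem s1_center (hT : MeasurePreserving T μ μ) {s : ℝ} {g : ℕ → X → ℝ}
    (hg : SQ μ T s g) (r : ℕ) :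
    Tendsto (fun j => co μ T (fun x => g j x - ∫ y, g j y ∂μ) r) atTop (𝓝 1) := by
  have h4 : Tendsto (fun j : ℕ => s / (4 : ℝ) ^ j) atTop (𝓝 0) := by
    have := (tendsto_pow_atTop_nhds_zero_of_lt_one (r := (1 / 4 : ℝ)) (by norm_num)
      (by norm_num)).const_mul s
    rw [mul_zero] at this
    refine this.congr fun j => ?_
    rw [one_div, inv_pow, div_eq_mul_inv]
  have hlow : Tendsto (fun j : ℕ => 1 - ((r : ℝ) * (s / 4 ^ j)) ^ 2 / 2 - (s / 4 ^ j) ^ 2)
      atTop (𝓝 1) := by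
    have h := ((((h4.const_mul (r : ℝ)).pow 2).div_const 2).const_sub 1).sub (h4.pow 2)
    have e : (1 - ((r : ℝ) * 0) ^ 2 / 2 - (0 : ℝ) ^ 2) = 1 := by ring
    rw [e] at h
    exact h
  refine tendsto_of_tendsto_of_tendsto_of_le_of_le hlow tendsto_const_nhds (fun j => ?_)
    fun j => ?_
  · show 1 - ((r : ℝ) * (s / 4 ^ j)) ^ 2 / 2 - (s / 4 ^ j) ^ 2 ≤
      co μ T (fun x => g j x - ∫ y, g j y ∂μ) r
    rw [co_center hT (hg.bm j)]
    have h1 := co_ge hT (hg.bm j) (hg.sq j) r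
    have h2 : (∫ y, g j y ∂μ) ^ 2 ≤ (s / 4 ^ j) ^ 2 := by
      rw [← sq_abs (∫ y, g j y ∂μ)]
      exact pow_le_pow_left₀ (abs_nonneg _) (hg.mean j) 2
    have h3 : ((r : ℝ) * dT μ T (g j)) ^ 2 ≤ ((r : ℝ) * (s / 4 ^ j)) ^ 2 := by
      refine pow_le_pow_left₀ (mul_nonneg (Nat.cast_nonneg _) (nm_nonneg _)) ?_ 2
      exact mul_le_mul_of_nonneg_left (hg.inv j) (Nat.cast_nonneg _)
    linarith
  · show co μ T (fun x => g j x - ∫ y, g j y ∂μ) r ≤ 1
    rw [co_center hT (hg.bm j)]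
    have h1 := (abs_le.1 (abs_co_le_one hT (hg.bm j) (hg.sq j) r)).2
    have h2 := sq_nonneg (∫ y, g j y ∂μ)
    linarith

private theorem s1_abs (hT : MeasurePreserving T μ μ) {s : ℝ} {g : ℕ → X → ℝ}
    (hg : SQ μ T s g) (j r : ℕ) :
    |co μ T (fun x => g j x - ∫ y, g j y ∂μ) r| ≤ 2 := by
  have h1 := abs_le.1 (abs_co_le_one hT (hg.bm j) (hg.sq j) r)
  have h3 : |∫ y, g j y ∂μ| ≤ 1 := by
    have h4 : (fun x => g j x ^ 2) = fun _ => (1 : ℝ) := funext (hg.sq j)
    have h5 : nm μ (g j) = 1 := by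
      unfold nm
      rw [h4]
      simp
    rw [← h5]
    exact abs_int_le (hg.bm j)
  have h2 : (∫ y, g j y ∂μ) ^ 2 ≤ 1 := (sq_le_one_iff_abs_le_one _).2 h3
  have h6 := sq_nonneg (∫ y, g j y ∂μ)
  rw [co_center hT (hg.bm j), abs_le]
  constructor <;> linarith [h1.1, h1.2]

/-- the correlations of the sequence see the whole mass of the off-diagonals -/
theorem lim_low (hT : MeasurePreserving T μ μ) {s : ℝ} {g : ℕ → X → ℝ} (hg : SQ μ T s g)
    (U : Ultrafilter ℕ) {p : ℕ → ℝ} (hp0 : ∀ r, 0 ≤ p r) (hps : Summable p)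
    (hp : ∀ f : X → ℝ, BM f → ∫ x, f x ∂μ = 0 → ∀ l : ℝ, Tendsto (co μ T f) U (𝓝 l) →
      ∑' r, p r * co μ T f r ≤ l) :
    ∀ d > (0 : ℝ), ∀ᶠ j in atTop, ∀ᶠ n in (U : Filter ℕ), (∑' r, p r) - d ≤ co μ T (g j) n := by
  intro d hd
  have hlim : Tendsto (fun j => ∑' r, p r * co μ T (fun x => g j x - ∫ y, g j y ∂μ) r) atTop
      (𝓝 (∑' r, p r)) := by
    have h := tendsto_tsum_of_dominated_convergence (𝓕 := atTop) (bound := fun r => p r * 2)
      (f := fun j r => p r * co μ T (fun x => g j x - ∫ y, g j y ∂μ) r)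
      (g := fun r => p r * 1) (hps.mul_right 2)
      (fun r => (s1_center hT hg r).const_mul (p r))
      (Filter.Eventually.of_forall fun j r => by
        rw [Real.norm_eq_abs, abs_mul, abs_of_nonneg (hp0 r)]
        exact mul_le_mul_of_nonneg_left (s1_abs hT hg j r) (hp0 r))
    simpa using h
  have hev := hlim.eventually (lt_mem_nhds (show (∑' r, p r) - d / 2 < ∑' r, p r by linarith))
  filter_upwards [hev] with j hj
  obtain ⟨l, -, hl⟩ := exists_ulim U (s1_abs hT hg j)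
  have hbm : BM fun x => g j x - ∫ y, g j y ∂μ := (hg.bm j).sub (BM.const _)
  have hmean : ∫ x, (g j x - ∫ y, g j y ∂μ) ∂μ = 0 := by
    rw [integral_sub (hg.bm j).integrable (integrable_const _)]
    simp
  have h1 := hp _ hbm hmean l hl
  have h2 : ∀ᶠ n in (U : Filter ℕ), (∑' r, p r) - d <
      co μ T (fun x => g j x - ∫ y, g j y ∂μ) n :=
    hl.eventually (lt_mem_nhds (by linarith))
  filter_upwards [h2] with n hn
  rw [co_center hT (hg.bm j)] at hn
  linarith [sq_nonneg (∫ y, g j y ∂μ)]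
-- END s1

-- BEGIN s2
private theorem s2_abs (hT : MeasurePreserving T μ μ) {f : X → ℝ} (hf : BM f) (n : ℕ) :
    |co μ T f n| ≤ nm μ f * nm μ f := by
  rw [co_eq_cc]
  exact abs_cc_le hT hf hf 0 n

omit [IsProbabilityMeasure μ] in
private theorem s2_zero (f : X → ℝ) : 0 ≤ co μ T f 0 := by
  unfold co
  refine integral_nonneg fun x => ?_
  simp only [Function.iterate_zero, id_eq]
  exact mul_self_nonneg _

/-- the negative correlations are bounded by the mass of the off-diagonals -/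
theorem lim_up (hT : MeasurePreserving T μ μ) {f : X → ℝ} (hf : BM f) (hf0 : ∫ x, f x ∂μ = 0)
    {η : ℝ} (hη : 0 < η) (h : ∀ n, 1 ≤ n → -η ≤ co μ T f n)
    (U : Ultrafilter ℕ) {p : ℕ → ℝ} (hp0 : ∀ r, 0 ≤ p r) (hps : Summable p)
    (hp : ∀ f : X → ℝ, BM f → ∫ x, f x ∂μ = 0 → ∀ l : ℝ, Tendsto (co μ T f) U (𝓝 l) →
      ∑' r, p r * co μ T f r ≤ l) :
    ∀ d > (0 : ℝ), ∀ᶠ n in (U : Filter ℕ), max 0 (-(co μ T f n)) / η ≤ (∑' r, p r) + d := by
  intro d hd
  obtain ⟨l, -, hl⟩ := exists_ulim U (z := co μ T f) (s2_abs hT hf)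
  have h1 := hp f hf hf0 l hl
  have hge : ∀ r, -η ≤ co μ T f r := by
    intro r
    rcases Nat.eq_zero_or_pos r with rfl | hr
    · exact le_trans (by linarith) (s2_zero f)
    · exact h r hr
  have hs1 : Summable fun r => p r * co μ T f r := by
    refine Summable.of_norm_bounded (hps.mul_right (nm μ f * nm μ f)) fun r => ?_
    rw [Real.norm_eq_abs, abs_mul, abs_of_nonneg (hp0 r)]
    exact mul_le_mul_of_nonneg_left (s2_abs hT hf r) (hp0 r)
  have h2 : ∑' r, p r * (-η) ≤ ∑' r, p r * co μ T f r :=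
    (hps.mul_right (-η)).tsum_le_tsum (fun r => mul_le_mul_of_nonneg_left (hge r) (hp0 r)) hs1
  rw [tsum_mul_right] at h2
  have hq : 0 ≤ ∑' r, p r := tsum_nonneg hp0
  have h3 : -(((∑' r, p r) + d) * η) < l := by nlinarith
  filter_upwards [hl.eventually (lt_mem_nhds h3)] with n hn
  rw [div_le_iff₀ hη]
  refine max_le (by positivity) (by linarith)
-- END s2

-- BEGIN s3
private theorem s3_zero (n : ℕ) (s : ℝ) :
    Tendsto (fun j : ℕ => ((n : ℝ) * (s / 4 ^ j)) ^ 2 / 2) atTop (𝓝 0) := by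
  have h1 : Tendsto (fun j : ℕ => ((1 : ℝ) / 4) ^ j) atTop (𝓝 0) :=
    tendsto_pow_atTop_nhds_zero_of_lt_one (by norm_num) (by norm_num)
  have h2 : Tendsto (fun j : ℕ => ((n : ℝ) * (s * ((1 : ℝ) / 4) ^ j)) ^ 2 / 2) atTop
      (𝓝 (((n : ℝ) * (s * 0)) ^ 2 / 2)) :=
    (((h1.const_mul s).const_mul (n : ℝ)).pow 2).div_const 2
  have h3 : ((n : ℝ) * (s * 0)) ^ 2 / 2 = 0 := by simp
  rw [h3] at h2
  refine h2.congr (fun j => ?_)
  have h4 : s * ((1 : ℝ) / 4) ^ j = s / 4 ^ j := by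
    rw [one_div, inv_pow, ← div_eq_mul_inv]
  rw [h4]

omit [IsProbabilityMeasure μ] in
private theorem s3_tle {f : X → ℝ} {η : ℝ} (hη : 0 < η)
    (h : ∀ n, 1 ≤ n → -η ≤ co μ T f n) (n : ℕ) (hn : 1 ≤ n) :
    0 ≤ max 0 (-(co μ T f n)) / η ∧ max 0 (-(co μ T f n)) / η ≤ 1 := by
  refine ⟨div_nonneg (le_max_left _ _) hη.le, ?_⟩
  rw [div_le_one hη]
  refine max_le hη.le ?_
  have := h n hn
  linarith

/-- the weights -/
theorem weights (hT : MeasurePreserving T μ μ) (hP : OffDiag μ T) {s : ℝ} (hs : 0 ≤ s)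
    {g : ℕ → X → ℝ} (hg : SQ μ T s g) {f : X → ℝ} (hf : BM f) (hf0 : ∫ x, f x ∂μ = 0)
    {η : ℝ} (hη : 0 < η) (h : ∀ n, 1 ≤ n → -η ≤ co μ T f n) {k : ℝ} (hk : 0 < k) :
    ∃ (m : ℕ) (b : ℕ → ℝ), (∀ j, 0 ≤ b j) ∧ ∑ j ∈ Finset.range m, b j = 1 ∧
      ∀ n, 1 ≤ n → max 0 (-(co μ T f n)) / η - k ≤
        ∑ j ∈ Finset.range m, b j * co μ T (g j) n := by
  classical
  have hgo : ∀ j n, |co μ T (g j) n| ≤ 1 := fun j n => abs_co_le_one hT (hg.bm j) (hg.sq j) n
  obtain ⟨m, b, hb0, hb1, hb2⟩ := mazur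
    (fun j n => if n = 0 then 0 else co μ T (g j) n - max 0 (-(co μ T f n)) / η) 2 (by
      intro j n
      by_cases hn : n = 0
      · simp [hn]
      · simp only [if_neg hn]
        have h1 := abs_le.1 (hgo j n)
        have h2 := s3_tle (μ := μ) (T := T) hη h n (by omega)
        rw [abs_le]
        constructor <;> linarith [h1.1, h1.2, h2.1, h2.2])
    (by
      intro U d hd
      rcases Ultrafilter.le_cofinite_or_eq_pure U with hU | ⟨n, hU⟩
      · rw [Nat.cofinite_eq_atTop] at hU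
        obtain ⟨p, hp0, hps, hp1, hp⟩ := hP U hU
        have h1 := lim_low hT hg U hp0 hps hp (d / 2) (by linarith)
        have h2 := lim_up hT hf hf0 hη h U hp0 hps hp (d / 2) (by linarith)
        filter_upwards [h1] with j hj
        filter_upwards [hj, h2] with n h3 h4
        by_cases hn : n = 0
        · simp [hn, hd.le]
        · simp only [if_neg hn]
          linarith
      · subst hU
        by_cases hn : n = 0
        · subst hn
          refine Eventually.of_forall fun j => ?_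
          change ∀ᶠ n in pure 0, _
          rw [eventually_pure]
          simp [hd.le]
        · have h1 := (s3_zero n s).eventually (gt_mem_nhds hd)
          filter_upwards [h1] with j hj
          change ∀ᶠ n in pure n, _
          rw [eventually_pure]
          simp only [if_neg hn]
          have h2 := co_ge hT (hg.bm j) (hg.sq j) n
          have h3 := (s3_tle (μ := μ) (T := T) hη h n (by omega)).2
          have h4 : ((n : ℝ) * dT μ T (g j)) ^ 2 / 2 ≤ ((n : ℝ) * (s / 4 ^ j)) ^ 2 / 2 := by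
            have h5 : (0 : ℝ) ≤ dT μ T (g j) := nm_nonneg _
            have h6 := hg.inv j
            gcongr
          linarith) hk
  refine ⟨m, b, hb0, hb1, ?_⟩
  intro n hn
  have h1 := hb2 n
  have hn0 : n ≠ 0 := by omega
  simp only [if_neg hn0] at h1
  have h2 : ∑ j ∈ Finset.range m, b j * (co μ T (g j) n - max 0 (-(co μ T f n)) / η) =
      ∑ j ∈ Finset.range m, b j * co μ T (g j) n - max 0 (-(co μ T f n)) / η := by
    simp only [mul_sub, Finset.sum_sub_distrib, ← Finset.sum_mul]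
    rw [hb1, one_mul]
  rw [h2] at h1
  linarith
-- END s3

-- BEGIN s4
/-- the step, with `κ = 1 / 16` and the bound `12800` for `h` -/
theorem step (hT : MeasurePreserving T μ μ) (hw : WMix μ T)
    (hnt : ∃ A : Set X, MeasurableSet A ∧ 0 < μ A ∧ μ A < 1) (hP : OffDiag μ T)
    {f : X → ℝ} (hf : BM f) (hf0 : ∫ x, f x ∂μ = 0) {η : ℝ} (hη : 0 < η)
    (h : ∀ n, 1 ≤ n → -η ≤ co μ T f n) (N : ℕ) :
    ∃ h : X → ℝ, Measurable h ∧ (∀ x, |h x| ≤ 12800) ∧ ∫ x, h x ∂μ = 0 ∧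
      (∀ n, 1 ≤ n → -(η / 16) ≤ co μ T (fun x => f x + √(2 * η) * h x) n) ∧
      ∀ n, 1 ≤ n → n ≤ N → co μ T f n + η ≤ co μ T (fun x => f x + √(2 * η) * h x) n := by
  have hc : 0 < √(2 * η) := Real.sqrt_pos.2 (by linarith)
  have hc2 : √(2 * η) ^ 2 = 2 * η := Real.sq_sqrt (by linarith)
  obtain ⟨δ, hδ, hcr⟩ := cross_small hT hw hf hf0 (e := √(2 * η) / 256) (by positivity)
  obtain ⟨s, hs⟩ : ∃ s, s = min (1 / 1000) (min (δ / 2) (1 / (4 * ((N : ℝ) + 1)))) := ⟨_, rfl⟩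
  have hs0 : 0 < s := by
    rw [hs]
    exact lt_min (by norm_num) (lt_min (by positivity) (by positivity))
  have hs1 : s ≤ 1 / 1000 := by rw [hs]; exact min_le_left _ _
  have hs2 : s ≤ δ / 2 := by rw [hs]; exact (min_le_right _ _).trans (min_le_left _ _)
  have hs3 : s ≤ 1 / (4 * ((N : ℝ) + 1)) := by
    rw [hs]; exact (min_le_right _ _).trans (min_le_right _ _)
  obtain ⟨g, hg⟩ := exists_SQ hT hw hnt hs0
  obtain ⟨m, b, hb0, hb1, hb⟩ := weights hT hP hs0.le hg hf hf0 hη h (k := 1 / 128) (by norm_num)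
  obtain ⟨w, hwm, hwb, hw0, hw2, hwd, hwc⟩ := mixture hT hs0.le (by linarith) hg hb0 hb1
    (M := 6400) (by norm_num)
  have hwBM : BM w := ⟨hwm, 2 * 6400, hwb⟩
  have hcr' := hcr w hwBM hw2 (by linarith)
  have herr : s + 8 / 6400 + (2 * s + 2 / 6400) ^ 2 ≤ 1 / 400 := by nlinarith
  have hlow : ∀ n, (∑ j ∈ Finset.range m, b j * co μ T (g j) n) - 1 / 400 ≤ co μ T w n := by
    intro n
    have := hwc n
    linarith
  have hcross : ∀ n, -(η / 64) ≤ √(2 * η) * (cc μ T f w 0 n + cc μ T w f 0 n) := by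
    intro n
    have h1 := abs_le.1 (hcr' 0 n).1
    have h2 := abs_le.1 (hcr' 0 n).2
    have h3 : √(2 * η) * (-(√(2 * η) / 256) + -(√(2 * η) / 256)) ≤
        √(2 * η) * (cc μ T f w 0 n + cc μ T w f 0 n) :=
      mul_le_mul_of_nonneg_left (add_le_add h1.1 h2.1) hc.le
    have h4 : √(2 * η) * (-(√(2 * η) / 256) + -(√(2 * η) / 256)) = -(η / 64) := by
      have : √(2 * η) * (-(√(2 * η) / 256) + -(√(2 * η) / 256)) = -(√(2 * η) ^ 2 / 128) := by ring
      rw [this, hc2]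
      ring
    linarith
  refine ⟨w, hwm, fun x => (hwb x).trans (by norm_num), hw0, fun n hn => ?_, fun n hn hnN => ?_⟩
  · rw [co_add hT hf hwBM, hc2]
    have h1 := hb n hn
    have h2 := hlow n
    have h3 := hcross n
    have h4 := h n hn
    have h5 : max 0 (-(co μ T f n)) / η - 1 / 64 ≤ co μ T w n := by linarith
    have h6 : 2 * η * (max 0 (-(co μ T f n)) / η - 1 / 64) ≤ 2 * η * co μ T w n :=
      mul_le_mul_of_nonneg_left h5 (by linarith)
    have h7 : 2 * η * (max 0 (-(co μ T f n)) / η - 1 / 64) =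
        2 * max 0 (-(co μ T f n)) - η / 32 := by
      field_simp
      ring
    have h8 : -(co μ T f n) ≤ max 0 (-(co μ T f n)) := le_max_right _ _
    have h9 : (0 : ℝ) ≤ max 0 (-(co μ T f n)) := le_max_left _ _
    linarith
  · rw [co_add hT hf hwBM, hc2]
    have h2 := hlow n
    have h3 := hcross n
    have h10 : ∀ j, 1 - 1 / 32 ≤ co μ T (g j) n := by
      intro j
      have k1 := co_ge hT (hg.bm j) (hg.sq j) n
      have k2 := hg.inv j
      have k3 : s / 4 ^ j ≤ s := div_le_self hs0.le (one_le_pow₀ (by norm_num))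
      have k4 : 0 ≤ dT μ T (g j) := nm_nonneg _
      have k5 : (n : ℝ) * dT μ T (g j) ≤ 1 / 4 := by
        have k6 : (n : ℝ) ≤ (N : ℝ) + 1 := by
          have : (n : ℝ) ≤ N := by exact_mod_cast hnN
          linarith
        calc (n : ℝ) * dT μ T (g j) ≤ ((N : ℝ) + 1) * (1 / (4 * ((N : ℝ) + 1))) := by
              apply mul_le_mul k6 (by linarith) k4 (by positivity)
          _ = 1 / 4 := by field_simp
      have k7 : 0 ≤ (n : ℝ) * dT μ T (g j) := by positivity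
      nlinarith
    have h11 : 1 - 1 / 32 ≤ ∑ j ∈ Finset.range m, b j * co μ T (g j) n := by
      calc (1 : ℝ) - 1 / 32 = ∑ j ∈ Finset.range m, b j * (1 - 1 / 32) := by
            rw [← Finset.sum_mul, hb1, one_mul]
        _ ≤ _ := Finset.sum_le_sum fun j _ => mul_le_mul_of_nonneg_left (h10 j) (hb0 j)
    have h12 : 3 / 4 ≤ co μ T w n := by linarith
    have h13 : 2 * η * (3 / 4) ≤ 2 * η * co μ T w n :=
      mul_le_mul_of_nonneg_left h12 (by linarith)
    linarith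
-- END s4

end Pool.Agent.Orj
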