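import Mathlib
import Pool.Agent.Orj.Stp
import Pool.Agent.Orj.Den

/-!
# Over-recurrence at almost all times for every weakly mixing system

The iteration of `Pool.Agent.Orj.Stp` and `Pool.Agent.Orj.Fin` without the hypothesis on the limit points: outside a
set of density zero the correlations which occur in the step tend to their expected values.
-/

set_option autoImplicit false

open MeasureTheory Filter Topology

namespace Pool.Agent.Orj

variable {X : Type} [MeasurableSpace X] {μ : Measure X} [IsProbabilityMeasure μ] {T : X → X}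

private theorem w_zero (n : ℕ) (s : ℝ) :
    Tendsto (fun j : ℕ => ((n : ℝ) * (s / 4 ^ j)) ^ 2 / 2) atTop (𝓝 0) := by
  have h1 : Tendsto (fun j : ℕ => ((1 : ℝ) / 4) ^ j) atTop (𝓝 0) :=
    tendsto_pow_atTop_nhds_zero_of_lt_one (by norm_num) (by norm_num)
  have h2 : Tendsto (fun j : ℕ => ((n : ℝ) * (s * ((1 : ℝ) / 4) ^ j)) ^ 2 / 2) atTop
      (𝓝 (((n : ℝ) * (s * 0)) ^ 2 / 2)) :=
    (((h1.const_mul s).const_mul (n : ℝ)).pow 2).div_const 2
  have h3 : ((n : ℝ) * (s * 0)) ^ 2 / 2 = 0 := by simp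
  rw [h3] at h2
  refine h2.congr (fun j => ?_)
  have h4 : s * ((1 : ℝ) / 4) ^ j = s / 4 ^ j := by
    rw [one_div, inv_pow, ← div_eq_mul_inv]
  rw [h4]

omit [IsProbabilityMeasure μ] in
private theorem w_tle {f : X → ℝ} {η : ℝ} (hη : 0 < η) {n : ℕ} (h : -η ≤ co μ T f n) :
    0 ≤ max 0 (-(co μ T f n)) / η ∧ max 0 (-(co μ T f n)) / η ≤ 1 := by
  refine ⟨div_nonneg (le_max_left _ _) hη.le, ?_⟩
  rw [div_le_one hη]
  refine max_le hη.le ?_
  linarith

/-- the weights, outside a set `D` of exceptional times -/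
theorem weights_off (hT : MeasurePreserving T μ μ) {s : ℝ} (hs : 0 ≤ s)
    {g : ℕ → X → ℝ} (hg : SQ μ T s g) {f : X → ℝ} {η : ℝ} (hη : 0 < η) {D : Set ℕ}
    (h : ∀ n, 1 ≤ n → n ∉ D → -η ≤ co μ T f n)
    (hfD : ∀ d > (0 : ℝ), ∀ᶠ n in atTop, n ∉ D → -d ≤ co μ T f n)
    (hgD : ∀ j, ∀ d > (0 : ℝ), ∀ᶠ n in atTop, n ∉ D → -d ≤ co μ T (g j) n) {k : ℝ} (hk : 0 < k) :
    ∃ (m : ℕ) (b : ℕ → ℝ), (∀ j, 0 ≤ b j) ∧ ∑ j ∈ Finset.range m, b j = 1 ∧
      ∀ n, 1 ≤ n → n ∉ D → max 0 (-(co μ T f n)) / η - k ≤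
        ∑ j ∈ Finset.range m, b j * co μ T (g j) n := by
  classical
  have hgo : ∀ j n, |co μ T (g j) n| ≤ 1 := fun j n => abs_co_le_one hT (hg.bm j) (hg.sq j) n
  obtain ⟨m, b, hb0, hb1, hb2⟩ := mazur
    (fun j n => if n = 0 ∨ n ∈ D then 0 else co μ T (g j) n - max 0 (-(co μ T f n)) / η) 2 (by
      intro j n
      by_cases hn : n = 0 ∨ n ∈ D
      · simp [hn]
      · simp only [if_neg hn]
        have h1 := abs_le.1 (hgo j n)
        have h2 := w_tle (μ := μ) (T := T) hη (h n (by omega) (fun hc => hn (Or.inr hc)))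
        rw [abs_le]
        constructor <;> linarith [h1.1, h1.2, h2.1, h2.2])
    (by
      intro U d hd
      rcases Ultrafilter.le_cofinite_or_eq_pure U with hU | ⟨n, hU⟩
      · rw [Nat.cofinite_eq_atTop] at hU
        refine Eventually.of_forall fun j => ?_
        refine Filter.Eventually.filter_mono hU ?_
        filter_upwards [hgD j (d / 2) (by linarith), hfD (d / 2 * η) (by positivity)] with n h1 h2
        by_cases hn : n = 0 ∨ n ∈ D
        · simp only [if_pos hn]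
          linarith
        · simp only [if_neg hn]
          have hnD : n ∉ D := fun hc => hn (Or.inr hc)
          have h3 : max 0 (-(co μ T f n)) / η ≤ d / 2 := by
            rw [div_le_iff₀ hη]
            refine max_le (by positivity) ?_
            have := h2 hnD
            linarith
          have h4 := h1 hnD
          linarith
      · subst hU
        by_cases hn : n = 0 ∨ n ∈ D
        · refine Eventually.of_forall fun j => ?_
          change ∀ᶠ n in pure n, _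
          rw [eventually_pure]
          simp only [if_pos hn]
          linarith
        · have h1 := (w_zero n s).eventually (gt_mem_nhds hd)
          filter_upwards [h1] with j hj
          change ∀ᶠ n in pure n, _
          rw [eventually_pure]
          simp only [if_neg hn]
          have h2 := co_ge hT (hg.bm j) (hg.sq j) n
          have h3 := (w_tle (μ := μ) (T := T) hη (h n (by omega) (fun hc => hn (Or.inr hc)))).2
          have h4 : ((n : ℝ) * dT μ T (g j)) ^ 2 / 2 ≤ ((n : ℝ) * (s / 4 ^ j)) ^ 2 / 2 := by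
            have h5 : (0 : ℝ) ≤ dT μ T (g j) := nm_nonneg _
            have h6 := hg.inv j
            gcongr
          linarith) hk
  refine ⟨m, b, hb0, hb1, ?_⟩
  intro n hn hnD
  have h1 := hb2 n
  have hn0 : ¬ (n = 0 ∨ n ∈ D) := by
    rintro (h | h)
    · omega
    · exact hnD h
  simp only [if_neg hn0] at h1
  have h2 : ∑ j ∈ Finset.range m, b j * (co μ T (g j) n - max 0 (-(co μ T f n)) / η) =
      ∑ j ∈ Finset.range m, b j * co μ T (g j) n - max 0 (-(co μ T f n)) / η := by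
    simp only [mul_sub, Finset.sum_sub_distrib, ← Finset.sum_mul]
    rw [hb1, one_mul]
  rw [h2] at h1
  linarith

/-- along the times in `K` the correlations of every bounded function are asymptotically at least the square of its
integral -/
def PosAlong (μ : Measure X) (T : X → X) (K : Set ℕ) : Prop :=
  ∀ f : X → ℝ, BM f → ∀ d > (0 : ℝ), ∀ᶠ n in atTop, n ∈ K → (∫ x, f x ∂μ) ^ 2 - d ≤ co μ T f n

/-- outside a set of density zero, disjoint from `K`, the correlations of `f` and of all `g j` are asymptotically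
nonnegative -/
theorem exists_off (hT : MeasurePreserving T μ μ) (hw : WMix μ T) {K : Set ℕ} (hK : PosAlong μ T K)
    {f : X → ℝ} (hf : BM f) {g : ℕ → X → ℝ} (hg : ∀ j, BM (g j)) :
    ∃ G : Set ℕ, (∀ n ∈ G, n ∉ K) ∧ Dz G ∧ (∀ d > (0 : ℝ), ∀ᶠ n in atTop, n ∉ G → -d ≤ co μ T f n) ∧
      ∀ j, ∀ d > (0 : ℝ), ∀ᶠ n in atTop, n ∉ G → -d ≤ co μ T (g j) n := by
  have hKf : ∀ h : X → ℝ, BM h → ∀ d > (0 : ℝ), ∀ᶠ n in atTop, n ∈ K → -d ≤ co μ T h n := by
    intro h hh d hd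
    filter_upwards [hK h hh d hd] with n hn hnK
    have h1 := hn hnK
    have h2 := sq_nonneg (∫ x, h x ∂μ)
    linarith
  obtain ⟨G, hG, hc⟩ := common
    (fun j n => Nat.casesOn j |cc μ T f f 0 n - (∫ x, f x ∂μ) * ∫ x, f x ∂μ|
      fun i => |cc μ T (g i) (g i) 0 n - (∫ x, g i x ∂μ) * ∫ x, g i x ∂μ|)
    (by
      intro j n
      cases j with
      | zero => exact abs_nonneg _
      | succ i => exact abs_nonneg _)
    (by
      intro j
      cases j with
      | zero => exact hw.fun hT hf hf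
      | succ i => exact hw.fun hT (hg i) (hg i))
  refine ⟨G \ K, fun n hn => hn.2, hG.mono Set.sdiff_subset, fun d hd => ?_, fun j d hd => ?_⟩
  · filter_upwards [hc 0 d hd, hKf f hf d hd] with n hn hnK hnG
    by_cases hk : n ∈ K
    · exact hnK hk
    · have h1 := (abs_le.1 (hn fun hg => hnG ⟨hg, hk⟩)).1
      rw [co_eq_cc]
      have h2 := mul_self_nonneg (∫ x, f x ∂μ)
      linarith
  · filter_upwards [hc (j + 1) d hd, hKf (g j) (hg j) d hd] with n hn hnK hnG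
    by_cases hk : n ∈ K
    · exact hnK hk
    · have h1 := (abs_le.1 (hn fun hg => hnG ⟨hg, hk⟩)).1
      rw [co_eq_cc]
      have h2 := mul_self_nonneg (∫ x, g j x ∂μ)
      linarith

/-- the step with exceptional times -/
theorem step_off (hT : MeasurePreserving T μ μ) (hw : WMix μ T)
    (hnt : ∃ A : Set X, MeasurableSet A ∧ 0 < μ A ∧ μ A < 1) {K : Set ℕ} (hK : PosAlong μ T K)
    {f : X → ℝ} (hf : BM f) (hf0 : ∫ x, f x ∂μ = 0) {η : ℝ} (hη : 0 < η) {D : Set ℕ}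
    (h : ∀ n, 1 ≤ n → n ∉ D → -η ≤ co μ T f n) (N : ℕ) {δ : ℝ} (hδ : 0 < δ) :
    ∃ (h : X → ℝ) (E : Set ℕ), (∀ n ∈ E, n ∉ K) ∧ Dz E ∧ (∀ n, (dn E n : ℝ) ≤ δ * n) ∧
      Measurable h ∧ (∀ x, |h x| ≤ 12800) ∧ ∫ x, h x ∂μ = 0 ∧
      (∀ n, 1 ≤ n → n ∉ D → n ∉ E → -(η / 16) ≤ co μ T (fun x => f x + √(2 * η) * h x) n) ∧
      ∀ n, 1 ≤ n → n ≤ N → co μ T f n + η ≤ co μ T (fun x => f x + √(2 * η) * h x) n := by
  have hc : 0 < √(2 * η) := Real.sqrt_pos.2 (by linarith)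
  have hc2 : √(2 * η) ^ 2 = 2 * η := Real.sq_sqrt (by linarith)
  obtain ⟨δ₀, hδ₀, hcr⟩ := cross_small hT hw hf hf0 (e := √(2 * η) / 256) (by positivity)
  obtain ⟨s, hs⟩ : ∃ s, s = min (1 / 1000) (min (δ₀ / 2) (1 / (4 * ((N : ℝ) + 1)))) := ⟨_, rfl⟩
  have hs0 : 0 < s := by
    rw [hs]
    exact lt_min (by norm_num) (lt_min (by positivity) (by positivity))
  have hs1 : s ≤ 1 / 1000 := by rw [hs]; exact min_le_left _ _
  have hs2 : s ≤ δ₀ / 2 := by rw [hs]; exact (min_le_right _ _).trans (min_le_left _ _)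
  have hs3 : s ≤ 1 / (4 * ((N : ℝ) + 1)) := by
    rw [hs]; exact (min_le_right _ _).trans (min_le_right _ _)
  obtain ⟨g, hg⟩ := exists_SQ hT hw hnt hs0
  obtain ⟨G, hGK, hG, hGf, hGg⟩ := exists_off hT hw hK hf hg.bm
  obtain ⟨M, hM⟩ := cut hG hδ
  obtain ⟨m, b, hb0, hb1, hb⟩ := weights_off hT hs0.le hg (f := f) hη (D := D ∪ (G ∩ Set.Ioi M))
    (fun n hn hnD => h n hn fun hc => hnD (Or.inl hc))
    (fun d hd => by
      filter_upwards [hGf d hd, eventually_gt_atTop M] with n h1 h2 h3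
      exact h1 fun hc => h3 (Or.inr ⟨hc, h2⟩))
    (fun j d hd => by
      filter_upwards [hGg j d hd, eventually_gt_atTop M] with n h1 h2 h3
      exact h1 fun hc => h3 (Or.inr ⟨hc, h2⟩)) (k := 1 / 128) (by norm_num)
  obtain ⟨w, hwm, hwb, hw0, hw2, hwd, hwc⟩ := mixture hT hs0.le (by linarith) hg hb0 hb1
    (M := 6400) (by norm_num)
  have hwBM : BM w := ⟨hwm, 2 * 6400, hwb⟩
  have hcr' := hcr w hwBM hw2 (by linarith)
  have herr : s + 8 / 6400 + (2 * s + 2 / 6400) ^ 2 ≤ 1 / 400 := by nlinarith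
  have hlow : ∀ n, (∑ j ∈ Finset.range m, b j * co μ T (g j) n) - 1 / 400 ≤ co μ T w n := by
    intro n
    have := hwc n
    linarith
  have hcross : ∀ n, -(η / 64) ≤ √(2 * η) * (cc μ T f w 0 n + cc μ T w f 0 n) := by
    intro n
    have h1 := abs_le.1 (hcr' 0 n).1
    have h2 := abs_le.1 (hcr' 0 n).2
    have h3 : √(2 * η) * (-(√(2 * η) / 256) + -(√(2 * η) / 256)) ≤
        √(2 * η) * (cc μ T f w 0 n + cc μ T w f 0 n) :=
      mul_le_mul_of_nonneg_left (add_le_add h1.1 h2.1) hc.le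
    have h4 : √(2 * η) * (-(√(2 * η) / 256) + -(√(2 * η) / 256)) = -(η / 64) := by
      have : √(2 * η) * (-(√(2 * η) / 256) + -(√(2 * η) / 256)) = -(√(2 * η) ^ 2 / 128) := by ring
      rw [this, hc2]
      ring
    linarith
  refine ⟨w, G ∩ Set.Ioi M, fun n hn => hGK n hn.1, hG.mono Set.inter_subset_left, hM, hwm,
    fun x => (hwb x).trans (by norm_num), hw0, fun n hn hnD hnE => ?_, fun n hn hnN => ?_⟩
  · rw [co_add hT hf hwBM, hc2]
    have h1 := hb n hn (by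
      rintro (hc | hc)
      · exact hnD hc
      · exact hnE hc)
    have h2 := hlow n
    have h3 := hcross n
    have h5 : max 0 (-(co μ T f n)) / η - 1 / 64 ≤ co μ T w n := by linarith
    have h6 : 2 * η * (max 0 (-(co μ T f n)) / η - 1 / 64) ≤ 2 * η * co μ T w n :=
      mul_le_mul_of_nonneg_left h5 (by linarith)
    have h7 : 2 * η * (max 0 (-(co μ T f n)) / η - 1 / 64) =
        2 * max 0 (-(co μ T f n)) - η / 32 := by
      field_simp
      ring
    have h8 : -(co μ T f n) ≤ max 0 (-(co μ T f n)) := le_max_right _ _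
    have h9 : (0 : ℝ) ≤ max 0 (-(co μ T f n)) := le_max_left _ _
    linarith
  · rw [co_add hT hf hwBM, hc2]
    have h2 := hlow n
    have h3 := hcross n
    have h10 : ∀ j, 1 - 1 / 32 ≤ co μ T (g j) n := by
      intro j
      have k1 := co_ge hT (hg.bm j) (hg.sq j) n
      have k2 := hg.inv j
      have k3 : s / 4 ^ j ≤ s := div_le_self hs0.le (one_le_pow₀ (by norm_num))
      have k4 : 0 ≤ dT μ T (g j) := nm_nonneg _
      have k5 : (n : ℝ) * dT μ T (g j) ≤ 1 / 4 := by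
        have k6 : (n : ℝ) ≤ (N : ℝ) + 1 := by
          have : (n : ℝ) ≤ N := by exact_mod_cast hnN
          linarith
        calc (n : ℝ) * dT μ T (g j) ≤ ((N : ℝ) + 1) * (1 / (4 * ((N : ℝ) + 1))) := by
              apply mul_le_mul k6 (by linarith) k4 (by positivity)
          _ = 1 / 4 := by field_simp
      have k7 : 0 ≤ (n : ℝ) * dT μ T (g j) := by positivity
      nlinarith
    have h11 : 1 - 1 / 32 ≤ ∑ j ∈ Finset.range m, b j * co μ T (g j) n := by
      calc (1 : ℝ) - 1 / 32 = ∑ j ∈ Finset.range m, b j * (1 - 1 / 32) := by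
            rw [← Finset.sum_mul, hb1, one_mul]
        _ ≤ _ := Finset.sum_le_sum fun j _ => mul_le_mul_of_nonneg_left (h10 j) (hb0 j)
    have h12 : 3 / 4 ≤ co μ T w n := by linarith
    have h13 : 2 * η * (3 / 4) ≤ 2 * η * co μ T w n :=
      mul_le_mul_of_nonneg_left h12 (by linarith)
    linarith

private theorem i_step (hT : MeasurePreserving T μ μ) (hw : WMix μ T)
    (hnt : ∃ A : Set X, MeasurableSet A ∧ 0 < μ A ∧ μ A < 1) {K : Set ℕ} (hK : PosAlong μ T K) (N : ℕ → ℕ) {ε : ℝ} (hε : 0 < ε) (i : ℕ)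
    (p : (X → ℝ) × Set ℕ)
    (hf : BM p.1 ∧ ∫ x, p.1 x ∂μ = 0 ∧ ∀ n, 1 ≤ n → n ∉ p.2 → -(1 / 16 ^ i) ≤ co μ T p.1 n) :
    ∃ q : (X → ℝ) × Set ℕ, ((∀ n ∈ q.2, n ∉ K) ∧ Dz q.2 ∧ ∀ n, (dn q.2 n : ℝ) ≤ ε / 2 ^ (i + 1) * n) ∧
      (BM q.1 ∧ ∫ x, q.1 x ∂μ = 0 ∧ ∀ n, 1 ≤ n → n ∉ p.2 → n ∉ q.2 →
        -(1 / 16 ^ (i + 1)) ≤ co μ T q.1 n) ∧
      (∀ x, |q.1 x - p.1 x| ≤ 25600 / 4 ^ i) ∧
      ∀ n, 1 ≤ n → n ≤ N i → co μ T p.1 n + 1 / 16 ^ i ≤ co μ T q.1 n := by
  obtain ⟨hb, h0, hc⟩ := hf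
  have hη : (0 : ℝ) < 1 / 16 ^ i := by positivity
  obtain ⟨h, E, hE0, hE1, hE2, hm, hh, hi, h1, h2⟩ :=
    step_off hT hw hnt hK hb h0 hη hc (N i) (δ := ε / 2 ^ (i + 1)) (by positivity)
  have hhb : BM h := ⟨hm, 12800, hh⟩
  have hsq : √(2 * (1 / 16 ^ i : ℝ)) ≤ 2 / 4 ^ i := by
    rw [Real.sqrt_le_left (by positivity)]
    have e : ((2 : ℝ) / 4 ^ i) ^ 2 = 4 * (1 / 16 ^ i) := by
      rw [div_pow, ← pow_mul, mul_comm i 2, pow_mul]
      norm_num
      ring
    rw [e]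
    linarith
  have hs0 : 0 ≤ √(2 * (1 / 16 ^ i : ℝ)) := Real.sqrt_nonneg _
  refine ⟨(fun x => p.1 x + √(2 * (1 / 16 ^ i)) * h x, E), ⟨hE0, hE1, hE2⟩,
    ⟨hb.add (hhb.cmul _), ?_, ?_⟩, ?_, h2⟩
  · show ∫ x, (p.1 x + √(2 * (1 / 16 ^ i)) * h x) ∂μ = 0
    rw [integral_add hb.integrable (hhb.cmul _).integrable, integral_const_mul, h0, hi]
    ring
  · intro n hn hn1 hn2
    have := h1 n hn hn1 hn2
    have e : (1 : ℝ) / 16 ^ (i + 1) = 1 / 16 ^ i / 16 := by
      rw [pow_succ]; field_simp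
    rw [e]
    exact this
  · intro x
    show |p.1 x + √(2 * (1 / 16 ^ i)) * h x - p.1 x| ≤ _
    have e : p.1 x + √(2 * (1 / 16 ^ i)) * h x - p.1 x = √(2 * (1 / 16 ^ i)) * h x := by ring
    rw [e, abs_mul, abs_of_nonneg hs0]
    calc √(2 * (1 / 16 ^ i : ℝ)) * |h x| ≤ 2 / 4 ^ i * 12800 :=
          mul_le_mul hsq (hh x) (abs_nonneg _) (by positivity)
      _ = 25600 / 4 ^ i := by ring

/-- the sequence of functions and of sets of exceptional times -/
theorem iter_off (hT : MeasurePreserving T μ μ) (hw : WMix μ T)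
    (hnt : ∃ A : Set X, MeasurableSet A ∧ 0 < μ A ∧ μ A < 1) {K : Set ℕ} (hK : PosAlong μ T K)
    (N : ℕ → ℕ) {ε : ℝ} (hε : 0 < ε) :
    ∃ (F : ℕ → X → ℝ) (E : ℕ → Set ℕ), (∀ i, ∀ n ∈ E i, n ∉ K) ∧ (∀ i, Dz (E i)) ∧
      (∀ i n, (dn (E i) n : ℝ) ≤ ε / 2 ^ (i + 1) * n) ∧
      (∀ i, Measurable (F i)) ∧ (∀ x, F 0 x = 0) ∧
      (∀ i x, |F (i + 1) x - F i x| ≤ 25600 / 4 ^ i) ∧ (∀ i, ∫ x, F i x ∂μ = 0) ∧
      (∀ i n, 1 ≤ n → (∀ j, n ∉ E j) → -(1 / 16 ^ i) ≤ co μ T (F i) n) ∧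
      ∀ i n, 1 ≤ n → n ≤ N i → co μ T (F i) n + 1 / 16 ^ i ≤ co μ T (F (i + 1)) n := by
  classical
  choose! Q hQ1 hQ2 hQ3 hQ4 using i_step hT hw hnt hK N hε
  -- the state: the function and the union of the exceptional sets so far
  let S : ℕ → (X → ℝ) × Set ℕ := fun i =>
    Nat.rec ((fun _ => 0), ∅) (fun j p => ((Q j p).1, p.2 ∪ (Q j p).2)) i
  have hS0 : S 0 = ((fun _ => 0), ∅) := rfl
  have hSs : ∀ i, S (i + 1) = ((Q i (S i)).1, (S i).2 ∪ (Q i (S i)).2) := fun i => rfl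
  have key : ∀ i, BM (S i).1 ∧ ∫ x, (S i).1 x ∂μ = 0 ∧
      ∀ n, 1 ≤ n → n ∉ (S i).2 → -(1 / 16 ^ i) ≤ co μ T (S i).1 n := by
    intro i
    induction i with
    | zero =>
      rw [hS0]
      refine ⟨BM.const 0, by simp, fun n _ _ => ?_⟩
      simp [co]
    | succ i ih =>
      rw [hSs]
      obtain ⟨k1, k2, k3⟩ := hQ2 i (S i) ih
      refine ⟨k1, k2, fun n hn hnS => k3 n hn (fun hc => hnS (Or.inl hc)) fun hc => hnS (Or.inr hc)⟩
  have hsub : ∀ i n, n ∈ (S i).2 → ∃ j, n ∈ (Q j (S j)).2 := by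
    intro i n
    induction i with
    | zero => rw [hS0]; exact fun h => h.elim
    | succ i ih =>
      rw [hSs]
      rintro (h | h)
      · exact ih h
      · exact ⟨i, h⟩
  refine ⟨fun i => (S i).1, fun i => (Q i (S i)).2, fun i => (hQ1 i (S i) (key i)).1,
    fun i => (hQ1 i (S i) (key i)).2.1, fun i => (hQ1 i (S i) (key i)).2.2, fun i => (key i).1.1, fun x => rfl, fun i x => ?_,
    fun i => (key i).2.1, fun i n h1 h2 => ?_, fun i n h1 h2 => ?_⟩
  · show |(S (i + 1)).1 x - (S i).1 x| ≤ _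
    rw [hSs]
    exact hQ3 i (S i) (key i) x
  · refine (key i).2.2 n h1 fun hc => ?_
    obtain ⟨j, hj⟩ := hsub i n hc
    exact h2 j hj
  · show co μ T (S i).1 n + _ ≤ co μ T (S (i + 1)).1 n
    rw [hSs]
    exact hQ4 i (S i) (key i) n h1 h2

/-- the limit function -/
theorem pos_off (hT : MeasurePreserving T μ μ) (hw : WMix μ T)
    (hnt : ∃ A : Set X, MeasurableSet A ∧ 0 < μ A ∧ μ A < 1) {K : Set ℕ} (hK : PosAlong μ T K)
    (N : ℕ → ℕ) (hN : Monotone N) {ε : ℝ} (hε : 0 < ε) :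
    ∃ (f : X → ℝ) (D : Set ℕ), (∀ n ∈ D, n ∉ K) ∧ (∀ n, (dn D n : ℝ) ≤ ε * n) ∧ Dz D ∧ Measurable f ∧
      (∀ x, |f x| ≤ 40000) ∧ ∫ x, f x ∂μ = 0 ∧
      ∀ i n, 1 ≤ n → n ≤ N i → n ∉ D → 1 / 16 ^ (i + 1) ≤ co μ T f n := by
  obtain ⟨F, E, hE0, hE1, hE2, hFm, hF0, hFd, hFi, hFlow, hFup⟩ := iter_off hT hw hnt hK N hε
  obtain ⟨hD1, hD2⟩ := union hε E hE1 hE2
  have hdist : ∀ x i, dist (F i x) (F (i + 1) x) ≤ 25600 * (1 / 4 : ℝ) ^ i := by
    intro x i
    rw [dist_comm, Real.dist_eq]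
    have h1 := hFd i x
    have h2 : (25600 : ℝ) / 4 ^ i = 25600 * (1 / 4 : ℝ) ^ i := by
      rw [one_div, inv_pow]; rfl
    rw [← h2]
    exact h1
  have hr : (1 / 4 : ℝ) < 1 := by norm_num
  have hex : ∀ x, ∃ l, Tendsto (fun i => F i x) atTop (𝓝 l) := fun x =>
    cauchySeq_tendsto_of_complete (cauchySeq_of_le_geometric (1 / 4) 25600 hr (hdist x))
  choose f hf using hex
  have hfm : Measurable f := measurable_of_tendsto_metrizable hFm (tendsto_pi_nhds.2 hf)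
  have hfb : ∀ x, |f x| ≤ 40000 := by
    intro x
    have h1 := dist_le_of_le_geometric_of_tendsto₀ (1 / 4) 25600 hr (hdist x) (hf x)
    rw [hF0 x, Real.dist_eq, zero_sub, abs_neg] at h1
    refine h1.trans ?_
    norm_num
  have hFb : ∀ i x, |F i x| ≤ 80000 := by
    intro i x
    have h1 := dist_le_of_le_geometric_of_tendsto (1 / 4) 25600 hr (hdist x) (hf x) i
    rw [Real.dist_eq] at h1
    have h2 : (25600 : ℝ) * (1 / 4) ^ i / (1 - 1 / 4) ≤ 40000 := by
      have h3 : (1 / 4 : ℝ) ^ i ≤ 1 := pow_le_one₀ (by norm_num) (by norm_num)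
      rw [div_le_iff₀ (by norm_num)]
      linarith
    have h4 := abs_sub_abs_le_abs_sub (F i x) (f x)
    have h5 := hfb x
    linarith
  have hint : Tendsto (fun i => ∫ x, F i x ∂μ) atTop (𝓝 (∫ x, f x ∂μ)) := by
    refine tendsto_integral_of_dominated_convergence (fun _ => (80000 : ℝ))
      (fun i => (hFm i).aestronglyMeasurable) (integrable_const _) ?_ ?_
    · intro i
      exact Eventually.of_forall fun x => by rw [Real.norm_eq_abs]; exact hFb i x
    · exact Eventually.of_forall hf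
  have hint0 : ∫ x, f x ∂μ = 0 := by
    have h1 : (fun i => ∫ x, F i x ∂μ) = fun _ => (0 : ℝ) := funext hFi
    rw [h1] at hint
    exact tendsto_nhds_unique hint tendsto_const_nhds
  have hco : ∀ n, Tendsto (fun i => co μ T (F i) n) atTop (𝓝 (co μ T f n)) := by
    intro n
    unfold co
    refine tendsto_integral_of_dominated_convergence (fun _ => (80000 : ℝ) * 80000)
      (fun i => ((hFm i).mul ((hFm i).comp (hT.measurable.iterate n))).aestronglyMeasurable)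
      (integrable_const _) ?_ ?_
    · intro i
      refine Eventually.of_forall fun x => ?_
      rw [norm_mul, Real.norm_eq_abs, Real.norm_eq_abs]
      exact mul_le_mul (hFb i x) (hFb i _) (abs_nonneg _) (by norm_num)
    · exact Eventually.of_forall fun x => (hf x).mul (hf _)
  refine ⟨f, ⋃ i, E i, fun n hn => by
    obtain ⟨i, hi⟩ := Set.mem_iUnion.1 hn
    exact hE0 i n hi, hD1, hD2, hfm, hfb, hint0, fun i n hn hni hnD => ?_⟩
  have hnE : ∀ j, n ∉ E j := fun j hj => hnD (Set.mem_iUnion.2 ⟨j, hj⟩)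
  have hpos : ∀ i : ℕ, 0 < (1 : ℝ) / 16 ^ i := fun i => by positivity
  have hNi : ∀ k, n ≤ N (i + k) := fun k => hni.trans (hN (Nat.le_add_right i k))
  have h1 : 0 ≤ co μ T (F (i + 1)) n := by
    have h2 := hFlow i n hn hnE
    have h3 := hFup i n hn hni
    linarith
  have h4 : 1 / 16 ^ (i + 1) ≤ co μ T (F (i + 2)) n := by
    have h5 := hFup (i + 1) n hn (hNi 1)
    linarith
  have h6 : ∀ k, 1 / 16 ^ (i + 1) ≤ co μ T (F (i + 2 + k)) n := by
    intro k
    induction k with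
    | zero => exact h4
    | succ k ih =>
      have h7 := hFup (i + 2 + k) n hn (by rw [add_assoc]; exact hNi (2 + k))
      have h8 := hpos (i + 2 + k)
      have h9 : i + 2 + (k + 1) = i + 2 + k + 1 := rfl
      rw [h9]
      linarith
  refine ge_of_tendsto (hco n) ?_
  filter_upwards [eventually_ge_atTop (i + 2)] with k hk
  obtain ⟨j, rfl⟩ := Nat.exists_eq_add_of_le hk
  exact h6 j

end Pool.Agent.Orj
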