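import Mathlib
import Pool.Agent.Orj.Alm

/-!
# Over-recurrence at almost all times, with a rate and values in `[0, 1]`
-/

set_option autoImplicit false

open MeasureTheory Filter Topology

namespace Pool.Agent.Orj

variable {X : Type} [MeasurableSpace X] {μ : Measure X} [IsProbabilityMeasure μ] {T : X → X}

theorem dn_eq (D : Set ℕ) (n : ℕ) : dn D n = (D ∩ Set.Icc 1 n).ncard := by
  classical
  have h : D ∩ Set.Icc 1 n = ((Finset.Icc 1 n).filter fun t => t ∈ D : Finset ℕ) := by
    ext t
    simp only [Set.mem_inter_iff, Set.mem_Icc, Finset.coe_filter, Finset.mem_Icc, Set.mem_ofPred_eq]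
    tauto
  rw [h, Set.ncard_coe_finset]
  unfold dn
  congr

/-- values in `[0, 1]` -/
private theorem aff (hT : MeasurePreserving T μ μ) {f : X → ℝ} (hfm : Measurable f)
    (hfb : ∀ x, |f x| ≤ 40000) (h0 : ∫ x, f x ∂μ = 0) (n : ℕ) :
    ∫ x, (f x + 40000) / 80000 ∂μ = 1 / 2 ∧
      ∫ x, (f x + 40000) / 80000 * ((f (T^[n] x) + 40000) / 80000) ∂μ =
        1 / 4 + co μ T f n / 6400000000 := by
  have hTn : MeasurePreserving T^[n] μ μ := hT.iterate n
  have hi : Integrable f μ := Integrable.of_bound hfm.aestronglyMeasurable 40000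
    (Eventually.of_forall hfb)
  have hfn : Measurable fun x => f (T^[n] x) := hfm.comp hTn.measurable
  have hin : Integrable (fun x => f (T^[n] x)) μ :=
    Integrable.of_bound hfn.aestronglyMeasurable 40000 (Eventually.of_forall fun x => hfb _)
  have h0n : ∫ x, f (T^[n] x) ∂μ = 0 := by
    have h1 : ∫ x, f (T^[n] x) ∂μ = ∫ x, f x ∂(μ.map T^[n]) :=
      (integral_map hTn.measurable.aemeasurable hfm.aestronglyMeasurable).symm
    rw [h1, hTn.map_eq, h0]
  have hip : Integrable (fun x => f x * f (T^[n] x)) μ := by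
    refine Integrable.of_bound (hfm.mul hfn).aestronglyMeasurable (40000 * 40000)
      (Eventually.of_forall fun x => ?_)
    rw [Real.norm_eq_abs, abs_mul]
    exact mul_le_mul (hfb _) (hfb _) (abs_nonneg _) (by norm_num)
  constructor
  · rw [integral_div, integral_add hi (integrable_const _), h0]
    simp
    norm_num
  · have e3 : (fun x => (f x + 40000) / 80000 * ((f (T^[n] x) + 40000) / 80000)) =
        fun x => (f x * f (T^[n] x) + 40000 * f x + 40000 * f (T^[n] x) + 1600000000) /
          6400000000 := by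
      funext x
      ring
    have i1 : Integrable (fun x => f x * f (T^[n] x) + 40000 * f x) μ :=
      hip.add (hi.const_mul 40000)
    have i2 : Integrable (fun x => f x * f (T^[n] x) + 40000 * f x + 40000 * f (T^[n] x)) μ :=
      i1.add (hin.const_mul 40000)
    rw [e3, integral_div, integral_add i2 (integrable_const _),
      integral_add i1 (hin.const_mul 40000), integral_add hip (hi.const_mul 40000),
      integral_const_mul, integral_const_mul, h0, h0n]
    unfold co
    simp
    ring

/-- the final form -/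
theorem rate_off (hT : MeasurePreserving T μ μ) (hw : WMix μ T)
    (hnt : ∃ A : Set X, MeasurableSet A ∧ 0 < μ A ∧ μ A < 1) {K : Set ℕ} (hK : PosAlong μ T K)
    {a : ℕ → ℝ} (ha : Tendsto a atTop (𝓝 0)) (hac : ∀ n, 1 ≤ n → a n ≤ 1 / 10 ^ 12)
    {ε : ℝ} (hε : 0 < ε) :
    ∃ (f : X → ℝ) (D : Set ℕ), (∀ n ∈ D, n ∉ K) ∧ (∀ n, (dn D n : ℝ) ≤ ε * n) ∧ Dz D ∧
      Measurable f ∧ (∀ x, 0 ≤ f x ∧ f x ≤ 1) ∧
      ∀ n, 1 ≤ n → n ∉ D → (∫ x, f x ∂μ) ^ 2 + a n < ∫ x, f x * f (T^[n] x) ∂μ := by
  have hM : ∀ i : ℕ, ∃ M : ℕ, ∀ n, M < n → a n * 6400000000 < 1 / 16 ^ (i + 2) := by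
    intro i
    have h1 : Tendsto (fun n => a n * 6400000000) atTop (𝓝 0) := by
      have := ha.mul_const (6400000000 : ℝ)
      rwa [zero_mul] at this
    have h2 := h1.eventually (gt_mem_nhds (show (0 : ℝ) < 1 / 16 ^ (i + 2) by positivity))
    obtain ⟨M, hM⟩ := eventually_atTop.1 h2
    exact ⟨M, fun n hn => hM n hn.le⟩
  choose M hM using hM
  let N : ℕ → ℕ := fun i => i + ∑ j ∈ Finset.range (i + 1), M j
  have hN : Monotone N := by
    intro i j hij
    refine add_le_add hij ?_
    exact Finset.sum_le_sum_of_subset (Finset.range_subset_range.2 (by omega))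
  have hNM : ∀ i, M i ≤ N i := by
    intro i
    refine le_add_left ?_
    exact Finset.single_le_sum (f := M) (fun j _ => Nat.zero_le _) (Finset.mem_range.2 (by omega))
  have hNi : ∀ i, i ≤ N i := fun i => Nat.le_add_right _ _
  obtain ⟨f, D, hDK, hD1, hD2, hfm, hfb, hf0, hf⟩ := pos_off hT hw hnt hK N hN hε
  refine ⟨fun x => (f x + 40000) / 80000, D, hDK, hD1, hD2, (hfm.add_const _).div_const _,
    fun x => ?_, fun n hn hnD => ?_⟩
  · have h1 := abs_le.1 (hfb x)
    constructor
    · exact div_nonneg (by linarith) (by norm_num)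
    · rw [div_le_one (by norm_num)]
      linarith
  · obtain ⟨h1, h2⟩ := aff hT hfm hfb hf0 n
    rw [h1]
    show _ < ∫ x, (f x + 40000) / 80000 * ((f (T^[n] x) + 40000) / 80000) ∂μ
    rw [h2]
    have hkey : a n * 6400000000 < co μ T f n := by
      classical
      have hex : ∃ i, n ≤ N i := ⟨n, hNi n⟩
      obtain ⟨i, hi, hmin⟩ : ∃ i, n ≤ N i ∧ ∀ j < i, ¬ n ≤ N j :=
        ⟨Nat.find hex, Nat.find_spec hex, fun j hj => Nat.find_min hex hj⟩
      have h3 := hf i n hn hi hnD
      cases i with
      | zero =>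
        have h4 := hac n hn
        norm_num at h3 h4
        linarith
      | succ j =>
        have h4 := hmin j (Nat.lt_succ_self j)
        have h5 := hM j n (lt_of_le_of_lt (hNM j) (not_le.1 h4))
        have h6 : j + 1 + 1 = j + 2 := rfl
        rw [h6] at h3
        linarith
    have h3 : a n < co μ T f n / 6400000000 := by
      rw [lt_div_iff₀ (by norm_num)]
      exact hkey
    norm_num
    linarith

end Pool.Agent.Orj
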