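import Mathlib
import Pool.Agent.Orj.Stp

/-!
# The iteration and the theorem (page, section 8)
-/

set_option autoImplicit false

open MeasureTheory Filter Topology

namespace Pool.Agent.Orj

variable {X : Type} [MeasurableSpace X] {μ : Measure X} [IsProbabilityMeasure μ] {T : X → X}

-- BEGIN f1
private theorem f1_step (hT : MeasurePreserving T μ μ) (hw : WMix μ T)
    (hnt : ∃ A : Set X, MeasurableSet A ∧ 0 < μ A ∧ μ A < 1) (hP : OffDiag μ T) (i : ℕ)
    (f : X → ℝ) (hf : BM f ∧ ∫ x, f x ∂μ = 0 ∧ ∀ n, 1 ≤ n → -(1 / 16 ^ i) ≤ co μ T f n) :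
    ∃ g : X → ℝ, (BM g ∧ ∫ x, g x ∂μ = 0 ∧ ∀ n, 1 ≤ n → -(1 / 16 ^ (i + 1)) ≤ co μ T g n) ∧
      (∀ x, |g x - f x| ≤ 25600 / 4 ^ i) ∧
      ∀ n, 1 ≤ n → n ≤ i → co μ T f n + 1 / 16 ^ i ≤ co μ T g n := by
  obtain ⟨hb, h0, hc⟩ := hf
  have hη : (0 : ℝ) < 1 / 16 ^ i := by positivity
  obtain ⟨h, hm, hh, hi, h1, h2⟩ := step hT hw hnt hP hb h0 hη hc i
  have hhb : BM h := ⟨hm, 12800, hh⟩
  have hsq : √(2 * (1 / 16 ^ i : ℝ)) ≤ 2 / 4 ^ i := by
    rw [Real.sqrt_le_left (by positivity)]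
    have e : ((2 : ℝ) / 4 ^ i) ^ 2 = 4 * (1 / 16 ^ i) := by
      rw [div_pow, ← pow_mul, mul_comm i 2, pow_mul]
      norm_num
      ring
    rw [e]
    linarith
  have hs0 : 0 ≤ √(2 * (1 / 16 ^ i : ℝ)) := Real.sqrt_nonneg _
  refine ⟨fun x => f x + √(2 * (1 / 16 ^ i)) * h x, ⟨hb.add (hhb.cmul _), ?_, ?_⟩, ?_, h2⟩
  · rw [integral_add hb.integrable (hhb.cmul _).integrable, integral_const_mul, h0, hi]
    ring
  · intro n hn
    have := h1 n hn
    have e : (1 : ℝ) / 16 ^ (i + 1) = 1 / 16 ^ i / 16 := by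
      rw [pow_succ]; field_simp
    rw [e]
    exact this
  · intro x
    have e : f x + √(2 * (1 / 16 ^ i)) * h x - f x = √(2 * (1 / 16 ^ i)) * h x := by ring
    rw [e, abs_mul, abs_of_nonneg hs0]
    calc √(2 * (1 / 16 ^ i : ℝ)) * |h x| ≤ 2 / 4 ^ i * 12800 :=
          mul_le_mul hsq (hh x) (abs_nonneg _) (by positivity)
      _ = 25600 / 4 ^ i := by ring

/-- the sequence of section 8 -/
theorem exists_iter (hT : MeasurePreserving T μ μ) (hw : WMix μ T)
    (hnt : ∃ A : Set X, MeasurableSet A ∧ 0 < μ A ∧ μ A < 1) (hP : OffDiag μ T) :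
    ∃ F : ℕ → X → ℝ, (∀ i, Measurable (F i)) ∧ (∀ x, F 0 x = 0) ∧
      (∀ i x, |F (i + 1) x - F i x| ≤ 25600 / 4 ^ i) ∧ (∀ i, ∫ x, F i x ∂μ = 0) ∧
      (∀ i n, 1 ≤ n → -(1 / 16 ^ i) ≤ co μ T (F i) n) ∧
      ∀ i n, 1 ≤ n → n ≤ i → co μ T (F i) n + 1 / 16 ^ i ≤ co μ T (F (i + 1)) n := by
  classical
  choose! G hG1 hG2 hG3 using f1_step hT hw hnt hP
  let F : ℕ → X → ℝ := fun i => Nat.rec (fun _ => 0) (fun j f => G j f) i
  have hF0 : F 0 = fun _ => 0 := rfl
  have hFs : ∀ i, F (i + 1) = G i (F i) := fun i => rfl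
  have key : ∀ i, BM (F i) ∧ ∫ x, F i x ∂μ = 0 ∧
      ∀ n, 1 ≤ n → -(1 / 16 ^ i) ≤ co μ T (F i) n := by
    intro i
    induction i with
    | zero =>
      rw [hF0]
      refine ⟨BM.const 0, by simp, fun n _ => ?_⟩
      simp [co]
    | succ i ih =>
      rw [hFs]
      exact hG1 i (F i) ih
  refine ⟨F, fun i => (key i).1.1, fun x => rfl, fun i x => ?_, fun i => (key i).2.1,
    fun i => (key i).2.2, fun i n h1 h2 => ?_⟩
  · rw [hFs]
    exact hG2 i (F i) (key i) x
  · rw [hFs]
    exact hG3 i (F i) (key i) n h1 h2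
-- END f1

-- BEGIN f2
/-- the limit; compare `Pool.Agent.OverRec.exists_function` (helper73, in the library) -/
theorem exists_pos (hT : MeasurePreserving T μ μ) (hw : WMix μ T)
    (hnt : ∃ A : Set X, MeasurableSet A ∧ 0 < μ A ∧ μ A < 1) (hP : OffDiag μ T) :
    ∃ f : X → ℝ, BM f ∧ ∫ x, f x ∂μ = 0 ∧ ∀ n, 1 ≤ n → 0 < co μ T f n := by
  obtain ⟨F, hFm, hF0, hFd, hFi, hFlow, hFup⟩ := exists_iter hT hw hnt hP
  have hdist : ∀ x i, dist (F i x) (F (i + 1) x) ≤ 25600 * (1 / 4 : ℝ) ^ i := by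
    intro x i
    rw [dist_comm, Real.dist_eq]
    have h1 := hFd i x
    have h2 : (25600 : ℝ) / 4 ^ i = 25600 * (1 / 4 : ℝ) ^ i := by
      rw [one_div, inv_pow]; rfl
    rw [← h2]
    exact h1
  have hr : (1 / 4 : ℝ) < 1 := by norm_num
  have hex : ∀ x, ∃ l, Tendsto (fun i => F i x) atTop (𝓝 l) := fun x =>
    cauchySeq_tendsto_of_complete (cauchySeq_of_le_geometric (1 / 4) 25600 hr (hdist x))
  choose f hf using hex
  have hfm : Measurable f := measurable_of_tendsto_metrizable hFm (tendsto_pi_nhds.2 hf)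
  have hfb : ∀ x, |f x| ≤ 40000 := by
    intro x
    have h1 := dist_le_of_le_geometric_of_tendsto₀ (1 / 4) 25600 hr (hdist x) (hf x)
    rw [hF0 x, Real.dist_eq, zero_sub, abs_neg] at h1
    refine h1.trans ?_
    norm_num
  have hFb : ∀ i x, |F i x| ≤ 80000 := by
    intro i x
    have h1 := dist_le_of_le_geometric_of_tendsto (1 / 4) 25600 hr (hdist x) (hf x) i
    rw [Real.dist_eq] at h1
    have h2 : (25600 : ℝ) * (1 / 4) ^ i / (1 - 1 / 4) ≤ 40000 := by
      have h3 : (1 / 4 : ℝ) ^ i ≤ 1 := pow_le_one₀ (by norm_num) (by norm_num)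
      rw [div_le_iff₀ (by norm_num)]
      linarith
    have h4 := abs_sub_abs_le_abs_sub (F i x) (f x)
    have h5 := hfb x
    linarith
  have hint : Tendsto (fun i => ∫ x, F i x ∂μ) atTop (𝓝 (∫ x, f x ∂μ)) := by
    refine tendsto_integral_of_dominated_convergence (fun _ => (80000 : ℝ))
      (fun i => (hFm i).aestronglyMeasurable) (integrable_const _) ?_ ?_
    · intro i
      exact Eventually.of_forall fun x => by rw [Real.norm_eq_abs]; exact hFb i x
    · exact Eventually.of_forall hf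
  have hint0 : ∫ x, f x ∂μ = 0 := by
    have h1 : (fun i => ∫ x, F i x ∂μ) = fun _ => (0 : ℝ) := funext hFi
    rw [h1] at hint
    exact tendsto_nhds_unique hint tendsto_const_nhds
  have hco : ∀ n, Tendsto (fun i => co μ T (F i) n) atTop (𝓝 (co μ T f n)) := by
    intro n
    unfold co
    refine tendsto_integral_of_dominated_convergence (fun _ => (80000 : ℝ) * 80000)
      (fun i => ((hFm i).mul ((hFm i).comp (hT.measurable.iterate n))).aestronglyMeasurable)
      (integrable_const _) ?_ ?_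
    · intro i
      refine Eventually.of_forall fun x => ?_
      rw [norm_mul, Real.norm_eq_abs, Real.norm_eq_abs]
      exact mul_le_mul (hFb i x) (hFb i _) (abs_nonneg _) (by norm_num)
    · exact Eventually.of_forall fun x => (hf x).mul (hf _)
  refine ⟨f, ⟨hfm, 40000, hfb⟩, hint0, fun n hn => ?_⟩
  have hpos : ∀ i : ℕ, 0 < (1 : ℝ) / 16 ^ i := fun i => by positivity
  have h1 : 0 ≤ co μ T (F (n + 1)) n := by
    have h2 := hFlow n n hn
    have h3 := hFup n n hn le_rfl
    linarith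
  have h4 : 1 / 16 ^ (n + 1) ≤ co μ T (F (n + 2)) n := by
    have h5 := hFup (n + 1) n hn (by omega)
    linarith
  have h6 : ∀ i, 1 / 16 ^ (n + 1) ≤ co μ T (F (n + 2 + i)) n := by
    intro i
    induction i with
    | zero => exact h4
    | succ i ih =>
      have h7 := hFup (n + 2 + i) n hn (by omega)
      have h8 := hpos (n + 2 + i)
      have h9 : n + 2 + (i + 1) = n + 2 + i + 1 := rfl
      rw [h9]
      linarith
  have h10 : 1 / 16 ^ (n + 1) ≤ co μ T f n := by
    refine ge_of_tendsto (hco n) ?_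
    filter_upwards [eventually_ge_atTop (n + 2)] with i hi
    obtain ⟨j, rfl⟩ := Nat.exists_eq_add_of_le hi
    exact h6 j
  exact lt_of_lt_of_le (hpos (n + 1)) h10
-- END f2

-- BEGIN f3
omit [IsProbabilityMeasure μ] in
private theorem f3_int {Y : Type} [MeasurableSpace Y] {ν : Measure Y} {π : X → Y}
    (hπ : MeasurePreserving π μ ν) {h : Y → ℝ} (hm : Measurable h) :
    ∫ x, h (π x) ∂μ = ∫ y, h y ∂ν := by
  rw [← hπ.map_eq, integral_map hπ.measurable.aemeasurable hm.aestronglyMeasurable]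

private theorem f3_bdd {Z : Type} [MeasurableSpace Z] {m : Measure Z} [IsProbabilityMeasure m]
    {h : Z → ℝ} (hm : Measurable h) {C : ℝ} (hC : ∀ x, |h x| ≤ C) : Integrable h m :=
  Integrable.of_bound hm.aestronglyMeasurable C (Eventually.of_forall hC)

omit [IsProbabilityMeasure μ] in
private theorem f3_iter {Y : Type} {S : Y → Y} (hT : MeasurePreserving T μ μ) {π : X → Y}
    (hc : ∀ᵐ x ∂μ, π (T x) = S (π x)) (n : ℕ) : ∀ᵐ x ∂μ, π (T^[n] x) = S^[n] (π x) := by
  induction n with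
  | zero => exact Eventually.of_forall fun x => rfl
  | succ n ih =>
    have h1 : ∀ᵐ x ∂μ, π (T^[n] (T x)) = S^[n] (π (T x)) := hT.quasiMeasurePreserving.ae ih
    filter_upwards [h1, hc] with x hx hx2
    rw [Function.iterate_succ_apply, Function.iterate_succ_apply, hx, hx2]

/-- values in `[0, 1]`, and composition with a factor map -/
theorem to_factor {Y : Type} [MeasurableSpace Y] {ν : Measure Y} [IsProbabilityMeasure ν]
    {S : Y → Y} (hT : MeasurePreserving T μ μ) (hS : MeasurePreserving S ν ν) {π : X → Y}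
    (hπ : MeasurePreserving π μ ν) (hc : ∀ᵐ x ∂μ, π (T x) = S (π x))
    (h : ∃ f : Y → ℝ, BM f ∧ ∫ x, f x ∂ν = 0 ∧ ∀ n, 1 ≤ n → 0 < co ν S f n) :
    ∃ f : X → ℝ, Measurable f ∧ (∀ x, 0 ≤ f x ∧ f x ≤ 1) ∧
      ∀ n, 1 ≤ n → (∫ x, f x ∂μ) ^ 2 < ∫ x, f x * f (T^[n] x) ∂μ := by
  obtain ⟨f, ⟨hfm, C, hC⟩, hf0, hf⟩ := h
  set D : ℝ := max C 1 with hD
  have hD1 : 1 ≤ D := le_max_right _ _
  have hD0 : 0 < D := by linarith
  have hCD : ∀ x, |f x| ≤ D := fun x => (hC x).trans (le_max_left _ _)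
  have hfπ : Measurable fun x => f (π x) := hfm.comp hπ.measurable
  have hi : Integrable (fun x => f (π x)) μ := f3_bdd hfπ (C := D) fun x => hCD _
  have h0 : ∫ x, f (π x) ∂μ = 0 := by rw [f3_int hπ hfm, hf0]
  refine ⟨fun x => (f (π x) + D) / (2 * D), ?_, ?_, ?_⟩
  · exact (hfπ.add_const D).div_const _
  · intro x
    have h1 := abs_le.1 (hCD (π x))
    refine ⟨div_nonneg (by linarith) (by linarith), ?_⟩
    rw [div_le_one (by linarith)]
    linarith
  · intro n hn
    have hTn : MeasurePreserving T^[n] μ μ := hT.iterate n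
    have hfn : Measurable fun x => f (π (T^[n] x)) := hfπ.comp hTn.measurable
    have hin : Integrable (fun x => f (π (T^[n] x))) μ := f3_bdd hfn (C := D) fun x => hCD _
    have h0n : ∫ x, f (π (T^[n] x)) ∂μ = 0 := by
      rw [f3_int hTn hfπ, h0]
    have hprod : Measurable fun x => f (π x) * f (π (T^[n] x)) := hfπ.mul hfn
    have hip : Integrable (fun x => f (π x) * f (π (T^[n] x))) μ := by
      refine f3_bdd hprod (C := D * D) fun x => ?_
      rw [abs_mul]
      exact mul_le_mul (hCD _) (hCD _) (abs_nonneg _) hD0.le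
    have hSn : Measurable fun y => f y * f (S^[n] y) :=
      hfm.mul (hfm.comp (hS.measurable.iterate n))
    have hkey : ∫ x, f (π x) * f (π (T^[n] x)) ∂μ = co ν S f n := by
      have h2 : ∫ x, f (π x) * f (π (T^[n] x)) ∂μ = ∫ x, f (π x) * f (S^[n] (π x)) ∂μ := by
        refine integral_congr_ae ?_
        filter_upwards [f3_iter hT hc n] with x hx
        rw [hx]
      rw [h2]
      exact f3_int hπ hSn
    have e1 : ∫ x, (f (π x) + D) / (2 * D) ∂μ = 1 / 2 := by
      rw [integral_div, integral_add hi (integrable_const D), h0]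
      simp
      field_simp
    have e2 : ∫ x, (f (π x) + D) / (2 * D) * ((f (π (T^[n] x)) + D) / (2 * D)) ∂μ =
        1 / 4 + co ν S f n / (4 * D ^ 2) := by
      have e3 : (fun x => (f (π x) + D) / (2 * D) * ((f (π (T^[n] x)) + D) / (2 * D))) =
          fun x => (f (π x) * f (π (T^[n] x)) + D * f (π x) + D * f (π (T^[n] x)) + D ^ 2) /
            (4 * D ^ 2) := by
        funext x
        field_simp
        ring
      have i1 : Integrable (fun x => f (π x) * f (π (T^[n] x)) + D * f (π x)) μ :=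
        hip.add (hi.const_mul D)
      have i2 : Integrable (fun x => f (π x) * f (π (T^[n] x)) + D * f (π x) +
          D * f (π (T^[n] x))) μ := i1.add (hin.const_mul D)
      rw [e3, integral_div, integral_add i2 (integrable_const _),
        integral_add i1 (hin.const_mul D), integral_add hip (hi.const_mul D),
        integral_const_mul, integral_const_mul, h0, h0n, hkey]
      simp
      field_simp
      ring
    rw [e1]
    show _ < ∫ x, (f (π x) + D) / (2 * D) * ((f (π (T^[n] x)) + D) / (2 * D)) ∂μ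
    rw [e2]
    have h3 := hf n hn
    have h4 : 0 < co ν S f n / (4 * D ^ 2) := by positivity
    nlinarith
-- END f3

-- BEGIN f4
/-- induction over bounded measurable functions -/
private theorem f4_induct (P : (X → ℝ) → Prop)
    (hi : ∀ A : Set X, MeasurableSet A → P (A.indicator fun _ => 1))
    (ha : ∀ f g : X → ℝ, BM f → BM g → P f → P g → P fun x => f x + g x)
    (hc : ∀ (c : ℝ) (f : X → ℝ), BM f → P f → P fun x => c * f x)
    (hl : ∀ f : X → ℝ, BM f → (∀ e > (0 : ℝ), ∃ s : X → ℝ, BM s ∧ P s ∧ ∀ x, |f x - s x| ≤ e) → P f)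
    {f : X → ℝ} (hf : BM f) : P f := by
  classical
  have hind : ∀ A : Set X, MeasurableSet A → BM (A.indicator fun _ => (1 : ℝ)) := by
    intro A hA
    refine ⟨measurable_const.indicator hA, 1, fun x => ?_⟩
    by_cases hx : x ∈ A <;> simp [hx]
  have hsum : ∀ (t : Finset ℤ) (c : ℤ → ℝ) (A : ℤ → Set X), (∀ k, MeasurableSet (A k)) →
      P fun x => ∑ k ∈ t, c k * (A k).indicator (fun _ => (1 : ℝ)) x := by
    intro t c A hA
    induction t using Finset.induction_on with
    | empty =>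
      have h1 := hc 0 _ (hind ∅ MeasurableSet.empty) (hi ∅ MeasurableSet.empty)
      simpa using h1
    | insert a t hat ih =>
      have h1 : (fun x => ∑ k ∈ insert a t, c k * (A k).indicator (fun _ => (1 : ℝ)) x) =
          fun x => c a * (A a).indicator (fun _ => (1 : ℝ)) x +
            ∑ k ∈ t, c k * (A k).indicator (fun _ => (1 : ℝ)) x := by
        funext x
        rw [Finset.sum_insert hat]
      rw [h1]
      refine ha _ _ ((hind _ (hA a)).cmul _) ?_ (hc _ _ (hind _ (hA a)) (hi _ (hA a))) ih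
      refine ⟨Finset.measurable_sum _ fun k _ => (measurable_const.indicator (hA k)).const_mul _,
        ∑ k ∈ t, |c k|, fun x => ?_⟩
      refine (Finset.abs_sum_le_sum_abs _ _).trans (Finset.sum_le_sum fun k _ => ?_)
      rw [abs_mul]
      refine mul_le_of_le_one_right (abs_nonneg _) ?_
      by_cases hx : x ∈ A k <;> simp [hx]
  refine hl f hf fun e he => ?_
  obtain ⟨C, hC⟩ := hf.2
  obtain ⟨K, hK⟩ := exists_nat_gt (C / e)
  let A : ℤ → Set X := fun k => f ⁻¹' Set.Ico (e * k) (e * (k + 1))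
  have hA : ∀ k, MeasurableSet (A k) := fun k => hf.1 measurableSet_Ico
  have hBM : BM fun x => ∑ k ∈ Finset.Icc (-(K : ℤ)) K, (e * (k : ℝ)) *
      (A k).indicator (fun _ => (1 : ℝ)) x := by
    refine ⟨Finset.measurable_sum _ fun k _ => (measurable_const.indicator (hA k)).const_mul _,
        ∑ k ∈ Finset.Icc (-(K : ℤ)) K, |e * (k : ℝ)|, fun x => ?_⟩
    refine (Finset.abs_sum_le_sum_abs _ _).trans (Finset.sum_le_sum fun k _ => ?_)
    rw [abs_mul]
    refine mul_le_of_le_one_right (abs_nonneg _) ?_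
    by_cases hx : x ∈ A k <;> simp [hx]
  refine ⟨_, hBM, hsum (Finset.Icc (-(K : ℤ)) K) (fun k => e * (k : ℝ)) A hA, fun x => ?_⟩
  obtain ⟨k0, hk0⟩ : ∃ k0, k0 = ⌊f x / e⌋ := ⟨_, rfl⟩
  have h1 : (k0 : ℝ) ≤ f x / e := by rw [hk0]; exact Int.floor_le _
  have h2 : f x / e < k0 + 1 := by rw [hk0]; exact Int.lt_floor_add_one _
  have h3 : e * (k0 : ℝ) ≤ f x := by
    rw [le_div_iff₀ he] at h1
    linarith
  have h4 : f x < e * (k0 + 1) := by
    rw [div_lt_iff₀ he] at h2
    linarith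
  have hfx := abs_le.1 (hC x)
  have h5 : -(K : ℤ) ≤ k0 := by
    rw [hk0, Int.le_floor]
    push_cast
    rw [le_div_iff₀ he]
    rw [div_lt_iff₀ he] at hK
    linarith [hfx.1]
  have h6 : k0 ≤ (K : ℤ) := by
    have : (k0 : ℝ) < K := by
      refine lt_of_le_of_lt h1 (lt_of_le_of_lt ?_ hK)
      exact div_le_div_of_nonneg_right hfx.2 he.le
    exact_mod_cast this.le
  have h7 : ∑ k ∈ Finset.Icc (-(K : ℤ)) K, (e * (k : ℝ)) *
      (A k).indicator (fun _ => (1 : ℝ)) x = e * k0 := by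
    rw [Finset.sum_eq_single k0]
    · rw [Set.indicator_of_mem (show x ∈ A k0 from ⟨h3, h4⟩), mul_one]
    · intro k _ hk
      rw [Set.indicator_of_notMem, mul_zero]
      rintro ⟨h8, h9⟩
      apply hk
      have k1 : (k : ℝ) ≤ f x / e := by
        rw [le_div_iff₀ he]
        linarith
      have k2 : f x / e < k + 1 := by
        rw [div_lt_iff₀ he]
        linarith
      rw [hk0]
      exact (Int.floor_eq_iff.2 ⟨k1, k2⟩).symm
    · intro h8
      exfalso
      exact h8 (Finset.mem_Icc.2 ⟨h5, h6⟩)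
  rw [h7, abs_le]
  constructor <;> linarith

private theorem f4_abs {f : X → ℝ} (hf : BM f) {C : ℝ} (hC : ∀ x, |f x| ≤ C) :
    |∫ x, f x ∂μ| ≤ C := by
  have h1 : |∫ x, f x ∂μ| ≤ ∫ _x : X, C ∂μ := by
    refine abs_integral_le_integral_abs.trans ?_
    exact integral_mono hf.integrable.abs (integrable_const C) hC
  simpa using h1

/-- the limit form -/
private noncomputable def f4_L (μ : Measure X) (T : X → X) (p q : ℕ → ℝ) (f g : X → ℝ) : ℝ :=
  ∑' r, p r * cc μ T f g 0 r + ∑' r, q r * cc μ T f g r 0 +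
    (1 - ((∑' r, p r) + ∑' r, q r)) * ((∫ x, f x ∂μ) * ∫ x, g x ∂μ)

private theorem f4_prod (hT : MeasurePreserving T μ μ) {f g : X → ℝ} (hf : BM f) (hg : BM g)
    (m n : ℕ) : BM fun x => f (T^[m] x) * g (T^[n] x) :=
  (hf.comp (hT.iterate m).measurable).mul (hg.comp (hT.iterate n).measurable)

private theorem f4_cc_add1 (hT : MeasurePreserving T μ μ) {f f' g : X → ℝ} (hf : BM f)
    (hf' : BM f') (hg : BM g) (m n : ℕ) :
    cc μ T (fun x => f x + f' x) g m n = cc μ T f g m n + cc μ T f' g m n := by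
  rw [cc, cc, cc, ← integral_add (f4_prod hT hf hg m n).integrable
    (f4_prod hT hf' hg m n).integrable]
  congr 1
  funext x
  ring

private theorem f4_cc_add2 (hT : MeasurePreserving T μ μ) {f g g' : X → ℝ} (hf : BM f)
    (hg : BM g) (hg' : BM g') (m n : ℕ) :
    cc μ T f (fun x => g x + g' x) m n = cc μ T f g m n + cc μ T f g' m n := by
  rw [cc, cc, cc, ← integral_add (f4_prod hT hf hg m n).integrable
    (f4_prod hT hf hg' m n).integrable]
  congr 1
  funext x
  ring

private theorem f4_cc_c1 (c : ℝ) (f g : X → ℝ) (m n : ℕ) :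
    cc μ T (fun x => c * f x) g m n = c * cc μ T f g m n := by
  rw [cc, cc, ← integral_const_mul]
  congr 1
  funext x
  ring

private theorem f4_cc_c2 (c : ℝ) (f g : X → ℝ) (m n : ℕ) :
    cc μ T f (fun x => c * g x) m n = c * cc μ T f g m n := by
  rw [cc, cc, ← integral_const_mul]
  congr 1
  funext x
  ring

private theorem f4_sum (hT : MeasurePreserving T μ μ) {p : ℕ → ℝ} (hp0 : ∀ r, 0 ≤ p r)
    (hp : Summable p) {f g : X → ℝ} (hf : BM f) (hg : BM g) (m n : ℕ → ℕ) :
    Summable fun r => p r * cc μ T f g (m r) (n r) := by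
  refine Summable.of_norm_bounded (g := fun r => p r * (nm μ f * nm μ g)) (hp.mul_right _) ?_
  intro r
  rw [Real.norm_eq_abs, abs_mul, abs_of_nonneg (hp0 r)]
  exact mul_le_mul_of_nonneg_left (abs_cc_le hT hf hg _ _) (hp0 r)

private theorem f4_sum_le (hT : MeasurePreserving T μ μ) {p : ℕ → ℝ} (hp0 : ∀ r, 0 ≤ p r)
    (hp : Summable p) {f g : X → ℝ} (hf : BM f) (hg : BM g) (m n : ℕ → ℕ) {B : ℝ}
    (hB : ∀ r, |cc μ T f g (m r) (n r)| ≤ B) :
    |∑' r, p r * cc μ T f g (m r) (n r)| ≤ (∑' r, p r) * B := by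
  have h1 := f4_sum hT hp0 hp hf hg m n
  rw [← tsum_mul_right]
  have h2 : |∑' r, p r * cc μ T f g (m r) (n r)| ≤ ∑' r, |p r * cc μ T f g (m r) (n r)| := by
    have := norm_tsum_le_tsum_norm (f := fun r => p r * cc μ T f g (m r) (n r)) h1.abs
    simpa [Real.norm_eq_abs] using this
  refine h2.trans (h1.abs.tsum_le_tsum (fun r => ?_) (hp.mul_right B))
  rw [abs_mul, abs_of_nonneg (hp0 r)]
  exact mul_le_mul_of_nonneg_left (hB r) (hp0 r)

private theorem f4_main (hT : MeasurePreserving T μ μ) (U : Ultrafilter ℕ) {p q : ℕ → ℝ}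
    (hpq : ∀ r, 0 ≤ p r ∧ 0 ≤ q r) (hp : Summable p) (hq : Summable q)
    (h1 : (∑' r, p r) + ∑' r, q r ≤ 1)
    (h : ∀ A B : Set X, MeasurableSet A → MeasurableSet B →
        Tendsto (fun n : ℕ => μ.real (A ∩ T^[n] ⁻¹' B)) U
          (𝓝 (∑' r, p r * μ.real (A ∩ T^[r] ⁻¹' B) + ∑' r, q r * μ.real (T^[r] ⁻¹' A ∩ B) +
            (1 - ((∑' r, p r) + ∑' r, q r)) * (μ.real A * μ.real B))))
    {f g : X → ℝ} (hf : BM f) (hg : BM g) :
    Tendsto (fun n => cc μ T f g 0 n) U (𝓝 (f4_L μ T p q f g)) := by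
  have hp0 : ∀ r, 0 ≤ p r := fun r => (hpq r).1
  have hq0 : ∀ r, 0 ≤ q r := fun r => (hpq r).2
  have hP : 0 ≤ ∑' r, p r := tsum_nonneg hp0
  have hQ : 0 ≤ ∑' r, q r := tsum_nonneg hq0
  let D : (X → ℝ) → (X → ℝ) → ℕ → ℝ := fun f g n => cc μ T f g 0 n - f4_L μ T p q f g
  let Q : (X → ℝ) → (X → ℝ) → Prop := fun f g => Tendsto (D f g) U (𝓝 0)
  have hind : ∀ A : Set X, MeasurableSet A → BM (A.indicator fun _ => (1 : ℝ)) := by
    intro A hA
    refine ⟨measurable_const.indicator hA, 1, fun x => ?_⟩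
    by_cases hx : x ∈ A <;> simp [hx]
  have hclose : ∀ (f g : X → ℝ), (∀ e > (0 : ℝ), ∃ f' g' : X → ℝ, Q f' g' ∧
      ∀ n, |D f g n| ≤ |D f' g' n| + e) → Q f g := by
    intro f g h1
    show Tendsto (D f g) U (𝓝 0)
    rw [Metric.tendsto_nhds]
    intro e he
    obtain ⟨f', g', h2, h3⟩ := h1 (e / 2) (by positivity)
    have h4 : Tendsto (D f' g') U (𝓝 0) := h2
    filter_upwards [(Metric.tendsto_nhds.1 h4) (e / 2) (by positivity)] with n hn
    rw [Real.dist_eq, sub_zero] at hn ⊢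
    have := h3 n
    linarith
  have hcci : ∀ A B : Set X, MeasurableSet A → MeasurableSet B → ∀ m n,
      cc μ T (A.indicator fun _ => 1) (B.indicator fun _ => 1) m n =
        μ.real (T^[m] ⁻¹' A ∩ T^[n] ⁻¹' B) := by
    intro A B hA hB m n
    have h2 : ∀ x, (A.indicator (fun _ => (1 : ℝ)) (T^[m] x)) *
        (B.indicator (fun _ => (1 : ℝ)) (T^[n] x)) =
        (T^[m] ⁻¹' A ∩ T^[n] ⁻¹' B).indicator (fun _ => (1 : ℝ)) x := by
      intro x
      by_cases hx : T^[m] x ∈ A <;> by_cases hx2 : T^[n] x ∈ B <;> simp [hx, hx2, Set.indicator]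
    rw [cc]
    simp only [h2]
    rw [integral_indicator_const _
      (((hT.iterate m).measurable hA).inter ((hT.iterate n).measurable hB))]
    simp
  have hQi : ∀ A B : Set X, MeasurableSet A → MeasurableSet B →
      Q (A.indicator fun _ => 1) (B.indicator fun _ => 1) := by
    intro A B hA hB
    have h2 : f4_L μ T p q (A.indicator fun _ => 1) (B.indicator fun _ => 1) =
        ∑' r, p r * μ.real (A ∩ T^[r] ⁻¹' B) + ∑' r, q r * μ.real (T^[r] ⁻¹' A ∩ B) +
            (1 - ((∑' r, p r) + ∑' r, q r)) * (μ.real A * μ.real B) := by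
      rw [f4_L]
      simp only [hcci A B hA hB]
      rw [integral_indicator_const _ hA, integral_indicator_const _ hB]
      simp
    have h3 := (h A B hA hB).sub_const
      (f4_L μ T p q (A.indicator fun _ => 1) (B.indicator fun _ => 1))
    rw [h2, sub_self] at h3
    refine h3.congr fun n => ?_
    show _ = cc μ T _ _ 0 n - f4_L μ T p q _ _
    rw [hcci A B hA hB, h2]
    simp
  have hDadd1 : ∀ (f f' g : X → ℝ), BM f → BM f' → BM g → ∀ n,
      D (fun x => f x + f' x) g n = D f g n + D f' g n := by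
    intro f f' g hf hf' hg n
    show cc μ T _ _ 0 n - f4_L μ T p q _ _ = (cc μ T _ _ 0 n - f4_L μ T p q _ _) +
      (cc μ T _ _ 0 n - f4_L μ T p q _ _)
    simp only [f4_L, f4_cc_add1 hT hf hf' hg, mul_add]
    rw [(f4_sum hT hp0 hp hf hg (fun _ => 0) fun r => r).tsum_add
      (f4_sum hT hp0 hp hf' hg (fun _ => 0) fun r => r),
      (f4_sum hT hq0 hq hf hg (fun r => r) fun _ => 0).tsum_add
      (f4_sum hT hq0 hq hf' hg (fun r => r) fun _ => 0),
      integral_add hf.integrable hf'.integrable]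
    ring
  have hDadd2 : ∀ (f g g' : X → ℝ), BM f → BM g → BM g' → ∀ n,
      D f (fun x => g x + g' x) n = D f g n + D f g' n := by
    intro f g g' hf hg hg' n
    show cc μ T _ _ 0 n - f4_L μ T p q _ _ = (cc μ T _ _ 0 n - f4_L μ T p q _ _) +
      (cc μ T _ _ 0 n - f4_L μ T p q _ _)
    simp only [f4_L, f4_cc_add2 hT hf hg hg', mul_add]
    rw [(f4_sum hT hp0 hp hf hg (fun _ => 0) fun r => r).tsum_add
      (f4_sum hT hp0 hp hf hg' (fun _ => 0) fun r => r),
      (f4_sum hT hq0 hq hf hg (fun r => r) fun _ => 0).tsum_add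
      (f4_sum hT hq0 hq hf hg' (fun r => r) fun _ => 0),
      integral_add hg.integrable hg'.integrable]
    ring
  have hDc1 : ∀ (c : ℝ) (f g : X → ℝ) n, D (fun x => c * f x) g n = c * D f g n := by
    intro c f g n
    show cc μ T _ _ 0 n - f4_L μ T p q _ _ = c * (cc μ T _ _ 0 n - f4_L μ T p q _ _)
    have e1 : ∀ r, p r * (c * cc μ T f g 0 r) = c * (p r * cc μ T f g 0 r) := fun r => by ring
    have e2 : ∀ r, q r * (c * cc μ T f g r 0) = c * (q r * cc μ T f g r 0) := fun r => by ring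
    simp only [f4_L, f4_cc_c1, e1, e2, tsum_mul_left, integral_const_mul]
    ring
  have hDc2 : ∀ (c : ℝ) (f g : X → ℝ) n, D f (fun x => c * g x) n = c * D f g n := by
    intro c f g n
    show cc μ T _ _ 0 n - f4_L μ T p q _ _ = c * (cc μ T _ _ 0 n - f4_L μ T p q _ _)
    have e1 : ∀ r, p r * (c * cc μ T f g 0 r) = c * (p r * cc μ T f g 0 r) := fun r => by ring
    have e2 : ∀ r, q r * (c * cc μ T f g r 0) = c * (q r * cc μ T f g r 0) := fun r => by ring
    simp only [f4_L, f4_cc_c2, e1, e2, tsum_mul_left, integral_const_mul]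
    ring
  have hDb : ∀ (f g : X → ℝ), BM f → BM g → ∀ C E : ℝ, (∀ x, |f x| ≤ C) → (∀ x, |g x| ≤ E) →
      ∀ n, |D f g n| ≤ 4 * (C * E) := by
    intro f g hf hg C E hC hE n
    have hX : Nonempty X := by
      by_contra hne
      rw [not_nonempty_iff] at hne
      have := measure_univ (μ := μ)
      rw [Set.univ_eq_empty_iff.2 hne, measure_empty] at this
      exact zero_ne_one this
    have hC0 : 0 ≤ C := (abs_nonneg _).trans (hC hX.some)
    have hE0 : 0 ≤ E := (abs_nonneg _).trans (hE hX.some)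
    have hCE : 0 ≤ C * E := mul_nonneg hC0 hE0
    have k1 : ∀ m n, |cc μ T f g m n| ≤ C * E := by
      intro m n
      refine f4_abs (f4_prod hT hf hg m n) fun x => ?_
      rw [abs_mul]
      exact mul_le_mul (hC _) (hE _) (abs_nonneg _) hC0
    have k2 : |(∫ x, f x ∂μ) * ∫ x, g x ∂μ| ≤ C * E := by
      rw [abs_mul]
      exact mul_le_mul (f4_abs hf hC) (f4_abs hg hE) (abs_nonneg _) hC0
    have k3 := f4_sum_le hT hp0 hp hf hg (fun _ => 0) (fun r => r) (fun r => k1 0 r)
    have k4 := f4_sum_le hT hq0 hq hf hg (fun r => r) (fun _ => 0) (fun r => k1 r 0)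
    have k5 : |(1 - ((∑' r, p r) + ∑' r, q r)) * ((∫ x, f x ∂μ) * ∫ x, g x ∂μ)| ≤ 1 * (C * E) := by
      rw [abs_mul]
      refine mul_le_mul ?_ k2 (abs_nonneg _) zero_le_one
      rw [abs_le]
      constructor <;> linarith
    have k6 : (∑' r, p r) * (C * E) ≤ 1 * (C * E) :=
      mul_le_mul_of_nonneg_right (by linarith) hCE
    have k7 : (∑' r, q r) * (C * E) ≤ 1 * (C * E) :=
      mul_le_mul_of_nonneg_right (by linarith) hCE
    have k0 := k1 0 n
    show |cc μ T f g 0 n - f4_L μ T p q f g| ≤ _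
    rw [f4_L]
    rw [abs_le] at *
    constructor <;> linarith [k0.1, k0.2, k3.1, k3.2, k4.1, k4.2, k5.1, k5.2]
  have hstep1 : ∀ B : Set X, MeasurableSet B → ∀ f : X → ℝ, BM f →
      Q f (B.indicator fun _ => 1) := by
    intro B hB f hf
    refine f4_induct (fun f => Q f (B.indicator fun _ => 1)) (fun A hA => hQi A B hA hB) ?_ ?_ ?_ hf
    · intro f f' hf hf' h1 h2
      have h3 := Tendsto.add h1 h2
      rw [add_zero] at h3
      exact h3.congr fun n => (hDadd1 f f' _ hf hf' (hind B hB) n).symm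
    · intro c f hf h1
      have h3 := Tendsto.const_mul c h1
      rw [mul_zero] at h3
      exact h3.congr fun n => (hDc1 c f _ n).symm
    · intro f hf h1
      refine hclose _ _ fun e he => ?_
      obtain ⟨s, hs, hQs, hfs⟩ := h1 (e / 4) (by positivity)
      refine ⟨s, _, hQs, fun n => ?_⟩
      have h2 : D f (B.indicator fun _ => 1) n = D s (B.indicator fun _ => 1) n +
          D (fun x => f x - s x) (B.indicator fun _ => 1) n := by
        rw [← hDadd1 s _ _ hs (hf.sub hs) (hind B hB) n]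
        congr 1
        funext x
        ring
      have h3 := hDb (fun x => f x - s x) (B.indicator fun _ => 1) (hf.sub hs) (hind B hB)
        (e / 4) 1 hfs (fun x => by by_cases hx : x ∈ B <;> simp [hx]) n
      rw [h2]
      refine (abs_add_le _ _).trans ?_
      linarith
  have hfin : Q f g := by
    refine f4_induct (fun g => Q f g) (fun B hB => hstep1 B hB f hf) ?_ ?_ ?_ hg
    · intro g g' hg hg' h1 h2
      have h3 := Tendsto.add h1 h2
      rw [add_zero] at h3
      exact h3.congr fun n => (hDadd2 f g g' hf hg hg' n).symm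
    · intro c g hg h1
      have h3 := Tendsto.const_mul c h1
      rw [mul_zero] at h3
      exact h3.congr fun n => (hDc2 c f g n).symm
    · intro g hg h1
      obtain ⟨C, hC⟩ := hf.2
      refine hclose _ _ fun e he => ?_
      obtain ⟨s, hs, hQs, hgs⟩ := h1 (e / (4 * (|C| + 1))) (by positivity)
      refine ⟨f, s, hQs, fun n => ?_⟩
      have h2 : D f g n = D f s n + D f (fun x => g x - s x) n := by
        rw [← hDadd2 f s _ hf hs (hg.sub hs) n]
        congr 1
        funext x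
        ring
      have h3 := hDb f (fun x => g x - s x) hf (hg.sub hs) (|C| + 1) (e / (4 * (|C| + 1)))
        (fun x => (hC x).trans ((le_abs_self C).trans (by linarith))) hgs n
      have h4 : 4 * ((|C| + 1) * (e / (4 * (|C| + 1)))) = e := by
        have : |C| + 1 ≠ 0 := by positivity
        field_simp
      rw [h2]
      refine (abs_add_le _ _).trans ?_
      linarith
  have h5 : Tendsto (D f g) U (𝓝 0) := hfin
  have h6 := h5.add_const (f4_L μ T p q f g)
  rw [zero_add] at h6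
  refine h6.congr fun n => ?_
  show (cc μ T f g 0 n - f4_L μ T p q f g) + f4_L μ T p q f g = _
  ring

/-- Property (P) from the weak closure theorem: every limit point of the powers is a combination of powers (`p`: the
powers `T^r`, `q`: the powers `T^{-r}`) and of the projection to the constants. PROOF. The limit formula holds for
indicator functions, so for simple functions, so (uniformly approximated) for bounded functions; with `f = g`,
`∫ f = 0` and `∫ f ∘ T^r f = ∫ f f ∘ T^r` the limit is `∑ (p r + q r) co f r`. -/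
theorem offDiag_of_limits (hT : MeasurePreserving T μ μ)
    (h : ∀ U : Ultrafilter ℕ, (U : Filter ℕ) ≤ atTop → ∃ p q : ℕ → ℝ, (∀ r, 0 ≤ p r ∧ 0 ≤ q r) ∧
      Summable p ∧ Summable q ∧ (∑' r, p r) + ∑' r, q r ≤ 1 ∧
      ∀ A B : Set X, MeasurableSet A → MeasurableSet B →
        Tendsto (fun n : ℕ => μ.real (A ∩ T^[n] ⁻¹' B)) U
          (𝓝 (∑' r, p r * μ.real (A ∩ T^[r] ⁻¹' B) + ∑' r, q r * μ.real (T^[r] ⁻¹' A ∩ B) +
            (1 - ((∑' r, p r) + ∑' r, q r)) * (μ.real A * μ.real B)))) : OffDiag μ T := by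
  intro U hU
  obtain ⟨p, q, hpq, hp, hq, h1, hAB⟩ := h U hU
  refine ⟨fun r => p r + q r, fun r => add_nonneg (hpq r).1 (hpq r).2, hp.add hq, ?_, ?_⟩
  · rw [hp.tsum_add hq]
    exact h1
  · intro f hf hf0 l hl
    have h2 := f4_main hT U hpq hp hq h1 hAB hf hf
    have h3 : (fun n => cc μ T f f 0 n) = co μ T f := by
      funext n
      exact (co_eq_cc f n).symm
    rw [h3] at h2
    have h4 := tendsto_nhds_unique hl h2
    have e1 : ∀ r, cc μ T f f r 0 = co μ T f r := by
      intro r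
      rw [co_eq_cc, cc, cc]
      congr 1
      funext x
      ring
    have e2 : ∀ r, cc μ T f f 0 r = co μ T f r := fun r => (co_eq_cc f r).symm
    have s1 := f4_sum hT (fun r => (hpq r).1) hp hf hf (fun _ => 0) (fun r => r)
    have s2 := f4_sum hT (fun r => (hpq r).2) hq hf hf (fun r => r) (fun _ => 0)
    simp only [e1, e2] at s1 s2
    rw [h4, f4_L, hf0]
    simp only [e1, e2, add_mul]
    rw [s1.tsum_add s2]
    simp
-- END f4

end Pool.Agent.Orj
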