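import Mathlib

/-!
# Definitions: infinitely divisible laws on the plane, and three kinds of systems
-/

set_option autoImplicit false

open MeasureTheory

namespace Pool.Agent.Orj

/-- the law `ρ` on the plane is infinitely divisible with symmetric roots: for every `m ≥ 1` its characteristic
function is the `m`-th power of the characteristic function of a symmetric probability measure -/
def SymmID (ρ : Measure (ℝ × ℝ)) : Prop :=
  ∀ m : ℕ, 1 ≤ m → ∃ ν : Measure (ℝ × ℝ), IsProbabilityMeasure ν ∧ ν.map (fun u => -u) = ν ∧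
    ∀ s t : ℝ, ∫ u, Complex.exp (((s * u.1 + t * u.2 : ℝ) : ℂ) * Complex.I) ∂ρ =
      (∫ u, Complex.exp (((s * u.1 + t * u.2 : ℝ) : ℂ) * Complex.I) ∂ν) ^ m

/-- the law `ρ` on the quadrant is infinitely divisible: for every `m ≥ 1` its Laplace transform is the `m`-th power of
the Laplace transform of a probability measure on the quadrant -/
def PosID (ρ : Measure (ℝ × ℝ)) : Prop :=
  ∀ m : ℕ, 1 ≤ m → ∃ ν : Measure (ℝ × ℝ), IsProbabilityMeasure ν ∧ (∀ᵐ u ∂ν, 0 ≤ u.1 ∧ 0 ≤ u.2) ∧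
    ∀ s t : ℝ, 0 ≤ s → 0 ≤ t → ∫ u, Real.exp (-(s * u.1 + t * u.2)) ∂ρ =
      (∫ u, Real.exp (-(s * u.1 + t * u.2)) ∂ν) ^ m

/-- the law of `(P + R, Q + R)` for independent Poisson variables `P, Q, R` with means `p, p, r` -/
noncomputable def poissonPair (p r : NNReal) : Measure (ℝ × ℝ) :=
  ((ProbabilityTheory.poissonMeasure p).prod
    ((ProbabilityTheory.poissonMeasure p).prod (ProbabilityTheory.poissonMeasure r))).map
    fun u => (((u.1 + u.2.2 : ℕ) : ℝ), ((u.2.1 + u.2.2 : ℕ) : ℝ))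

variable {X : Type} [MeasurableSpace X]

/-- `(X, μ, T)` has a direct square `(Y × Y, ν × ν, S × S)` of a nontrivial system `(Y, ν, S)` as a factor -/
def SquareFactor (μ : Measure X) (T : X → X) : Prop :=
  ∃ (Y : Type) (_ : MeasurableSpace Y) (ν : Measure Y) (S : Y → Y) (π : X → Y × Y), IsProbabilityMeasure ν ∧
    MeasurePreserving S ν ν ∧ MeasurePreserving π μ (ν.prod ν) ∧ (∀ᵐ x ∂μ, π (T x) = Prod.map S S (π x)) ∧
    ∃ A : Set Y, MeasurableSet A ∧ 0 < ν A ∧ ν A < 1

/-- the process `g ∘ T^n` is not constant, and the law of `(g, g ∘ T^n)` is symmetric and infinitely divisible for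
`n ≥ 1` -/
def SymmProcess (μ : Measure X) (T : X → X) (g : X → ℝ) : Prop :=
  Measurable g ∧ (¬ ∃ c : ℝ, ∀ᵐ x ∂μ, g x = c) ∧ ∀ n : ℕ, 1 ≤ n → SymmID (μ.map fun x => (g x, g (T^[n] x)))

/-- the process `g ∘ T^n` is nonnegative, not constant, and the law of `(g, g ∘ T^n)` is infinitely divisible for
`n ≥ 1` -/
def PosProcess (μ : Measure X) (T : X → X) (g : X → ℝ) : Prop :=
  Measurable g ∧ (∀ x, 0 ≤ g x) ∧ (¬ ∃ c : ℝ, ∀ᵐ x ∂μ, g x = c) ∧
    ∀ n : ℕ, 1 ≤ n → PosID (μ.map fun x => (g x, g (T^[n] x)))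

/-- `g` is not almost everywhere zero and all combinations of `g` and `g ∘ T^n` are centred Gaussian: for instance the
coordinate of a Gaussian automorphism -/
def GaussProcess (μ : Measure X) (T : X → X) (g : X → ℝ) : Prop :=
  Measurable g ∧ (¬ ∀ᵐ x ∂μ, g x = 0) ∧ ∀ (n : ℕ) (s t : ℝ), ∃ v : NNReal,
    μ.map (fun x => s * g x + t * g (T^[n] x)) = ProbabilityTheory.gaussianReal 0 v

/-- `(g, g ∘ T^n)` has the law of `(P + R, Q + R)` with independent Poisson variables of means `p, p, r`, where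
`p + r = a > 0` does not depend on `n`: for instance the number of points in a set of finite positive measure `a` in a
Poisson suspension -/
def PoissonProcess (μ : Measure X) (T : X → X) (g : X → ℝ) : Prop :=
  Measurable g ∧ (∀ x, 0 ≤ g x) ∧ ∃ a : ℝ, 0 < a ∧ ∀ n : ℕ, 1 ≤ n → ∃ p r : NNReal, (p : ℝ) + r = a ∧
    μ.map (fun x => (g x, g (T^[n] x))) = poissonPair p r

end Pool.Agent.Orj
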