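import Mathlib
import Pool.Agent.Orj.Fin

/-!
# Minimal self-joinings imply property (P)

On a standard Borel space the limits of the graph joinings are self-joinings; so if all self-joinings are
combinations of off-diagonals and of the product measure then property `OffDiag` holds.
-/

set_option autoImplicit false

open MeasureTheory Filter Topology

namespace Pool.Agent.Orj

variable {X : Type} [MeasurableSpace X] {μ : Measure X} [IsProbabilityMeasure μ] {T : X → X}

-- BEGIN j1
private theorem j1_prob {K : Type} [MeasurableSpace K] (m : Measure K) [IsProbabilityMeasure m]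
    (l : Measure (K × K)) (h1 : l.map Prod.fst = m) : IsProbabilityMeasure l := by
  constructor
  have h := Measure.map_apply (μ := l) (f := (Prod.fst : K × K → K)) measurable_fst MeasurableSet.univ
  rw [h1, Set.preimage_univ, measure_univ] at h
  exact h.symm

private theorem j1_approx {K : Type} [TopologicalSpace K] [MeasurableSpace K]
    [OpensMeasurableSpace K] (m : Measure K) [IsProbabilityMeasure m] (l : Measure (K × K))
    (h1 : l.map Prod.fst = m) (h2 : l.map Prod.snd = m) {A B : Set K} (hA : MeasurableSet A)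
    (hB : MeasurableSet B) (u v : BoundedContinuousFunction K ℝ) :
    |l.real (A ×ˢ B) - ∫ p, u p.1 * v p.2 ∂l| ≤
      (∫ x, ‖A.indicator (fun _ => (1 : ℝ)) x - u x‖ ∂m) +
        ‖u‖ * ∫ x, ‖B.indicator (fun _ => (1 : ℝ)) x - v x‖ ∂m := by
  haveI := j1_prob m l h1
  have iu : Integrable (fun x => u x) m := by
    refine Integrable.of_bound (u.continuous.measurable.aestronglyMeasurable) ‖u‖ ?_
    exact Eventually.of_forall fun x => u.norm_coe_le_norm x
  have iv : Integrable (fun x => v x) m := by
    refine Integrable.of_bound (v.continuous.measurable.aestronglyMeasurable) ‖v‖ ?_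
    exact Eventually.of_forall fun x => v.norm_coe_le_norm x
  have iA : Integrable (A.indicator (fun _ => (1 : ℝ))) m := (integrable_const 1).indicator hA
  have iB : Integrable (B.indicator (fun _ => (1 : ℝ))) m := (integrable_const 1).indicator hB
  have hfA : Integrable (fun x => ‖A.indicator (fun _ => (1 : ℝ)) x - u x‖) m := (iA.sub iu).norm
  have hfB : Integrable (fun x => ‖B.indicator (fun _ => (1 : ℝ)) x - v x‖) m := (iB.sub iv).norm
  have e1 : (∫ x, ‖A.indicator (fun _ => (1 : ℝ)) x - u x‖ ∂m) =
      ∫ p, ‖A.indicator (fun _ => (1 : ℝ)) p.1 - u p.1‖ ∂l := by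
    conv_lhs => rw [← h1]
    rw [integral_map measurable_fst.aemeasurable]
    rw [h1]
    exact hfA.aestronglyMeasurable
  have e2 : (∫ x, ‖B.indicator (fun _ => (1 : ℝ)) x - v x‖ ∂m) =
      ∫ p, ‖B.indicator (fun _ => (1 : ℝ)) p.2 - v p.2‖ ∂l := by
    conv_lhs => rw [← h2]
    rw [integral_map measurable_snd.aemeasurable]
    rw [h2]
    exact hfB.aestronglyMeasurable
  have i1 : Integrable (fun p : K × K => ‖A.indicator (fun _ => (1 : ℝ)) p.1 - u p.1‖) l := by
    have h := hfA
    rw [← h1] at h
    exact (integrable_map_measure h.aestronglyMeasurable measurable_fst.aemeasurable).1 h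
  have i2 : Integrable (fun p : K × K => ‖B.indicator (fun _ => (1 : ℝ)) p.2 - v p.2‖) l := by
    have h := hfB
    rw [← h2] at h
    exact (integrable_map_measure h.aestronglyMeasurable measurable_snd.aemeasurable).1 h
  have iuv : Integrable (fun p : K × K => u p.1 * v p.2) l := by
    refine Integrable.of_bound ?_ (‖u‖ * ‖v‖) ?_
    · exact ((u.continuous.measurable.comp measurable_fst).mul
        (v.continuous.measurable.comp measurable_snd)).aestronglyMeasurable
    · refine Eventually.of_forall fun p => ?_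
      rw [norm_mul]
      exact mul_le_mul (u.norm_coe_le_norm _) (v.norm_coe_le_norm _) (norm_nonneg _) (norm_nonneg _)
  have hAB : MeasurableSet (A ×ˢ B) := hA.prod hB
  have iAB : Integrable ((A ×ˢ B).indicator (fun _ => (1 : ℝ))) l := (integrable_const 1).indicator hAB
  have e3 : l.real (A ×ˢ B) = ∫ p, (A ×ˢ B).indicator (fun _ => (1 : ℝ)) p ∂l := by
    rw [integral_indicator hAB]
    simp
  rw [e3, e1, e2, ← integral_sub iAB iuv, ← integral_const_mul, ← integral_add i1 (i2.const_mul _)]
  refine le_trans (abs_integral_le_integral_abs) ?_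
  refine integral_mono (iAB.sub iuv).norm (i1.add (i2.const_mul _)) fun p => ?_
  have hp : (A ×ˢ B).indicator (fun _ => (1 : ℝ)) p =
      A.indicator (fun _ => (1 : ℝ)) p.1 * B.indicator (fun _ => (1 : ℝ)) p.2 := by
    by_cases ha : p.1 ∈ A <;> by_cases hb : p.2 ∈ B <;> simp [Set.indicator, ha, hb]
  have hB1 : ‖B.indicator (fun _ => (1 : ℝ)) p.2‖ ≤ 1 := by
    by_cases hb : p.2 ∈ B <;> simp [Set.indicator, hb]
  have hdec : (A ×ˢ B).indicator (fun _ => (1 : ℝ)) p - u p.1 * v p.2 =
      (A.indicator (fun _ => (1 : ℝ)) p.1 - u p.1) * B.indicator (fun _ => (1 : ℝ)) p.2 +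
        u p.1 * (B.indicator (fun _ => (1 : ℝ)) p.2 - v p.2) := by
    rw [hp]; ring
  show ‖(A ×ˢ B).indicator (fun _ => (1 : ℝ)) p - u p.1 * v p.2‖ ≤ _
  rw [hdec]
  refine le_trans (norm_add_le _ _) (add_le_add ?_ ?_)
  · rw [norm_mul]
    exact mul_le_of_le_one_right (norm_nonneg _) hB1
  · rw [norm_mul]
    exact mul_le_mul_of_nonneg_right (u.norm_coe_le_norm _) (norm_nonneg _)

/-- Limits of couplings on a compact metric space along an ultrafilter. PROOF. `ProbabilityMeasure (K × K)` is compact
(`Mathlib/MeasureTheory/Measure/Prokhorov.lean`), so there is a limit `l` in the weak topology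
(`isCompact_univ.ultrafilter_le_nhds`, map the ultrafilter); its marginals are `m` (test with continuous functions of
one variable, or with the rectangles `A ×ˢ univ` after the following). For Borel sets `A`, `B` choose continuous
`u`, `v` with values in `[0, 1]` near `1_A`, `1_B` in `L¹ (m)` (`MemLp.exists_boundedContinuous_...` /
`Integrable.exists_boundedContinuous_integral_sub_le`); `|∫ 1_A 1_B dλ - ∫ u v dλ| ≤ ‖1_A - u‖₁ + ‖1_B - v‖₁` for all
couplings `λ` of `m` and `m`, and the integrals of `u ⊗ v` converge. -/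
theorem exists_limit_coupling {K : Type} [TopologicalSpace K] [CompactSpace K]
    [TopologicalSpace.MetrizableSpace K] [MeasurableSpace K] [BorelSpace K]
    (m : Measure K) [IsProbabilityMeasure m] (lam : ℕ → Measure (K × K))
    (h1 : ∀ n, (lam n).map Prod.fst = m) (h2 : ∀ n, (lam n).map Prod.snd = m) (U : Ultrafilter ℕ) :
    ∃ l : Measure (K × K), l.map Prod.fst = m ∧ l.map Prod.snd = m ∧
      ∀ A B : Set K, MeasurableSet A → MeasurableSet B →
        Tendsto (fun n => (lam n).real (A ×ˢ B)) U (𝓝 (l.real (A ×ˢ B))) := by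
  letI := TopologicalSpace.metrizableSpaceMetric K
  haveI : SecondCountableTopology K := inferInstance
  haveI hprob : ∀ n, IsProbabilityMeasure (lam n) := fun n => j1_prob m (lam n) (h1 n)
  set P : ℕ → ProbabilityMeasure (K × K) := fun n => ⟨lam n, hprob n⟩ with hP
  obtain ⟨L, -, hL⟩ := (isCompact_univ (X := ProbabilityMeasure (K × K))).ultrafilter_le_nhds
    (U.map P) (by simp)
  have hlim : Tendsto P U (𝓝 L) := hL
  have hmarg : ∀ (f : K × K → K) (hf : Continuous f), (∀ n, (lam n).map f = m) →
      (L : Measure (K × K)).map f = m := by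
    intro f hf hm
    have ht := ProbabilityMeasure.tendsto_map_of_tendsto_of_continuous (L := (U : Filter ℕ)) P L hlim hf
    have hc : (fun i => (P i).map hf.measurable.aemeasurable) =
        fun _ => (⟨m, inferInstance⟩ : ProbabilityMeasure K) := by
      funext i
      apply Subtype.ext
      show (lam i).map f = m
      exact hm i
    rw [hc] at ht
    have hu := tendsto_nhds_unique ht tendsto_const_nhds
    have := congrArg Subtype.val hu
    exact this
  have hL1 : (L : Measure (K × K)).map Prod.fst = m := hmarg _ continuous_fst h1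
  have hL2 : (L : Measure (K × K)).map Prod.snd = m := hmarg _ continuous_snd h2
  refine ⟨L, hL1, hL2, fun A B hA hB => ?_⟩
  rw [Metric.tendsto_nhds]
  intro ε hε
  have iA : Integrable (A.indicator (fun _ => (1 : ℝ))) m := (integrable_const 1).indicator hA
  have iB : Integrable (B.indicator (fun _ => (1 : ℝ))) m := (integrable_const 1).indicator hB
  obtain ⟨u, hu, -⟩ := iA.exists_boundedContinuous_integral_sub_le (ε := ε / 8) (by positivity)
  obtain ⟨v, hv, -⟩ := iB.exists_boundedContinuous_integral_sub_le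
    (ε := ε / 8 / (‖u‖ + 1)) (by positivity)
  have hbound : (∫ x, ‖A.indicator (fun _ => (1 : ℝ)) x - u x‖ ∂m) +
        ‖u‖ * ∫ x, ‖B.indicator (fun _ => (1 : ℝ)) x - v x‖ ∂m ≤ ε / 4 := by
    have h3 : ‖u‖ * ∫ x, ‖B.indicator (fun _ => (1 : ℝ)) x - v x‖ ∂m ≤
        ‖u‖ * (ε / 8 / (‖u‖ + 1)) := mul_le_mul_of_nonneg_left hv (norm_nonneg _)
    have h4 : ‖u‖ * (ε / 8 / (‖u‖ + 1)) ≤ ε / 8 := by
      have hun := norm_nonneg u
      rw [mul_div_assoc', div_le_iff₀ (by positivity)]
      nlinarith
    linarith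
  let w : BoundedContinuousFunction (K × K) ℝ :=
    (u.compContinuous ⟨Prod.fst, continuous_fst⟩) * (v.compContinuous ⟨Prod.snd, continuous_snd⟩)
  have hw : ∀ p : K × K, w p = u p.1 * v p.2 := fun p => rfl
  have hconv := (ProbabilityMeasure.tendsto_iff_forall_integral_tendsto.1 hlim) w
  rw [Metric.tendsto_nhds] at hconv
  filter_upwards [hconv (ε / 4) (by positivity)] with n hn
  have a1 := j1_approx m (lam n) (h1 n) (h2 n) hA hB u v
  have a2 := j1_approx m (L : Measure (K × K)) hL1 hL2 hA hB u v
  rw [Real.dist_eq] at hn ⊢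
  have hn' : |(∫ p, u p.1 * v p.2 ∂(lam n)) - ∫ p, u p.1 * v p.2 ∂(L : Measure (K × K))| < ε / 4 := hn
  have a1' := le_trans a1 hbound
  have a2' := le_trans a2 hbound
  rw [abs_le] at a1' a2'
  rw [abs_lt] at hn' ⊢
  constructor <;> linarith [a1'.1, a1'.2, a2'.1, a2'.2, hn'.1, hn'.2]
-- END j1

-- BEGIN j2
/-- The limit joining on a standard Borel space. PROOF. A measurable embedding `e : X → Set.Icc (0 : ℝ) 1`
(`MeasureTheory.exists_measurableEmbedding_real` and an order isomorphism `ℝ ≃ (0, 1)`, or `Real.arctan`);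
`exists_limit_coupling` for `m = μ.map e`, `lam n` the law of `(e x, e (T^[n] x))`; the limit is concentrated on
`range e ×ˢ range e` (marginals), `lam = l.comap (Prod.map e e)`. -/
theorem exists_limit_joining [StandardBorelSpace X] (hT : MeasurePreserving T μ μ)
    (U : Ultrafilter ℕ) :
    ∃ lam : Measure (X × X), lam.map Prod.fst = μ ∧ lam.map Prod.snd = μ ∧
      ∀ A B : Set X, MeasurableSet A → MeasurableSet B →
        Tendsto (fun n : ℕ => μ.real (A ∩ T^[n] ⁻¹' B)) U (𝓝 (lam.real (A ×ˢ B))) := by
  obtain ⟨e0, he0⟩ := exists_measurableEmbedding_real X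
  obtain ⟨e, he⟩ : ∃ e : X → EReal, MeasurableEmbedding e :=
    ⟨_, EReal.measurableEmbedding_coe.comp he0⟩
  have hem := he.measurable
  have hmp : IsProbabilityMeasure (μ.map e) :=
    Measure.isProbabilityMeasure_map hem.aemeasurable
  have hTn : ∀ n, MeasurePreserving (T^[n]) μ μ := fun n => hT.iterate n
  have hφ : ∀ n, Measurable (fun x => (e x, e (T^[n] x))) := fun n =>
    hem.prodMk (hem.comp (hTn n).measurable)
  obtain ⟨l, hl1, hl2, hl⟩ := exists_limit_coupling (μ.map e)
    (fun n => μ.map (fun x => (e x, e (T^[n] x))))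
    (fun n => by
      rw [Measure.map_map measurable_fst (hφ n)]
      rfl)
    (fun n => by
      rw [Measure.map_map measurable_snd (hφ n)]
      show μ.map (e ∘ T^[n]) = μ.map e
      rw [← Measure.map_map hem (hTn n).measurable, (hTn n).map_eq]) U
  have hee : MeasurableEmbedding (Prod.map e e) := he.prodMap he
  have hrange : MeasurableSet (Set.range e) := he.measurableSet_range
  have hzero : μ.map e (Set.range e)ᶜ = 0 := by
    rw [Measure.map_apply hem hrange.compl, Set.preimage_compl, Set.preimage_range, Set.compl_univ,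
      measure_empty]
  have hz1 : l (Prod.fst ⁻¹' (Set.range e)ᶜ) = 0 := by
    rw [← Measure.map_apply measurable_fst hrange.compl, hl1, hzero]
  have hz2 : l (Prod.snd ⁻¹' (Set.range e)ᶜ) = 0 := by
    rw [← Measure.map_apply measurable_snd hrange.compl, hl2, hzero]
  have hae1 : ∀ᵐ p ∂l, p.1 ∈ Set.range e := by
    rw [ae_iff]
    exact hz1
  have hae2 : ∀ᵐ p ∂l, p.2 ∈ Set.range e := by
    rw [ae_iff]
    exact hz2
  have hcom : ∀ S : Set (X × X), (l.comap (Prod.map e e)) S = l (Prod.map e e '' S) :=
    fun S => hee.comap_apply l S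
  refine ⟨l.comap (Prod.map e e), ?_, ?_, ?_⟩
  · ext A hA
    rw [Measure.map_apply measurable_fst hA, hcom]
    have h1 : l (Prod.map e e '' (Prod.fst ⁻¹' A)) = l (Prod.fst ⁻¹' (e '' A)) := by
      apply measure_congr
      filter_upwards [hae2] with p hp
      apply propext
      show p ∈ (Prod.map e e '' (Prod.fst ⁻¹' A)) ↔ p ∈ (Prod.fst ⁻¹' (e '' A))
      constructor
      · rintro ⟨⟨x, y⟩, hx, rfl⟩
        exact ⟨x, hx, rfl⟩
      · rintro ⟨x, hx, hxe⟩
        obtain ⟨y, hy⟩ := hp
        exact ⟨(x, y), hx, Prod.ext hxe hy⟩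
    rw [h1, ← Measure.map_apply measurable_fst (he.measurableSet_image' hA), hl1,
      Measure.map_apply hem (he.measurableSet_image' hA), Set.preimage_image_eq _ he.injective]
  · ext A hA
    rw [Measure.map_apply measurable_snd hA, hcom]
    have h1 : l (Prod.map e e '' (Prod.snd ⁻¹' A)) = l (Prod.snd ⁻¹' (e '' A)) := by
      apply measure_congr
      filter_upwards [hae1] with p hp
      apply propext
      show p ∈ (Prod.map e e '' (Prod.snd ⁻¹' A)) ↔ p ∈ (Prod.snd ⁻¹' (e '' A))
      constructor
      · rintro ⟨⟨x, y⟩, hy, rfl⟩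
        exact ⟨y, hy, rfl⟩
      · rintro ⟨y, hy, hye⟩
        obtain ⟨x, hx⟩ := hp
        exact ⟨(x, y), hy, Prod.ext hx hye⟩
    rw [h1, ← Measure.map_apply measurable_snd (he.measurableSet_image' hA), hl2,
      Measure.map_apply hem (he.measurableSet_image' hA), Set.preimage_image_eq _ he.injective]
  · intro A B hA hB
    have h := hl (e '' A) (e '' B) (he.measurableSet_image' hA) (he.measurableSet_image' hB)
    have e1 : (l.comap (Prod.map e e)).real (A ×ˢ B) = l.real ((e '' A) ×ˢ (e '' B)) := by
      rw [Measure.real, hcom, Set.prodMap_image_prod]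
      rfl
    have e2 : (fun n : ℕ => μ.real (A ∩ T^[n] ⁻¹' B)) =
        fun n => (μ.map (fun x => (e x, e (T^[n] x)))).real ((e '' A) ×ˢ (e '' B)) := by
      funext n
      rw [Measure.real, Measure.real, Measure.map_apply (hφ n)
        ((he.measurableSet_image' hA).prod (he.measurableSet_image' hB))]
      congr 2
      ext x
      simp only [Set.mem_inter_iff, Set.mem_preimage, Set.mem_prod, he.injective.mem_set_image]
    rw [e1, e2]
    exact h
-- END j2

/-- (two-fold) minimal self-joinings: every self-joining is a combination of off-diagonal measures (`p`: on the graphs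
of `T^r`, `q`: on the transposed graphs) and of the product measure -/
def MSJ (μ : Measure X) (T : X → X) : Prop :=
  ∀ lam : Measure (X × X), lam.map Prod.fst = μ → lam.map Prod.snd = μ →
    MeasurePreserving (Prod.map T T) lam lam →
    ∃ p q : ℕ → ℝ, (∀ r, 0 ≤ p r ∧ 0 ≤ q r) ∧ Summable p ∧ Summable q ∧
      (∑' r, p r) + ∑' r, q r ≤ 1 ∧
      ∀ A B : Set X, MeasurableSet A → MeasurableSet B → lam.real (A ×ˢ B) =
        ∑' r, p r * μ.real (A ∩ T^[r] ⁻¹' B) + ∑' r, q r * μ.real (T^[r] ⁻¹' A ∩ B) +
          (1 - ((∑' r, p r) + ∑' r, q r)) * (μ.real A * μ.real B)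

-- BEGIN j3
/-- PROOF. The limit joining of `exists_limit_joining` is invariant under `T × T` (rectangles are a generating
`π`-system, `μ (T⁻¹ A ∩ T^{-n} T⁻¹ B) = μ (A ∩ T^{-n} B)`), apply the hypothesis and `offDiag_of_limits`. -/
theorem offDiag_of_MSJ [StandardBorelSpace X] (hT : MeasurePreserving T μ μ) (h : MSJ μ T) :
    OffDiag μ T := by
  refine offDiag_of_limits hT fun U _ => ?_
  obtain ⟨lam, h1, h2, h3⟩ := exists_limit_joining hT U
  have huniv : lam Set.univ = 1 := by
    have e := congrArg (fun m : Measure X => m Set.univ) h1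
    simp only [Measure.map_apply measurable_fst MeasurableSet.univ, Set.preimage_univ,
      measure_univ] at e
    exact e
  haveI : IsProbabilityMeasure lam := ⟨huniv⟩
  have hTT : Measurable (Prod.map T T) := hT.measurable.prodMap hT.measurable
  haveI : IsProbabilityMeasure (lam.map (Prod.map T T)) :=
    Measure.isProbabilityMeasure_map hTT.aemeasurable
  have hinv : MeasurePreserving (Prod.map T T) lam lam := by
    refine ⟨hTT, ?_⟩
    refine ext_of_generate_finite _ generateFrom_prod.symm isPiSystem_prod ?_ (by simp)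
    rintro _ ⟨A, hA, B, hB, rfl⟩
    have hA' : MeasurableSet A := hA
    have hB' : MeasurableSet B := hB
    rw [Measure.map_apply hTT (hA'.prod hB')]
    have e1 : Prod.map T T ⁻¹' A ×ˢ B = (T ⁻¹' A) ×ˢ (T ⁻¹' B) := rfl
    rw [e1]
    have l1 := h3 (T ⁻¹' A) (T ⁻¹' B) (hT.measurable hA') (hT.measurable hB')
    have l2 := h3 A B hA' hB'
    have e2 : ∀ n : ℕ, μ.real (T ⁻¹' A ∩ T^[n] ⁻¹' (T ⁻¹' B)) = μ.real (A ∩ T^[n] ⁻¹' B) := by
      intro n
      have e3 : T ⁻¹' A ∩ T^[n] ⁻¹' (T ⁻¹' B) = T ⁻¹' (A ∩ T^[n] ⁻¹' B) := by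
        ext x
        simp only [Set.mem_inter_iff, Set.mem_preimage]
        rw [← Function.iterate_succ_apply' T n x, Function.iterate_succ_apply T n x]
      rw [e3, measureReal_def, hT.measure_preimage
        (hA'.inter ((hT.iterate n).measurable hB')).nullMeasurableSet, measureReal_def]
    simp only [e2] at l1
    have e4 := tendsto_nhds_unique l1 l2
    rw [measureReal_def, measureReal_def] at e4
    exact (ENNReal.toReal_eq_toReal_iff' (measure_ne_top _ _) (measure_ne_top _ _)).1 e4
  obtain ⟨p, q, hpq, hp, hq, hle, hform⟩ := h lam h1 h2 hinv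
  refine ⟨p, q, hpq, hp, hq, hle, fun A B hA hB => ?_⟩
  rw [← hform A B hA hB]
  exact h3 A B hA hB
-- END j3

end Pool.Agent.Orj
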