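import Mathlib
import Pool.Agent.Orj.Fin

/-!
# A bounded over-recurrent function gives a strictly over-recurrent one; three sources of over-recurrent functions
-/

set_option autoImplicit false

open MeasureTheory Filter Topology

namespace Pool.Agent.Orj

variable {X : Type} [MeasurableSpace X]

/-- the discounted sum `∑ k, 2^{-k} f ∘ T^k` -/
noncomputable def ds (T : X → X) (f : X → ℝ) (x : X) : ℝ := ∑' k : ℕ, (1 / 2 : ℝ) ^ k * f (T^[k] x)

omit [MeasurableSpace X] in
theorem ds_summable (T : X → X) {f : X → ℝ} {C : ℝ} (hC : ∀ x, |f x| ≤ C) (x : X) :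
    Summable fun k : ℕ => (1 / 2 : ℝ) ^ k * f (T^[k] x) := by
  refine Summable.of_norm_bounded (g := fun k : ℕ => (1 / 2 : ℝ) ^ k * C)
    (summable_geometric_two.mul_right C) fun k => ?_
  rw [Real.norm_eq_abs, abs_mul, abs_of_nonneg (by positivity)]
  exact mul_le_mul_of_nonneg_left (hC _) (by positivity)

omit [MeasurableSpace X] in
theorem ds_eq (T : X → X) {f : X → ℝ} {C : ℝ} (hC : ∀ x, |f x| ≤ C) (x : X) :
    ds T f x = f x + 1 / 2 * ds T f (T x) := by
  unfold ds
  rw [(ds_summable T hC x).tsum_eq_zero_add, ← tsum_mul_left]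
  have e : ∀ k : ℕ, (1 / 2 : ℝ) ^ (k + 1) * f (T^[k + 1] x) = 1 / 2 * ((1 / 2) ^ k * f (T^[k] (T x))) := by
    intro k
    rw [Function.iterate_succ_apply, pow_succ]
    ring
  rw [tsum_congr e]
  simp

omit [MeasurableSpace X] in
theorem ds_abs (T : X → X) {f : X → ℝ} {C : ℝ} (hC : ∀ x, |f x| ≤ C) (x : X) : |ds T f x| ≤ 2 * C := by
  have h := tsum_of_norm_bounded (f := fun k : ℕ => (1 / 2 : ℝ) ^ k * f (T^[k] x))
    (hasSum_geometric_two.mul_right C) (fun k => by
      rw [Real.norm_eq_abs, abs_mul, abs_of_nonneg (by positivity)]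
      exact mul_le_mul_of_nonneg_left (hC _) (by positivity))
  exact h

theorem ds_bm {T : X → X} (hT : Measurable T) {f : X → ℝ} (hf : BM f) : BM (ds T f) := by
  obtain ⟨hm, C, hC⟩ := hf
  refine ⟨?_, 2 * C, ds_abs T hC⟩
  refine measurable_of_tendsto_metrizable
    (f := fun (N : ℕ) (x : X) => ∑ k ∈ Finset.range N, (1 / 2 : ℝ) ^ k * f (T^[k] x)) (fun N => ?_) ?_
  · exact Finset.measurable_sum _ fun k _ => (hm.comp (hT.iterate k)).const_mul _
  · exact tendsto_pi_nhds.2 fun x => (ds_summable T hC x).hasSum.tendsto_sum_nat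

theorem it_nonneg {u : ℕ → ℝ} {B : ℝ} (hB : ∀ n, |u n| ≤ B) (h : ∀ n, 1 / 2 * u (n + 1) ≤ u n) (n : ℕ) :
    0 ≤ u n := by
  have h1 : ∀ k : ℕ, (1 / 2 : ℝ) ^ k * u (n + k) ≤ u n := by
    intro k
    induction k with
    | zero => simp
    | succ k ih =>
      refine le_trans ?_ ih
      have h2 := h (n + k)
      have h3 : (0 : ℝ) ≤ (1 / 2) ^ k := by positivity
      calc (1 / 2 : ℝ) ^ (k + 1) * u (n + (k + 1)) = (1 / 2) ^ k * (1 / 2 * u (n + k + 1)) := by
            rw [pow_succ, add_assoc]; ring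
        _ ≤ (1 / 2) ^ k * u (n + k) := mul_le_mul_of_nonneg_left h2 h3
  have h2 : ∀ k : ℕ, -((1 / 2 : ℝ) ^ k * B) ≤ u n := by
    intro k
    refine le_trans ?_ (h1 k)
    have h3 : (0 : ℝ) ≤ (1 / 2) ^ k := by positivity
    have h4 := (abs_le.1 (hB (n + k))).1
    nlinarith [mul_le_mul_of_nonneg_left h4 h3]
  have h3 : Tendsto (fun k : ℕ => -((1 / 2 : ℝ) ^ k * B)) atTop (𝓝 (-(0 * B))) :=
    ((tendsto_pow_atTop_nhds_zero_of_lt_one (by norm_num) (by norm_num)).mul_const B).neg
  have h4 := ge_of_tendsto' (tendsto_const_nhds (x := u n) (f := (atTop : Filter ℕ))) (b := u n) fun k => le_rfl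
  have h5 := le_of_tendsto' h3 h2
  simpa using h5

variable {μ : Measure X} [IsProbabilityMeasure μ] {T : X → X}

theorem cc_abs {f g : X → ℝ} {C D : ℝ} (hf : ∀ x, |f x| ≤ C) (hg : ∀ x, |g x| ≤ D) (m n : ℕ) :
    |cc μ T f g m n| ≤ C * D := by
  unfold cc
  have h := norm_integral_le_of_norm_le_const (μ := μ) (f := fun x => f (T^[m] x) * g (T^[n] x)) (C := C * D)
    (Eventually.of_forall fun x => by
      rw [Real.norm_eq_abs, abs_mul]
      exact mul_le_mul (hf _) (hg _) (abs_nonneg _) ((abs_nonneg _).trans (hf (T^[m] x))))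
  simpa using h

/-- A bounded function with nonnegative correlations gives one with positive correlations. -/
theorem strict_of_weak (hT : MeasurePreserving T μ μ) {f : X → ℝ} (hf : BM f) (h0 : ∫ x, f x ∂μ = 0)
    (hv : 0 < ∫ x, f x ^ 2 ∂μ) (hc : ∀ n, 1 ≤ n → 0 ≤ co μ T f n) :
    ∃ F : X → ℝ, BM F ∧ ∫ x, F x ∂μ = 0 ∧ ∀ n, 1 ≤ n → 0 < co μ T F n := by
  obtain ⟨C, hC⟩ := hf.2
  set F : X → ℝ := ds T f with hF
  have hFb : BM F := ds_bm hT.measurable hf
  have hFC : ∀ x, |F x| ≤ 2 * C := ds_abs T hC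
  have hFe : ∀ x, F x = f x + 1 / 2 * F (T x) := ds_eq T hC
  have hit : ∀ {g : X → ℝ}, BM g → ∀ n : ℕ, BM fun x => g (T^[n] x) := fun hg n =>
    hg.comp (hT.measurable.iterate n)
  have hFn : ∀ (n : ℕ) (x : X), F (T^[n] x) = f (T^[n] x) + 1 / 2 * F (T^[n + 1] x) := by
    intro n x
    rw [Function.iterate_succ_apply', ← hFe]
  -- the integral
  have hF0 : ∫ x, F x ∂μ = 0 := by
    have e : ∫ x, F x ∂μ = ∫ x, f x ∂μ + 1 / 2 * ∫ x, F (T x) ∂μ := by
      rw [← integral_const_mul, ← integral_add hf.integrable ((hFb.comp hT.measurable).cmul (1 / 2)).integrable]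
      exact integral_congr_ae (Eventually.of_forall hFe)
    have e1 : ∫ x, F (T x) ∂μ = ∫ x, F x ∂μ := int_iter hT hFb.1 1
    rw [e1, h0] at e
    linarith
  have c0 : co μ T f 0 = ∫ x, f x ^ 2 ∂μ := by
    unfold co
    refine integral_congr_ae (Eventually.of_forall fun x => ?_)
    simp only [Function.iterate_zero, id_eq]
    ring
  have hcn : ∀ n, 0 ≤ co μ T f n := by
    intro n
    rcases Nat.eq_zero_or_pos n with h | h
    · rw [h, c0]; exact hv.le
    · exact hc n h
  -- `L m = ∫ f * F ∘ T^m`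
  have hL : ∀ m, cc μ T f F 0 m = co μ T f m + 1 / 2 * cc μ T f F 0 (m + 1) := by
    intro m
    unfold cc co
    rw [← integral_const_mul, ← integral_add (hf.mul (hit hf m)).integrable
      (((hit hf 0).mul (hit hFb (m + 1))).cmul (1 / 2)).integrable]
    refine integral_congr_ae (Eventually.of_forall fun x => ?_)
    simp only [Function.iterate_zero, id_eq]
    rw [hFn]
    ring
  have hL0 : ∀ m, 0 ≤ cc μ T f F 0 m :=
    it_nonneg (B := C * (2 * C)) (fun m => cc_abs hC hFC 0 m) fun m => by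
      have := hL m
      have := hcn m
      linarith
  -- `K n = ∫ F * f ∘ T^n`
  have hK : ∀ n, cc μ T F f 0 (n + 1) = co μ T f (n + 1) + 1 / 2 * cc μ T F f 0 n := by
    intro n
    rw [← cc_shift hT hFb hf 0 n 1]
    unfold cc co
    rw [← integral_const_mul, ← integral_add (hf.mul (hit hf (n + 1))).integrable
      (((hit hFb (0 + 1)).mul (hit hf (n + 1))).cmul (1 / 2)).integrable]
    refine integral_congr_ae (Eventually.of_forall fun x => ?_)
    simp only [Function.iterate_zero, id_eq]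
    rw [hFe]
    simp only [zero_add, Function.iterate_one]
    ring
  have hK0 : cc μ T F f 0 0 = cc μ T f F 0 0 := by
    unfold cc
    refine integral_congr_ae (Eventually.of_forall fun x => ?_)
    simp only [Function.iterate_zero, id_eq]
    ring
  have hKp : ∀ n, 0 < cc μ T F f 0 n := by
    intro n
    induction n with
    | zero =>
      rw [hK0, hL 0, c0]
      have := hL0 1
      linarith
    | succ n ih =>
      rw [hK n]
      have := hcn (n + 1)
      linarith
  -- `G n = ∫ F * F ∘ T^n`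
  have hG : ∀ n, co μ T F n = cc μ T F f 0 n + 1 / 2 * co μ T F (n + 1) := by
    intro n
    unfold cc co
    rw [← integral_const_mul, ← integral_add ((hit hFb 0).mul (hit hf n)).integrable
      ((hFb.mul (hit hFb (n + 1))).cmul (1 / 2)).integrable]
    refine integral_congr_ae (Eventually.of_forall fun x => ?_)
    simp only [Function.iterate_zero, id_eq]
    rw [hFn n x]
    ring
  have hG0 : ∀ n, 0 ≤ co μ T F n :=
    it_nonneg (B := 2 * C * (2 * C)) (fun n => by
      rw [co_eq_cc]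
      exact cc_abs hFC hFC 0 n) fun n => by
      have := hG n
      have := hKp n
      linarith
  refine ⟨F, hFb, hF0, fun n _ => ?_⟩
  have h1 := hG n
  have h2 := hKp n
  have h3 := hG0 (n + 1)
  linarith

end Pool.Agent.Orj
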