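import Mathlib
import Pool.Agent.Orj.Idv
import Pool.Agent.Orj.Pos

/-!
# Three sources of over-recurrent functions: squares, symmetric and positive infinitely divisible processes
-/

set_option autoImplicit false

open MeasureTheory Filter Topology

namespace Pool.Agent.Orj

variable {X : Type} [MeasurableSpace X] {μ : Measure X} [IsProbabilityMeasure μ] {T : X → X}

/-- a bounded over-recurrent function (not constant) gives a strictly over-recurrent function with values in `[0, 1]` -/
theorem over_of_weak (hT : MeasurePreserving T μ μ) {F : X → ℝ} (hF : BM F)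
    (hnc : ¬ ∃ c : ℝ, ∀ᵐ x ∂μ, F x = c) (h : ∀ n, 1 ≤ n → (∫ x, F x ∂μ) ^ 2 ≤ co μ T F n) :
    ∃ f : X → ℝ, BM f ∧ ∫ x, f x ∂μ = 0 ∧ ∀ n, 1 ≤ n → 0 < co μ T f n := by
  set c := ∫ x, F x ∂μ with hc
  have hb : BM fun x => F x - c := hF.sub (BM.const c)
  refine strict_of_weak hT hb ?_ ?_ ?_
  · rw [integral_sub hF.integrable (integrable_const c)]
    simp [hc]
  · have h1 : 0 ≤ ∫ x, (F x - c) ^ 2 ∂μ := integral_nonneg fun x => sq_nonneg _
    rcases h1.lt_or_eq with h2 | h2
    · exact h2
    · exfalso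
      have h3 := (integral_eq_zero_iff_of_nonneg (fun x => sq_nonneg (F x - c)) (b3_sq hb)).1 h2.symm
      refine hnc ⟨c, h3.mono fun x hx => ?_⟩
      have h4 : (F x - c) ^ 2 = 0 := hx
      have h5 : F x - c = 0 := by
        rcases sq_eq_zero_iff.1 h4 with h6
        exact h6
      linarith
  · intro n hn
    rw [co_center hT hF n]
    have := h n hn
    linarith

/-- the limit lemma: if `c ^ m = a` and `(2 c - 1) ^ m ≤ A` for all large even `m` then `a ^ 2 ≤ A` -/
theorem lim_pow {A a : ℝ} (ha : 0 < a) (ha1 : a ≤ 1)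
    (h : ∀ k : ℕ, 1 ≤ k → ∃ c : ℝ, 0 < c ∧ c ^ (2 * k) = a ∧ (0 ≤ 2 * c - 1 → (2 * c - 1) ^ (2 * k) ≤ A)) :
    a ^ 2 ≤ A := by
  set K : ℝ := 1 / a - 1 with hK
  have hK0 : 0 ≤ K := by
    rw [hK]
    have := one_le_one_div ha ha1
    linarith
  have key : ∀ k : ℕ, 1 ≤ k → K ≤ k → a ^ 2 * (1 - K ^ 2 / k) ≤ A := by
    intro k hk hKk
    obtain ⟨c, hc, hca, hcA⟩ := h k hk
    have hk0 : (0 : ℝ) < k := by exact_mod_cast hk
    have hc1 : c ≤ 1 := by
      by_contra hcc
      have : 1 < c ^ (2 * k) := one_lt_pow₀ (not_le.1 hcc) (by omega)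
      linarith
    set x : ℝ := 1 / c - 1 with hx
    have hx0 : 0 ≤ x := by
      rw [hx]
      have := one_le_one_div hc hc1
      linarith
    have hc' : c = 1 / (1 + x) := by
      rw [hx]
      field_simp
      ring
    have hxm : 1 + (2 * k : ℕ) * x ≤ 1 / a := by
      have h1 := one_add_mul_le_pow (a := x) (by linarith) (2 * k)
      have h2 : (1 + x) ^ (2 * k) = 1 / a := by
        rw [← hca]
        have : 1 + x = 1 / c := by rw [hx]; ring
        rw [this, one_div, one_div, inv_pow]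
      rw [h2] at h1
      exact h1
    have hxk : 2 * (k * x) ≤ K := by
      push_cast at hxm
      rw [hK]
      linarith
    have hx1 : x ≤ 1 / 2 := by
      by_contra hxx
      have h1 : (1 : ℝ) / 2 < x := not_le.1 hxx
      have h2 : (k : ℝ) * (1 / 2) < k * x := mul_lt_mul_of_pos_left h1 hk0
      linarith
    have e1 : 2 * c - 1 = c ^ 2 * (1 - x ^ 2) := by
      rw [hc']
      have : (1 + x) ≠ 0 := by linarith
      field_simp
      ring
    have h21 : 0 ≤ 2 * c - 1 := by
      rw [e1]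
      have : x ^ 2 ≤ 1 := by nlinarith
      have := sq_nonneg c
      nlinarith
    refine le_trans ?_ (hcA h21)
    rw [e1, mul_pow, ← pow_mul, mul_comm 2 (2 * k), pow_mul, hca]
    refine mul_le_mul_of_nonneg_left ?_ (sq_nonneg a)
    have h3 := one_add_mul_le_pow (a := -x ^ 2) (by nlinarith) (2 * k)
    have h4 : (1 + -x ^ 2) = 1 - x ^ 2 := by ring
    rw [h4] at h3
    refine le_trans ?_ h3
    push_cast
    have h5 : 2 * k * x ^ 2 ≤ K ^ 2 / k := by
      rw [le_div_iff₀ hk0]
      have h6 : 0 ≤ (k : ℝ) * x := by positivity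
      nlinarith [mul_le_mul hxk hxk (by positivity) hK0]
    nlinarith
  have hlim : Tendsto (fun k : ℕ => a ^ 2 * (1 - K ^ 2 / k)) atTop (𝓝 (a ^ 2 * (1 - 0))) :=
    (tendsto_const_nhds.sub (tendsto_const_div_atTop_nhds_zero_nat (K ^ 2))).const_mul _
  have hev : ∀ᶠ k : ℕ in atTop, a ^ 2 * (1 - K ^ 2 / k) ≤ A := by
    obtain ⟨k0, hk0⟩ := exists_nat_ge K
    filter_upwards [eventually_ge_atTop (max 1 k0)] with k hk
    exact key k (le_trans (le_max_left _ _) hk)
      (hk0.trans (by exact_mod_cast le_trans (le_max_right _ _) hk))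
  have := le_of_tendsto hlim hev
  simpa using this

/-! ### squares -/

theorem of_square (hT : MeasurePreserving T μ μ) (h : SquareFactor μ T) :
    ∃ f : X → ℝ, Measurable f ∧ (∀ x, 0 ≤ f x ∧ f x ≤ 1) ∧
      ∀ n : ℕ, 1 ≤ n → (∫ x, f x ∂μ) ^ 2 < ∫ x, f x * f (T^[n] x) ∂μ := by
  obtain ⟨Y, _, ν, S, π, _, hS, hπ, hc, A, hA, hA0, hA1⟩ := h
  have hSS : MeasurePreserving (Prod.map S S) (ν.prod ν) (ν.prod ν) := hS.prod hS
  refine to_factor hT hSS hπ hc ?_
  set p : ℝ := ν.real A with hp
  have hp0 : 0 < p := by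
    rw [hp, measureReal_def]
    exact ENNReal.toReal_pos hA0.ne' (measure_ne_top _ _)
  have hp1 : p < 1 := by
    rw [hp, measureReal_def]
    have := (ENNReal.toReal_lt_toReal (measure_ne_top ν A) ENNReal.one_ne_top).2 hA1
    simpa using this
  set u : Y → ℝ := fun y => A.indicator (fun _ => (1 : ℝ)) y - p with hu
  have hib : BM fun y : Y => A.indicator (fun _ => (1 : ℝ)) y := by
    refine ⟨measurable_const.indicator hA, 1, fun y => ?_⟩
    by_cases hy : y ∈ A
    · simp [hy]
    · simp [hy]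
  have hub : BM u := hib.sub (BM.const p)
  have hu0 : ∫ y, u y ∂ν = 0 := by
    rw [hu, integral_sub hib.integrable (integrable_const p), integral_indicator_const _ hA]
    simp [hp]
  have hu2 : 0 < ∫ y, u y ^ 2 ∂ν := by
    have e : ∀ y, u y ^ 2 = (1 - 2 * p) * A.indicator (fun _ => (1 : ℝ)) y + p ^ 2 := by
      intro y
      simp only [hu]
      by_cases hy : y ∈ A
      · simp [hy]; ring
      · simp [hy]
    simp only [e]
    rw [integral_add (hib.integrable.const_mul _) (integrable_const _), integral_const_mul,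
      integral_indicator_const _ hA]
    simp only [smul_eq_mul, mul_one, integral_const, probReal_univ, one_mul]
    rw [← hp]
    nlinarith [mul_pos hp0 (sub_pos.2 hp1)]
  set F : Y × Y → ℝ := fun z => u z.1 * u z.2 with hF
  obtain ⟨C, hC⟩ := hub.2
  have hFb : BM F := by
    refine ⟨(hub.1.comp measurable_fst).mul (hub.1.comp measurable_snd), C * C, fun z => ?_⟩
    rw [hF, abs_mul]
    exact mul_le_mul (hC _) (hC _) (abs_nonneg _) ((abs_nonneg _).trans (hC z.1))
  refine strict_of_weak hSS hFb ?_ ?_ ?_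
  · rw [hF, integral_prod_mul u u, hu0, mul_zero]
  · have e : ∀ z : Y × Y, F z ^ 2 = (fun y => u y ^ 2) z.1 * (fun y => u y ^ 2) z.2 := by
      intro z
      simp only [hF]
      ring
    simp only [e]
    rw [integral_prod_mul (fun y => u y ^ 2) (fun y => u y ^ 2)]
    exact mul_pos hu2 hu2
  · intro n _
    unfold co
    have e : ∀ z : Y × Y, F z * F ((Prod.map S S)^[n] z) =
        (fun y => u y * u (S^[n] y)) z.1 * (fun y => u y * u (S^[n] y)) z.2 := by
      intro z
      rw [Prod.map_iterate]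
      simp only [hF, Prod.map_fst, Prod.map_snd]
      ring
    simp only [e]
    rw [integral_prod_mul (fun y => u y * u (S^[n] y)) (fun y => u y * u (S^[n] y))]
    exact mul_self_nonneg _

/-! ### positive infinitely divisible processes -/

theorem of_pos (hT : MeasurePreserving T μ μ) {g : X → ℝ} (h : PosProcess μ T g) :
    ∃ f : X → ℝ, BM f ∧ ∫ x, f x ∂μ = 0 ∧ ∀ n, 1 ≤ n → 0 < co μ T f n := by
  obtain ⟨hg, hg0, hnc, hid⟩ := h
  have hFm : Measurable fun x => Real.exp (-g x) := (Real.measurable_exp.comp hg.neg)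
  have hFb : BM fun x => Real.exp (-g x) := by
    refine ⟨hFm, 1, fun x => ?_⟩
    rw [abs_of_pos (Real.exp_pos _), Real.exp_le_one_iff]
    have := hg0 x
    linarith
  refine over_of_weak hT hFb ?_ ?_
  · rintro ⟨c, hc⟩
    refine hnc ⟨-Real.log c, hc.mono fun x hx => ?_⟩
    have : Real.exp (-g x) = c := hx
    rw [← this, Real.log_exp, neg_neg]
  · intro n hn
    set a : ℝ := ∫ x, Real.exp (-g x) ∂μ with ha
    have hgn : Measurable fun x => g (T^[n] x) := hg.comp (hT.measurable.iterate n)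
    have hpair : Measurable fun x => (g x, g (T^[n] x)) := hg.prodMk hgn
    have hmap : ∀ s t : ℝ, ∫ u, Real.exp (-(s * u.1 + t * u.2)) ∂(μ.map fun x => (g x, g (T^[n] x))) =
        ∫ x, Real.exp (-(s * g x + t * g (T^[n] x))) ∂μ := by
      intro s t
      have hm : Measurable fun u : ℝ × ℝ => Real.exp (-(s * u.1 + t * u.2)) :=
        Real.measurable_exp.comp (((measurable_fst.const_mul s).add (measurable_snd.const_mul t)).neg)
      exact integral_map hpair.aemeasurable hm.aestronglyMeasurable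
    have ha0 : 0 < a := by
      rw [ha]
      exact integral_exp_pos hFb.integrable
    have ha1 : a ≤ 1 := by
      have h1 : ∫ x, Real.exp (-g x) ∂μ ≤ ∫ _ : X, (1 : ℝ) ∂μ :=
        integral_mono hFb.integrable (integrable_const _) fun x => by
          show Real.exp (-g x) ≤ 1
          rw [Real.exp_le_one_iff]
          have := hg0 x
          linarith
      simpa using h1
    refine lim_pow ha0 ha1 fun k hk => ?_
    obtain ⟨ν, hν, hq, hL⟩ := hid n hn (2 * k) (by omega)
    have hE : ∀ s t : ℝ, 0 ≤ s → 0 ≤ t → Measurable (fun u : ℝ × ℝ => Real.exp (-(s * u.1 + t * u.2))) ∧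
        Integrable (fun u : ℝ × ℝ => Real.exp (-(s * u.1 + t * u.2))) ν := by
      intro s t hs ht
      have hm : Measurable fun u : ℝ × ℝ => Real.exp (-(s * u.1 + t * u.2)) :=
        Real.measurable_exp.comp (((measurable_fst.const_mul s).add (measurable_snd.const_mul t)).neg)
      refine ⟨hm, Integrable.of_bound hm.aestronglyMeasurable 1 (hq.mono fun u hu => ?_)⟩
      rw [Real.norm_eq_abs, abs_of_pos (Real.exp_pos _), Real.exp_le_one_iff]
      have := mul_nonneg hs hu.1
      have := mul_nonneg ht hu.2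
      linarith
    set c : ℝ := ∫ u, Real.exp (-(1 * u.1 + 0 * u.2)) ∂ν with hc
    set c' : ℝ := ∫ u, Real.exp (-(0 * u.1 + 1 * u.2)) ∂ν with hc'
    have hcp : 0 < c := integral_exp_pos (hE 1 0 zero_le_one le_rfl).2
    have hcp' : 0 < c' := integral_exp_pos (hE 0 1 le_rfl zero_le_one).2
    have h1 : c ^ (2 * k) = a := by
      rw [hc, ← hL 1 0 zero_le_one le_rfl, hmap, ha]
      refine integral_congr_ae (Eventually.of_forall fun x => ?_)
      simp
    have h2 : c' ^ (2 * k) = a := by
      rw [hc', ← hL 0 1 le_rfl zero_le_one, hmap, ha, ← int_iter hT hFm n]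
      refine integral_congr_ae (Eventually.of_forall fun x => ?_)
      simp
    have hcc : c = c' := (pow_left_inj₀ hcp.le hcp'.le (by omega : 2 * k ≠ 0)).1 (h1.trans h2.symm)
    refine ⟨c, hcp, h1, fun h21 => ?_⟩
    have h3 : co μ T (fun x => Real.exp (-g x)) n = (∫ u, Real.exp (-(1 * u.1 + 1 * u.2)) ∂ν) ^ (2 * k) := by
      rw [← hL 1 1 zero_le_one zero_le_one, hmap]
      unfold co
      refine integral_congr_ae (Eventually.of_forall fun x => ?_)
      show Real.exp (-g x) * Real.exp (-g (T^[n] x)) = Real.exp (-(1 * g x + 1 * g (T^[n] x)))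
      rw [← Real.exp_add]
      congr 1
      ring
    rw [h3]
    refine pow_le_pow_left₀ h21 ?_ _
    have h4 : ∫ u, (Real.exp (-(1 * u.1 + 0 * u.2)) + Real.exp (-(0 * u.1 + 1 * u.2)) - 1) ∂ν ≤
        ∫ u, Real.exp (-(1 * u.1 + 1 * u.2)) ∂ν := by
      refine integral_mono_ae (((hE 1 0 zero_le_one le_rfl).2.add (hE 0 1 le_rfl zero_le_one).2).sub
        (integrable_const 1)) (hE 1 1 zero_le_one zero_le_one).2 (hq.mono fun u hu => ?_)
      show Real.exp (-(1 * u.1 + 0 * u.2)) + Real.exp (-(0 * u.1 + 1 * u.2)) - 1 ≤ Real.exp (-(1 * u.1 + 1 * u.2))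
      have e1 : Real.exp (-(1 * u.1 + 1 * u.2)) = Real.exp (-u.1) * Real.exp (-u.2) := by
        rw [← Real.exp_add]
        congr 1
        ring
      have e2 : Real.exp (-(1 * u.1 + 0 * u.2)) = Real.exp (-u.1) := by congr 1; ring
      have e3 : Real.exp (-(0 * u.1 + 1 * u.2)) = Real.exp (-u.2) := by congr 1; ring
      rw [e1, e2, e3]
      have a1 : Real.exp (-u.1) ≤ 1 := Real.exp_le_one_iff.2 (by linarith [hu.1])
      have a2 : Real.exp (-u.2) ≤ 1 := Real.exp_le_one_iff.2 (by linarith [hu.2])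
      nlinarith [mul_nonneg (sub_nonneg.2 a1) (sub_nonneg.2 a2)]
    have i2 : Integrable (fun u : ℝ × ℝ => Real.exp (-(1 * u.1 + 0 * u.2)) + Real.exp (-(0 * u.1 + 1 * u.2))) ν :=
      (hE 1 0 zero_le_one le_rfl).2.add (hE 0 1 le_rfl zero_le_one).2
    rw [integral_sub i2 (integrable_const 1),
      integral_add (hE 1 0 zero_le_one le_rfl).2 (hE 0 1 le_rfl zero_le_one).2] at h4
    rw [← hc, ← hc', ← hcc] at h4
    simp only [integral_const, probReal_univ, one_smul] at h4
    linarith

end Pool.Agent.Orj
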