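import Mathlib
import Pool.Agent.Orj.Src

/-!
# Symmetric infinitely divisible processes
-/

set_option autoImplicit false

open MeasureTheory Filter Topology

namespace Pool.Agent.Orj

section laws

variable {Ω : Type} [MeasurableSpace Ω] {ρ : Measure Ω} [IsProbabilityMeasure ρ]

theorem cos_int {θ : Ω → ℝ} (hθ : Measurable θ) : Integrable (fun u => Real.cos (θ u)) ρ :=
  Integrable.of_bound (Real.measurable_cos.comp hθ).aestronglyMeasurable 1
    (Eventually.of_forall fun u => by rw [Real.norm_eq_abs]; exact Real.abs_cos_le_one _)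

theorem sin_int {θ : Ω → ℝ} (hθ : Measurable θ) : Integrable (fun u => Real.sin (θ u)) ρ :=
  Integrable.of_bound (Real.measurable_sin.comp hθ).aestronglyMeasurable 1
    (Eventually.of_forall fun u => by rw [Real.norm_eq_abs]; exact Real.abs_sin_le_one _)

theorem int_exp {θ : Ω → ℝ} (hθ : Measurable θ) :
    ∫ u, Complex.exp ((θ u : ℂ) * Complex.I) ∂ρ =
      ((∫ u, Real.cos (θ u) ∂ρ : ℝ) : ℂ) + ((∫ u, Real.sin (θ u) ∂ρ : ℝ) : ℂ) * Complex.I := by
  have e : ∀ u, Complex.exp ((θ u : ℂ) * Complex.I) =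
      ((Real.cos (θ u) : ℝ) : ℂ) + ((Real.sin (θ u) : ℝ) : ℂ) * Complex.I := by
    intro u
    rw [Complex.exp_mul_I]
    push_cast
    rfl
  simp only [e]
  have h1 : ∫ u, ((Real.cos (θ u) : ℝ) : ℂ) ∂ρ = ((∫ u, Real.cos (θ u) ∂ρ : ℝ) : ℂ) := integral_complex_ofReal
  have h2 : ∫ u, ((Real.sin (θ u) : ℝ) : ℂ) ∂ρ = ((∫ u, Real.sin (θ u) ∂ρ : ℝ) : ℂ) := integral_complex_ofReal
  rw [integral_add (cos_int hθ).ofReal ((sin_int hθ).ofReal.mul_const _), integral_mul_const]
  rw [← h1, ← h2]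

theorem cos_cont {g : Ω → ℝ} (hg : Measurable g) : Continuous fun s : ℝ => ∫ u, Real.cos (s * g u) ∂ρ := by
  refine continuous_of_dominated (bound := fun _ => (1 : ℝ)) (fun s => ?_) (fun s => ?_) (integrable_const _) ?_
  · exact (Real.measurable_cos.comp (hg.const_mul s)).aestronglyMeasurable
  · exact Eventually.of_forall fun u => by rw [Real.norm_eq_abs]; exact Real.abs_cos_le_one _
  · exact Eventually.of_forall fun u => Real.continuous_cos.comp (continuous_id.mul continuous_const)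

end laws

/-- the characteristic function of a symmetric law is the integral of the cosine -/
theorem symm_exp {ν : Measure (ℝ × ℝ)} [IsProbabilityMeasure ν] (h : ν.map (fun u => -u) = ν) (s t : ℝ) :
    ∫ u, Complex.exp (((s * u.1 + t * u.2 : ℝ) : ℂ) * Complex.I) ∂ν =
      ((∫ u, Real.cos (s * u.1 + t * u.2) ∂ν : ℝ) : ℂ) := by
  have hm : Measurable fun u : ℝ × ℝ => s * u.1 + t * u.2 :=
    (measurable_fst.const_mul s).add (measurable_snd.const_mul t)
  have h0 : ∫ u, Real.sin (s * u.1 + t * u.2) ∂ν = 0 := by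
    have h1 : ∫ u, Real.sin (s * u.1 + t * u.2) ∂(ν.map fun u => -u) =
        ∫ u : ℝ × ℝ, Real.sin (s * (-u).1 + t * (-u).2) ∂ν :=
      integral_map measurable_neg.aemeasurable (Real.measurable_sin.comp hm).aestronglyMeasurable
    rw [h] at h1
    have h2 : ∀ u : ℝ × ℝ, Real.sin (s * (-u).1 + t * (-u).2) = -Real.sin (s * u.1 + t * u.2) := by
      intro u
      rw [← Real.sin_neg]
      congr 1
      simp only [Prod.fst_neg, Prod.snd_neg]
      ring
    simp only [h2] at h1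
    rw [integral_neg] at h1
    linarith
  rw [int_exp hm, h0]
  simp

variable {X : Type} [MeasurableSpace X] {μ : Measure X} [IsProbabilityMeasure μ] {T : X → X}

theorem symm_root (hT : MeasurePreserving T μ μ) {g : X → ℝ} (h : SymmProcess μ T g) {n m : ℕ} (hn : 1 ≤ n)
    (hm : 1 ≤ m) : ∃ ν : Measure (ℝ × ℝ), IsProbabilityMeasure ν ∧
      ∀ s t : ℝ, ∫ x, Real.cos (s * g x + t * g (T^[n] x)) ∂μ = (∫ u, Real.cos (s * u.1 + t * u.2) ∂ν) ^ m := by
  obtain ⟨hg, _, hid⟩ := h
  obtain ⟨ν, hν, hs, hL⟩ := hid n hn m hm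
  refine ⟨ν, hν, fun s t => ?_⟩
  have hgn : Measurable fun x => g (T^[n] x) := hg.comp (hT.measurable.iterate n)
  have hpair : Measurable fun x => (g x, g (T^[n] x)) := hg.prodMk hgn
  have hθ : Measurable fun u : ℝ × ℝ => s * u.1 + t * u.2 :=
    (measurable_fst.const_mul s).add (measurable_snd.const_mul t)
  have hmap : ∫ u, Complex.exp (((s * u.1 + t * u.2 : ℝ) : ℂ) * Complex.I) ∂(μ.map fun x => (g x, g (T^[n] x))) =
      ∫ x, Complex.exp (((s * g x + t * g (T^[n] x) : ℝ) : ℂ) * Complex.I) ∂μ := by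
    have hm : Measurable fun u : ℝ × ℝ => Complex.exp (((s * u.1 + t * u.2 : ℝ) : ℂ) * Complex.I) :=
      Complex.measurable_exp.comp ((Complex.measurable_ofReal.comp hθ).mul_const _)
    exact integral_map hpair.aemeasurable hm.aestronglyMeasurable
  have h1 := hL s t
  have hθ' : Measurable fun x => s * g x + t * g (T^[n] x) := (hg.const_mul s).add (hgn.const_mul t)
  rw [hmap, symm_exp hs, int_exp (ρ := μ) hθ', ← Complex.ofReal_pow] at h1
  have h2 := congrArg Complex.re h1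
  rw [Complex.ofReal_re, Complex.add_re, Complex.ofReal_re, Complex.re_ofReal_mul, Complex.I_re, mul_zero,
    add_zero] at h2
  exact h2

theorem not_abs_const (hT : MeasurePreserving T μ μ) {g : X → ℝ} (h : SymmProcess μ T g) :
    ¬ ∃ c : ℝ, ∀ᵐ x ∂μ, |g x| = c := by
  rintro ⟨c, hc⟩
  obtain ⟨ν, hν, hL⟩ := symm_root hT h (le_refl 1) (by norm_num : 1 ≤ 2)
  rcases le_or_gt c 0 with hc0 | hc0
  · refine h.2.1 ⟨0, hc.mono fun x hx => ?_⟩
    have h1 : |g x| = 0 := le_antisymm (hx.le.trans hc0) (abs_nonneg _)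
    exact abs_eq_zero.1 h1
  · have h1 := hL (Real.pi / c) 0
    have h2 : ∫ x, Real.cos (Real.pi / c * g x + 0 * g (T^[1] x)) ∂μ = ∫ _ : X, (-1 : ℝ) ∂μ := by
      refine integral_congr_ae (hc.mono fun x hx => ?_)
      show Real.cos (Real.pi / c * g x + 0 * g (T^[1] x)) = -1
      rw [zero_mul, add_zero, ← Real.cos_abs, abs_mul, hx, abs_of_pos (div_pos Real.pi_pos hc0),
        div_mul_cancel₀ _ hc0.ne', Real.cos_pi]
    rw [h2] at h1
    simp only [integral_const, probReal_univ, one_smul] at h1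
    nlinarith [sq_nonneg (∫ u : ℝ × ℝ, Real.cos (Real.pi / c * u.1 + 0 * u.2) ∂ν)]

theorem exists_scale (hT : MeasurePreserving T μ μ) {g : X → ℝ} (h : SymmProcess μ T g) :
    ∃ r : ℝ, 0 < r ∧ (∀ s, 0 ≤ s → s ≤ r → 0 < ∫ x, Real.cos (s * g x) ∂μ) ∧
      ¬ ∃ c : ℝ, ∀ᵐ x ∂μ, Real.cos (r * g x) = c := by
  have hcont := cos_cont (ρ := μ) h.1
  have h0 : (0 : ℝ) < ∫ x, Real.cos (0 * g x) ∂μ := by
    simp
  obtain ⟨δ, hδ, hδ'⟩ := Metric.eventually_nhds_iff.1 (hcont.continuousAt.eventually (lt_mem_nhds h0))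
  have hφ : ∀ s, 0 ≤ s → s < δ → 0 < ∫ x, Real.cos (s * g x) ∂μ := by
    intro s hs hsδ
    refine hδ' ?_
    rw [Real.dist_eq, sub_zero, abs_of_nonneg hs]
    exact hsδ
  by_contra hne
  push Not at hne
  have hr : ∀ k : ℕ, 0 < δ / (k + 2) ∧ δ / (k + 2) < δ := by
    intro k
    have hk : (0 : ℝ) < k + 2 := by positivity
    refine ⟨div_pos hδ hk, ?_⟩
    rw [div_lt_iff₀ hk]
    have : (0 : ℝ) ≤ k := Nat.cast_nonneg k
    nlinarith
  have hk : ∀ k : ℕ, ∃ c : ℝ, ∀ᵐ x ∂μ, Real.cos (δ / (k + 2) * g x) = c := fun k =>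
    hne _ (hr k).1 fun s hs hsr => hφ s hs (lt_of_le_of_lt hsr (hr k).2)
  choose κ hκ using hk
  have hall : ∀ᵐ x ∂μ, ∀ k : ℕ, Real.cos (δ / (k + 2) * g x) = κ k := ae_all_iff.2 hκ
  obtain ⟨x0, hx0⟩ := hall.exists
  refine not_abs_const hT h ⟨|g x0|, hall.mono fun x hx => ?_⟩
  obtain ⟨k, hk⟩ := exists_nat_ge (δ * (|g x| + |g x0|) / Real.pi)
  have hk2 : (0 : ℝ) < k + 2 := by positivity
  have hb : δ / (k + 2) * (|g x| + |g x0|) ≤ Real.pi := by
    rw [div_mul_eq_mul_div, div_le_iff₀ hk2]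
    rw [div_le_iff₀ Real.pi_pos] at hk
    have := Real.pi_pos
    nlinarith
  have hpos := (hr k).1
  have ha : 0 ≤ δ / (k + 2) * |g x| := by positivity
  have hb' : 0 ≤ δ / (k + 2) * |g x0| := by positivity
  have e1 : Real.cos (δ / (k + 2) * |g x|) = Real.cos (δ / (k + 2) * |g x0|) := by
    have e2 : ∀ y : ℝ, Real.cos (δ / (k + 2) * |y|) = Real.cos (δ / (k + 2) * y) := by
      intro y
      rw [← Real.cos_abs (δ / (k + 2) * y), abs_mul, abs_of_pos hpos]
    rw [e2, e2, hx k, hx0 k]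
  have e3 := Real.injOn_cos ⟨ha, by nlinarith⟩ ⟨hb', by nlinarith⟩ e1
  exact mul_left_cancel₀ hpos.ne' e3

theorem root_pos {φ ψ : ℝ → ℝ} {r : ℝ} {m : ℕ} (hm : m ≠ 0) (hr : 0 ≤ r) (hψ : Continuous ψ) (h0 : ψ 0 = 1)
    (h : ∀ s, ψ s ^ m = φ s) (hφ : ∀ s, 0 ≤ s → s ≤ r → 0 < φ s) : 0 < ψ r := by
  by_contra hc
  have hc' : ψ r ≤ 0 := not_lt.1 hc
  have h1 : (0 : ℝ) ∈ Set.Icc (ψ r) (ψ 0) := ⟨hc', by rw [h0]; exact zero_le_one⟩
  obtain ⟨s, hs, hs0⟩ := intermediate_value_Icc' hr hψ.continuousOn h1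
  have h2 := hφ s hs.1 hs.2
  rw [← h s, hs0, zero_pow hm] at h2
  exact lt_irrefl _ h2

theorem of_symm (hT : MeasurePreserving T μ μ) {g : X → ℝ} (h : SymmProcess μ T g) :
    ∃ f : X → ℝ, BM f ∧ ∫ x, f x ∂μ = 0 ∧ ∀ n, 1 ≤ n → 0 < co μ T f n := by
  obtain ⟨r, hr, hφ, hnc⟩ := exists_scale hT h
  have hg := h.1
  have hFm : Measurable fun x => Real.cos (r * g x) := Real.measurable_cos.comp (hg.const_mul r)
  have hFb : BM fun x => Real.cos (r * g x) := ⟨hFm, 1, fun x => Real.abs_cos_le_one _⟩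
  refine over_of_weak hT hFb hnc fun n hn => ?_
  set a : ℝ := ∫ x, Real.cos (r * g x) ∂μ with ha
  have ha0 : 0 < a := hφ r hr.le le_rfl
  have ha1 : a ≤ 1 := by
    have h1 : a ≤ ∫ _ : X, (1 : ℝ) ∂μ :=
      integral_mono hFb.integrable (integrable_const _) fun x => Real.cos_le_one _
    simpa using h1
  refine lim_pow ha0 ha1 fun k hk => ?_
  obtain ⟨ν, hν, hL⟩ := symm_root hT h hn (by omega : 1 ≤ 2 * k)
  have h2k : 2 * k ≠ 0 := by omega
  have hgn : Measurable fun x => g (T^[n] x) := hg.comp (hT.measurable.iterate n)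
  set c : ℝ := ∫ u : ℝ × ℝ, Real.cos (r * u.1) ∂ν with hc
  set c' : ℝ := ∫ u : ℝ × ℝ, Real.cos (r * u.2) ∂ν with hc'
  have hL1 : ∀ s : ℝ, (∫ u : ℝ × ℝ, Real.cos (s * u.1) ∂ν) ^ (2 * k) = ∫ x, Real.cos (s * g x) ∂μ := by
    intro s
    have := hL s 0
    simpa using this.symm
  have hL2 : ∀ s : ℝ, (∫ u : ℝ × ℝ, Real.cos (s * u.2) ∂ν) ^ (2 * k) = ∫ x, Real.cos (s * g x) ∂μ := by
    intro s
    have h1 := hL 0 s
    have h2 := int_iter hT (f := fun x => Real.cos (s * g x)) (Real.measurable_cos.comp (hg.const_mul s)) n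
    rw [← h2]
    simpa using h1.symm
  have hcp : 0 < c := root_pos (φ := fun s => ∫ x, Real.cos (s * g x) ∂μ)
    (ψ := fun s => ∫ u : ℝ × ℝ, Real.cos (s * u.1) ∂ν) h2k hr.le (cos_cont (ρ := ν) measurable_fst) (by simp) hL1 hφ
  have hcp' : 0 < c' := root_pos (φ := fun s => ∫ x, Real.cos (s * g x) ∂μ)
    (ψ := fun s => ∫ u : ℝ × ℝ, Real.cos (s * u.2) ∂ν) h2k hr.le (cos_cont (ρ := ν) measurable_snd) (by simp) hL2 hφ
  have hcc : c = c' := (pow_left_inj₀ hcp.le hcp'.le h2k).1 ((hL1 r).trans (hL2 r).symm)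
  refine ⟨c, hcp, hL1 r, fun h21 => ?_⟩
  set P : ℝ := ∫ u : ℝ × ℝ, Real.cos (r * u.1 + -r * u.2) ∂ν with hP
  set Q : ℝ := ∫ u : ℝ × ℝ, Real.cos (r * u.1 + r * u.2) ∂ν with hQ
  have m1 : Measurable fun u : ℝ × ℝ => r * u.1 := measurable_fst.const_mul r
  have m2 : Measurable fun u : ℝ × ℝ => r * u.2 := measurable_snd.const_mul r
  have m3 : Measurable fun u : ℝ × ℝ => -r * u.2 := measurable_snd.const_mul (-r)
  have hA : co μ T (fun x => Real.cos (r * g x)) n = (P ^ (2 * k) + Q ^ (2 * k)) / 2 := by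
    rw [hP, hQ, ← hL r (-r), ← hL r r]
    have i1 : Integrable (fun x => Real.cos (r * g x + -r * g (T^[n] x))) μ :=
      cos_int ((hg.const_mul r).add (hgn.const_mul (-r)))
    have i2 : Integrable (fun x => Real.cos (r * g x + r * g (T^[n] x))) μ :=
      cos_int ((hg.const_mul r).add (hgn.const_mul r))
    rw [← integral_add i1 i2, ← integral_div]
    unfold co
    refine integral_congr_ae (Eventually.of_forall fun x => ?_)
    show Real.cos (r * g x) * Real.cos (r * g (T^[n] x)) =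
      (Real.cos (r * g x + -r * g (T^[n] x)) + Real.cos (r * g x + r * g (T^[n] x))) / 2
    rw [neg_mul, ← sub_eq_add_neg, Real.cos_sub, Real.cos_add]
    ring
  have hPQ : 2 * c - 1 ≤ (P + Q) / 2 := by
    have i1 : Integrable (fun u : ℝ × ℝ => Real.cos (r * u.1 + -r * u.2)) ν := cos_int (m1.add m3)
    have i2 : Integrable (fun u : ℝ × ℝ => Real.cos (r * u.1 + r * u.2)) ν := cos_int (m1.add m2)
    have i3 : Integrable (fun u : ℝ × ℝ => Real.cos (r * u.1)) ν := cos_int m1
    have i4 : Integrable (fun u : ℝ × ℝ => Real.cos (r * u.2)) ν := cos_int m2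
    have i34 : Integrable (fun u : ℝ × ℝ => Real.cos (r * u.1) + Real.cos (r * u.2)) ν := i3.add i4
    have i12 : Integrable (fun u : ℝ × ℝ => (Real.cos (r * u.1 + -r * u.2) + Real.cos (r * u.1 + r * u.2)) / 2) ν :=
      (i1.add i2).div_const 2
    have h4 : ∫ u : ℝ × ℝ, (Real.cos (r * u.1) + Real.cos (r * u.2) - 1) ∂ν ≤
        ∫ u : ℝ × ℝ, (Real.cos (r * u.1 + -r * u.2) + Real.cos (r * u.1 + r * u.2)) / 2 ∂ν := by
      refine integral_mono (i34.sub (integrable_const 1)) i12 fun u => ?_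
      show Real.cos (r * u.1) + Real.cos (r * u.2) - 1 ≤
        (Real.cos (r * u.1 + -r * u.2) + Real.cos (r * u.1 + r * u.2)) / 2
      rw [neg_mul, ← sub_eq_add_neg, Real.cos_sub, Real.cos_add]
      have a1 := Real.cos_le_one (r * u.1)
      have a2 := Real.cos_le_one (r * u.2)
      nlinarith [mul_nonneg (sub_nonneg.2 a1) (sub_nonneg.2 a2)]
    rw [integral_sub i34 (integrable_const 1), integral_add i3 i4, integral_div, integral_add i1 i2] at h4
    rw [← hc, ← hc', ← hcc, ← hP, ← hQ] at h4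
    simp only [integral_const, probReal_univ, one_smul] at h4
    linarith
  rw [hA]
  have h5 : (2 * c - 1) ^ (2 * k) ≤ ((P + Q) / 2) ^ (2 * k) := pow_le_pow_left₀ h21 hPQ _
  refine h5.trans ?_
  have hconv := (Even.convexOn_pow (𝕜 := ℝ) (n := 2 * k) (even_two_mul k)).2 (Set.mem_univ P) (Set.mem_univ Q)
    (by norm_num : (0 : ℝ) ≤ 1 / 2) (by norm_num : (0 : ℝ) ≤ 1 / 2) (by norm_num)
  simp only [smul_eq_mul] at hconv
  have e1 : 1 / 2 * P + 1 / 2 * Q = (P + Q) / 2 := by ring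
  rw [e1] at hconv
  linarith

/-! ### Gaussian processes -/

theorem symmProcess_of_gaussian (hT : MeasurePreserving T μ μ) {g : X → ℝ} (hG : GaussProcess μ T g) :
    SymmProcess μ T g := by
  obtain ⟨hg, h0, h⟩ := hG
  have hgn : ∀ n : ℕ, Measurable fun x => g (T^[n] x) := fun n => hg.comp (hT.measurable.iterate n)
  have hcomb : ∀ (n : ℕ) (s t : ℝ), Measurable fun x => s * g x + t * g (T^[n] x) := fun n s t =>
    (hg.const_mul s).add ((hgn n).const_mul t)
  -- the characteristic function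
  have hchar : ∀ (n : ℕ) (s t : ℝ), ∃ v : NNReal, (μ.map (fun x => s * g x + t * g (T^[n] x)) =
      ProbabilityTheory.gaussianReal 0 v) ∧ ∀ z : ℝ,
      ∫ x, Complex.exp (((z * (s * g x + t * g (T^[n] x)) : ℝ) : ℂ) * Complex.I) ∂μ =
        Complex.exp (-(v * z ^ 2 / 2)) := by
    intro n s t
    obtain ⟨v, hv⟩ := h n s t
    refine ⟨v, hv, fun z => ?_⟩
    have h1 := ProbabilityTheory.charFun_gaussianReal (μ := 0) (v := v) z
    rw [← hv, charFun_apply_real] at h1
    have hm : Measurable fun y : ℝ => Complex.exp ((z : ℂ) * (y : ℂ) * Complex.I) :=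
      Complex.measurable_exp.comp ((Complex.measurable_ofReal.const_mul _).mul_const _)
    rw [integral_map (hcomb n s t).aemeasurable hm.aestronglyMeasurable] at h1
    have e : ∀ x, Complex.exp (((z * (s * g x + t * g (T^[n] x)) : ℝ) : ℂ) * Complex.I) =
        Complex.exp ((z : ℂ) * ((s * g x + t * g (T^[n] x) : ℝ) : ℂ) * Complex.I) := by
      intro x
      push_cast
      rfl
    simp only [e]
    rw [h1]
    congr 1
    simp
  refine ⟨hg, ?_, fun n _ m hm => ?_⟩
  · rintro ⟨c, hc⟩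
    obtain ⟨v, hv, hz⟩ := hchar 0 1 0
    -- the law of `g` is a point mass at `c`; its characteristic function has modulus one, so `v = 0`
    have h1 := hz 1
    have h2 : ∫ x, Complex.exp (((1 * (1 * g x + 0 * g (T^[0] x)) : ℝ) : ℂ) * Complex.I) ∂μ =
        Complex.exp ((c : ℂ) * Complex.I) := by
      have : ∫ x, Complex.exp (((1 * (1 * g x + 0 * g (T^[0] x)) : ℝ) : ℂ) * Complex.I) ∂μ =
          ∫ _ : X, Complex.exp ((c : ℂ) * Complex.I) ∂μ := by
        refine integral_congr_ae (hc.mono fun x hx => ?_)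
        simp [hx]
      rw [this]
      simp
    rw [h2] at h1
    have h3 := congrArg (fun w : ℂ => ‖w‖) h1
    simp only [Complex.norm_exp_ofReal_mul_I] at h3
    rw [Complex.norm_exp] at h3
    have h4 : (-((v : ℂ) * ((1 : ℝ) : ℂ) ^ 2 / 2)).re = -((v : ℝ) / 2) := by
      have : (-((v : ℂ) * ((1 : ℝ) : ℂ) ^ 2 / 2)) = ((-((v : ℝ) / 2) : ℝ) : ℂ) := by
        push_cast
        ring
      rw [this, Complex.ofReal_re]
    rw [h4] at h3
    have h5 : (v : ℝ) = 0 := by
      have := Real.exp_eq_one_iff _ |>.1 h3.symm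
      linarith
    have h6 : v = 0 := by exact_mod_cast h5
    rw [h6, ProbabilityTheory.gaussianReal_zero_var] at hv
    have h7 : ∀ᵐ x ∂μ, (1 * g x + 0 * g (T^[0] x)) = 0 := by
      have h8 : ∀ᵐ y ∂(μ.map fun x => 1 * g x + 0 * g (T^[0] x)), y = 0 := by
        rw [hv, ae_dirac_eq]
        exact rfl
      exact ae_of_ae_map (hcomb 0 1 0).aemeasurable h8
    exact h0 (h7.mono fun x hx => by simpa using hx)
  · -- the roots: the law of `(g, g ∘ T^n) / √m`
    set w : ℝ := (√m)⁻¹ with hw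
    have hm0 : (0 : ℝ) < m := by exact_mod_cast hm
    have hw2 : w ^ 2 * m = 1 := by
      rw [hw, inv_pow, Real.sq_sqrt hm0.le, inv_mul_cancel₀ hm0.ne']
    have hpair : Measurable fun x => (w * g x, w * g (T^[n] x)) :=
      (hg.const_mul w).prodMk ((hgn n).const_mul w)
    have hpair1 : Measurable fun x => (g x, g (T^[n] x)) := hg.prodMk (hgn n)
    have hE : ∀ s t : ℝ, Measurable fun u : ℝ × ℝ => Complex.exp (((s * u.1 + t * u.2 : ℝ) : ℂ) * Complex.I) := by
      intro s t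
      exact Complex.measurable_exp.comp ((Complex.measurable_ofReal.comp
        ((measurable_fst.const_mul s).add (measurable_snd.const_mul t))).mul_const _)
    have hP : IsProbabilityMeasure (μ.map fun x => (w * g x, w * g (T^[n] x))) :=
      Measure.isProbabilityMeasure_map hpair.aemeasurable
    refine ⟨μ.map fun x => (w * g x, w * g (T^[n] x)), hP, ?_, fun s t => ?_⟩
    · -- symmetry, by the characteristic function
      have hm2 : Measurable fun u : ℝ × ℝ => -u := measurable_neg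
      have hPm : IsProbabilityMeasure ((μ.map fun x => (w * g x, w * g (T^[n] x))).map fun u => -u) :=
        Measure.isProbabilityMeasure_map hm2.aemeasurable
      refine Measure.ext_of_charFunDual (funext fun L => ?_)
      rw [charFunDual_apply, charFunDual_apply]
      have hL : Measurable fun u : ℝ × ℝ => Complex.exp ((L u : ℂ) * Complex.I) :=
        Complex.measurable_exp.comp ((Complex.measurable_ofReal.comp L.continuous.measurable).mul_const _)
      have hLn : Measurable fun u : ℝ × ℝ => Complex.exp ((L (-u) : ℂ) * Complex.I) := hL.comp hm2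
      rw [integral_map hm2.aemeasurable hL.aestronglyMeasurable,
        integral_map hpair.aemeasurable hLn.aestronglyMeasurable,
        integral_map hpair.aemeasurable hL.aestronglyMeasurable]
      obtain ⟨v, -, hz⟩ := hchar n (L (1, 0)) (L (0, 1))
      have eL : ∀ a b : ℝ, L (a, b) = a * L (1, 0) + b * L (0, 1) := by
        intro a b
        have : ((a, b) : ℝ × ℝ) = a • ((1, 0) : ℝ × ℝ) + b • ((0, 1) : ℝ × ℝ) := by
          ext <;> simp
        rw [this, map_add, map_smul, map_smul, smul_eq_mul, smul_eq_mul]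
      have h1 := hz w
      have h2 := hz (-w)
      have e1 : ∀ x, Complex.exp ((L (w * g x, w * g (T^[n] x)) : ℂ) * Complex.I) =
          Complex.exp (((w * (L (1, 0) * g x + L (0, 1) * g (T^[n] x)) : ℝ) : ℂ) * Complex.I) := by
        intro x
        rw [eL]
        congr 3
        ring
      have e2 : ∀ x, Complex.exp ((L (-(w * g x, w * g (T^[n] x))) : ℂ) * Complex.I) =
          Complex.exp (((-w * (L (1, 0) * g x + L (0, 1) * g (T^[n] x)) : ℝ) : ℂ) * Complex.I) := by
        intro x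
        rw [map_neg, eL]
        congr 3
        ring
      simp only [e1, e2]
      rw [h1, h2]
      congr 1
      push_cast
      ring
    · rw [integral_map hpair1.aemeasurable (hE s t).aestronglyMeasurable,
        integral_map hpair.aemeasurable (hE s t).aestronglyMeasurable]
      obtain ⟨v, -, hz⟩ := hchar n s t
      have h1 := hz 1
      have h2 := hz w
      have e1 : ∀ x, Complex.exp (((s * (g x, g (T^[n] x)).1 + t * (g x, g (T^[n] x)).2 : ℝ) : ℂ) * Complex.I) =
          Complex.exp (((1 * (s * g x + t * g (T^[n] x)) : ℝ) : ℂ) * Complex.I) := by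
        intro x
        rw [one_mul]
      have e2 : ∀ x, Complex.exp (((s * (w * g x, w * g (T^[n] x)).1 +
          t * (w * g x, w * g (T^[n] x)).2 : ℝ) : ℂ) * Complex.I) =
          Complex.exp (((w * (s * g x + t * g (T^[n] x)) : ℝ) : ℂ) * Complex.I) := by
        intro x
        congr 3
        ring
      simp only [e1, e2]
      rw [h1, h2, ← Complex.exp_nat_mul]
      congr 1
      have h3 : ((w : ℂ)) ^ 2 * m = 1 := by exact_mod_cast hw2
      push_cast
      linear_combination ((v : ℂ) / 2) * h3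

end Pool.Agent.Orj
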