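import Mathlib
import Pool.Agent.Orj.Sym

/-!
# Gaussian and Poisson processes
-/

set_option autoImplicit false

open MeasureTheory Filter Topology

namespace Pool.Agent.Orj

/-- the Laplace transform of the Poisson law -/
theorem poi_lap (r : NNReal) (s : ℝ) :
    ∫ k : ℕ, Real.exp (-(s * k)) ∂(ProbabilityTheory.poissonMeasure r) = Real.exp (-(r * (1 - Real.exp (-s)))) := by
  rw [ProbabilityTheory.integral_poissonMeasure]
  have h1 : HasSum (fun k : ℕ => (r * Real.exp (-s)) ^ k / (k.factorial : ℝ)) (Real.exp (r * Real.exp (-s))) := by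
    rw [Real.exp_eq_exp_ℝ]
    exact NormedSpace.expSeries_div_hasSum_exp _
  have h2 := (h1.mul_left (Real.exp (-r))).tsum_eq
  have e : ∀ k : ℕ, (Real.exp (-(r : ℝ)) * (r : ℝ) ^ k / (k.factorial : ℝ)) • Real.exp (-(s * k)) =
      Real.exp (-r) * ((r * Real.exp (-s)) ^ k / (k.factorial : ℝ)) := by
    intro k
    rw [smul_eq_mul, mul_pow, ← Real.exp_nat_mul]
    have : (k : ℝ) * -s = -(s * k) := by ring
    rw [this]
    ring
  simp only [e]
  rw [h2, ← Real.exp_add]
  congr 1
  ring

theorem pair_meas : Measurable fun u : ℕ × ℕ × ℕ => (((u.1 + u.2.2 : ℕ) : ℝ), ((u.2.1 + u.2.2 : ℕ) : ℝ)) :=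
  measurable_of_countable _

instance (p r : NNReal) : IsProbabilityMeasure (poissonPair p r) :=
  Measure.isProbabilityMeasure_map pair_meas.aemeasurable

theorem pair_nonneg (p r : NNReal) : ∀ᵐ u ∂(poissonPair p r), 0 ≤ u.1 ∧ 0 ≤ u.2 := by
  have hs : MeasurableSet {u : ℝ × ℝ | 0 ≤ u.1 ∧ 0 ≤ u.2} :=
    (measurableSet_le measurable_const measurable_fst).inter (measurableSet_le measurable_const measurable_snd)
  refine (ae_map_iff pair_meas.aemeasurable hs).2 (Eventually.of_forall fun u => ?_)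
  exact ⟨Nat.cast_nonneg _, Nat.cast_nonneg _⟩

theorem pair_lap (p r : NNReal) (s t : ℝ) :
    ∫ u, Real.exp (-(s * u.1 + t * u.2)) ∂(poissonPair p r) =
      Real.exp (-(p * (1 - Real.exp (-s)) + p * (1 - Real.exp (-t)) + r * (1 - Real.exp (-(s + t))))) := by
  have hm : Measurable fun u : ℝ × ℝ => Real.exp (-(s * u.1 + t * u.2)) :=
    Real.measurable_exp.comp ((measurable_fst.const_mul s).add (measurable_snd.const_mul t)).neg
  unfold poissonPair
  rw [integral_map pair_meas.aemeasurable hm.aestronglyMeasurable]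
  have e : ∀ u : ℕ × ℕ × ℕ, Real.exp (-(s * (((u.1 + u.2.2 : ℕ) : ℝ), ((u.2.1 + u.2.2 : ℕ) : ℝ)).1 +
      t * (((u.1 + u.2.2 : ℕ) : ℝ), ((u.2.1 + u.2.2 : ℕ) : ℝ)).2)) =
      Real.exp (-(s * u.1)) * (fun v : ℕ × ℕ => Real.exp (-(t * v.1)) * Real.exp (-((s + t) * v.2))) u.2 := by
    intro u
    show _ = Real.exp (-(s * u.1)) * (Real.exp (-(t * u.2.1)) * Real.exp (-((s + t) * u.2.2)))
    rw [← Real.exp_add, ← Real.exp_add]
    congr 1
    push_cast
    ring
  simp only [e]
  rw [integral_prod_mul (fun k : ℕ => Real.exp (-(s * k)))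
    (fun v : ℕ × ℕ => Real.exp (-(t * v.1)) * Real.exp (-((s + t) * v.2))),
    integral_prod_mul (fun k : ℕ => Real.exp (-(t * k))) (fun k : ℕ => Real.exp (-((s + t) * k))),
    poi_lap, poi_lap, poi_lap, ← Real.exp_add, ← Real.exp_add]
  congr 1
  ring

theorem pair_posID (p r : NNReal) : PosID (poissonPair p r) := by
  intro m hm
  have hm0 : (m : ℝ) ≠ 0 := by
    have : 0 < m := hm
    exact_mod_cast this.ne'
  refine ⟨poissonPair (p / m) (r / m), inferInstance, pair_nonneg _ _, fun s t _ _ => ?_⟩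
  rw [pair_lap, pair_lap, ← Real.exp_nat_mul]
  congr 1
  push_cast
  field_simp

variable {X : Type} [MeasurableSpace X] {μ : Measure X} [IsProbabilityMeasure μ] {T : X → X}

theorem posProcess_of_poisson (hT : MeasurePreserving T μ μ) {g : X → ℝ} (h : PoissonProcess μ T g) :
    PosProcess μ T g := by
  obtain ⟨hg, hg0, a, ha, hlaw⟩ := h
  have hgn : ∀ n : ℕ, Measurable fun x => g (T^[n] x) := fun n => hg.comp (hT.measurable.iterate n)
  have hpair : ∀ n : ℕ, Measurable fun x => (g x, g (T^[n] x)) := fun n => hg.prodMk (hgn n)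
  refine ⟨hg, hg0, ?_, fun n hn => ?_⟩
  · rintro ⟨c, hc⟩
    obtain ⟨p, r, hpr, hl⟩ := hlaw 1 (le_refl 1)
    have key : ∀ s : ℝ, -(s * c) = -(a * (1 - Real.exp (-s))) := by
      intro s
      have h1 := pair_lap p r s 0
      have hm : Measurable fun u : ℝ × ℝ => Real.exp (-(s * u.1 + 0 * u.2)) :=
        Real.measurable_exp.comp ((measurable_fst.const_mul s).add (measurable_snd.const_mul 0)).neg
      rw [← hl, integral_map (hpair 1).aemeasurable hm.aestronglyMeasurable] at h1
      have h2 : ∫ x, Real.exp (-(s * g x + 0 * g (T^[1] x))) ∂μ = Real.exp (-(s * c)) := by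
        have : ∫ x, Real.exp (-(s * g x + 0 * g (T^[1] x))) ∂μ = ∫ _ : X, Real.exp (-(s * c)) ∂μ := by
          refine integral_congr_ae (hc.mono fun x hx => ?_)
          simp [hx]
        rw [this]
        simp
      have h3 : Real.exp (-(s * c)) = Real.exp (-(a * (1 - Real.exp (-s)))) := by
        rw [← h2]
        refine h1.trans ?_
        congr 1
        rw [add_zero, neg_zero, Real.exp_zero, ← hpr]
        ring
      exact Real.exp_injective h3
    have k1 := key 1
    have k2 := key 2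
    have e2 : Real.exp (-2) = Real.exp (-1) * Real.exp (-1) := by
      rw [← Real.exp_add]
      norm_num
    have e3 : Real.exp (-1) < 1 := by
      rw [← Real.exp_zero]
      exact Real.exp_strictMono (by norm_num)
    rw [e2] at k2
    have : a * (1 - Real.exp (-1)) * (1 - Real.exp (-1)) = 0 := by linear_combination 2 * k1 - k2
    have h1 : 0 < 1 - Real.exp (-1) := by linarith
    have h2 := mul_pos (mul_pos ha h1) h1
    linarith
  · obtain ⟨p, r, -, hl⟩ := hlaw n hn
    rw [hl]
    exact pair_posID p r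

end Pool.Agent.Orj
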